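import Mathlib

/-!
A finite monadic confluent rewriting system made of two families of rules acting on the same words.
Used for `MP_eab232_al`.
-/

set_option autoImplicit false

namespace Pool.Agent.V11287.Mon

inductive Sy (S : Type) where
  | al | be | ga | de | c | w | ze
  | t (s : S)
  | i (a b : S)

open Sy

variable {S : Type}

/-- the neighbours which are not sent to zero -/
def legal : Sy S → Sy S → Bool
  | al, t _ => true
  | al, ga => true
  | al, c => true
  | t _, t _ => true
  | t _, ga => true
  | t _, c => true
  | ga, de => true
  | de, i _ _ => true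
  | de, be => true
  | de, w => true
  | i _ _, i _ _ => true
  | i _ _, be => true
  | i _ _, w => true
  | be, al => true
  | c, i _ _ => true
  | c, be => true
  | w, t _ => true
  | w, ga => true
  | _, _ => false

inductive Rule (Φ : S → S → List S) (L : ℕ) : List (Sy S) → List (Sy S) → Prop
  | gd : Rule Φ L [ga, de] [c]
  | xci (a b : S) : Rule Φ L ((Φ a b).map t ++ [c, i a b]) [c]
  | ba : Rule Φ L [be, al] [w]
  | iwy (a b : S) : Rule Φ L [i a b, w, t a, t b] [w]
  | bad (x y : Sy S) (h : legal x y = false) : Rule Φ L [x, y] [ze]
  | wtc (τ : List S) (h : τ ≠ []) (hL : τ.length ≤ L) : Rule Φ L (w :: τ.map t ++ [c]) [ze]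

/-- at most `n` letters `t _` on top of `w` -/
def wt : ℕ → List (Sy S) → Bool
  | _, w :: _ => true
  | n + 1, t _ :: st => wt n st
  | _, _ => false

def ok (st : List (Sy S)) (a : Sy S) : Bool :=
  match st with
  | [] => true
  | b :: _ => legal b a

def pushC (L : ℕ) (st : List (Sy S)) : List (Sy S) :=
  if ok st c = true ∧ wt L st = false then c :: st else [ze]

def pushW (st : List (Sy S)) : List (Sy S) :=
  if ok st w = true then w :: st else [ze]

open Classical in
noncomputable def push (Φ : S → S → List S) (L : ℕ) (st : List (Sy S)) : Sy S → List (Sy S)
  | de => match st with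
    | ga :: st' => pushC L st'
    | _ => de :: st
  | al => match st with
    | be :: st' => pushW st'
    | _ => al :: st
  | c => pushC L st
  | i a b => match st with
    | c :: st' => if ((Φ a b).map t).reverse <+: st' then pushC L (st'.drop (Φ a b).length)
        else i a b :: st
    | _ => i a b :: st
  | t b => match st with
    | t a :: w :: i a' b' :: st' => if a = a' ∧ b = b' then pushW st' else t b :: st
    | _ => t b :: st
  | x => x :: st

noncomputable def stp (Φ : S → S → List S) (L : ℕ) (st : List (Sy S)) (a : Sy S) : List (Sy S) :=
  if ok st a = true then push Φ L st a else [ze]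

noncomputable def run (Φ : S → S → List S) (L : ℕ) (st : List (Sy S)) (l : List (Sy S)) :
    List (Sy S) := l.foldl (stp Φ L) st

variable {Φ : S → S → List S} {L : ℕ}

@[simp] lemma run_nil (st : List (Sy S)) : run Φ L st [] = st := rfl

@[simp] lemma run_cons (st : List (Sy S)) (a : Sy S) (l : List (Sy S)) :
    run Φ L st (a :: l) = run Φ L (stp Φ L st a) l := rfl

lemma run_append (st : List (Sy S)) (l l' : List (Sy S)) :
    run Φ L st (l ++ l') = run Φ L (run Φ L st l) l' := List.foldl_append ..

@[simp] lemma legal_ze (a : Sy S) : legal a ze = false := by cases a <;> rfl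

@[simp] lemma ze_legal (a : Sy S) : legal ze a = false := by cases a <;> rfl

@[simp] lemma stp_zero (a : Sy S) (st : List (Sy S)) : stp Φ L (ze :: st) a = [ze] := by
  simp [stp, ok]

@[simp] lemma run_zero (l : List (Sy S)) : run Φ L [ze] l = [ze] := by
  induction l with
  | nil => rfl
  | cons a l ih => simp [ih]

@[simp] lemma stp_ze (st : List (Sy S)) : stp Φ L st ze = [ze] := by
  cases st <;> simp [stp, ok, push]

lemma stp_c (st : List (Sy S)) : stp Φ L st c = pushC L st := by
  unfold stp pushC
  by_cases h : ok st c = true
  · simp [h, push, pushC]
  · simp [h]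

lemma stp_w (st : List (Sy S)) : stp Φ L st w = pushW st := by
  unfold stp pushW
  by_cases h : ok st w = true
  · simp [h, push]
  · simp [h]

lemma pushC_cases (st : List (Sy S)) : pushC L st = c :: st ∨ pushC L st = [ze] := by
  unfold pushC
  split_ifs <;> simp

lemma pushW_cases (st : List (Sy S)) : pushW st = w :: st ∨ pushW st = [ze] := by
  unfold pushW
  split_ifs <;> simp

/-- after a push, the new top forbids whatever the pushed letter forbids -/
lemma bad_after (st : List (Sy S)) (a b : Sy S) (h : legal a b = false) :
    ok (stp Φ L st a) b = false := by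
  unfold stp
  by_cases hok : ok st a = true
  swap
  · rw [if_neg hok]; simp [ok]
  rw [if_pos hok]
  cases a with
  | al =>
    simp only [push]
    split
    · rename_i st'
      rcases pushW_cases st' with h1 | h1
      · rw [h1]; cases b <;> simp_all [ok, legal]
      · rw [h1]; simp [ok]
    · simpa [ok] using h
  | be => simpa [ok, push] using h
  | ga => simpa [ok, push] using h
  | de =>
    simp only [push]
    split
    · rename_i st'
      rcases pushC_cases (L := L) st' with h1 | h1
      · rw [h1]; cases b <;> simp_all [ok, legal]
      · rw [h1]; simp [ok]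
    · simpa [ok] using h
  | c =>
    simp only [push]
    rcases pushC_cases (L := L) st with h1 | h1
    · rw [h1]; simpa [ok] using h
    · rw [h1]; simp [ok]
  | w => simpa [ok, push] using h
  | ze => simp [ok, push]
  | t s =>
    simp only [push]
    split
    · split_ifs
      · rename_i st' _
        rcases pushW_cases st' with h1 | h1
        · rw [h1]; cases b <;> simp_all [ok, legal]
        · rw [h1]; simp [ok]
      · simpa [ok] using h
    · simpa [ok] using h
  | i p q =>
    simp only [push]
    split
    · split_ifs
      · rename_i st' _
        rcases pushC_cases (L := L) (st'.drop (Φ p q).length) with h1 | h1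
        · rw [h1]; cases b <;> simp_all [ok, legal]
        · rw [h1]; simp [ok]
      · simpa [ok] using h
    · simpa [ok] using h

lemma ok_false_of_bad {st : List (Sy S)} {b : Sy S} (h : ok st b = false) :
    stp Φ L st b = [ze] := by
  simp [stp, h]

/-! ### letters `t _` over `w` -/

lemma wt_mono {n m : ℕ} (h : n ≤ m) (st : List (Sy S)) (hw : wt n st = true) :
    wt m st = true := by
  induction n generalizing m st with
  | zero =>
    cases st with
    | nil => simp [wt] at hw
    | cons a st => cases a <;> simp_all [wt]
  | succ n ih =>
    cases st with
    | nil => simp [wt] at hw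
    | cons a st =>
      obtain ⟨m, rfl⟩ : ∃ k, m = k + 1 := ⟨m - 1, by omega⟩
      cases a <;> simp_all [wt]

lemma pushC_of_wt {n : ℕ} (hn : n ≤ L) (st : List (Sy S)) (hw : wt n st = true) :
    pushC L st = [ze] := by
  unfold pushC
  rw [if_neg]
  rintro ⟨-, h⟩
  rw [wt_mono hn st hw] at h
  simp at h

lemma wt_step {n : ℕ} (st : List (Sy S)) (s : S) (h : wt n st = true ∨ st = [ze]) :
    wt (n + 1) (stp Φ L st (t s)) = true ∨ stp Φ L st (t s) = [ze] := by
  rcases h with h | h
  swap
  · right; rw [h]; simp
  by_cases hok : ok st (t s) = true
  swap
  · right; simp [stp, hok]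
  unfold stp
  rw [if_pos hok]
  simp only [push]
  split
  · split_ifs
    · rename_i st' _
      rcases pushW_cases st' with h1 | h1
      · left; rw [h1]; simp [wt]
      · right; exact h1
    · left; simpa [wt] using h
  · left; simpa [wt] using h

lemma wt_run {n : ℕ} (st : List (Sy S)) (τ : List S) (h : wt n st = true ∨ st = [ze]) :
    wt (n + τ.length) (run Φ L st (τ.map t)) = true ∨ run Φ L st (τ.map t) = [ze] := by
  induction τ generalizing n st with
  | nil => simpa using h
  | cons s τ ih =>
    simp only [List.map_cons, run_cons, List.length_cons]
    have h1 := wt_step (Φ := Φ) (L := L) st s h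
    have h2 := ih (n := n + 1) _ h1
    rw [show n + (τ.length + 1) = n + 1 + τ.length by omega]
    exact h2

/-- a stack on which `t _` is simply pushed -/
def Good (st : List (Sy S)) : Prop :=
  st = [] ∨ (∃ l, st = al :: l) ∨ ∃ a l, st = t a :: l ∧ ∀ l', l ≠ w :: l'

lemma good_step {st : List (Sy S)} (h : Good st) (s : S) :
    stp Φ L st (t s) = t s :: st ∧ Good (t s :: st) := by
  have hok : ok st (t s) = true := by
    rcases h with rfl | ⟨l, rfl⟩ | ⟨a, l, rfl, -⟩ <;> rfl
  constructor
  · unfold stp
    rw [if_pos hok]
    simp only [push]
    split
    · exfalso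
      rcases h with h | ⟨l, h⟩ | ⟨a, l, h, h'⟩
      · simp at h
      · simp at h
      · simp only [List.cons.injEq] at h
        exact h' _ h.2.symm
    · rfl
  · right; right
    refine ⟨s, st, rfl, ?_⟩
    intro l' hl
    rcases h with h | ⟨l, h⟩ | ⟨a, l, h, -⟩ <;> rw [h] at hl <;> simp at hl

lemma good_run {st : List (Sy S)} (h : Good st) (τ : List S) :
    run Φ L st (τ.map t) = (τ.map t).reverse ++ st := by
  induction τ generalizing st with
  | nil => rfl
  | cons s τ ih =>
    simp only [List.map_cons, run_cons, List.reverse_cons, List.append_assoc]
    rw [(good_step (Φ := Φ) (L := L) h s).1, ih (good_step (Φ := Φ) (L := L) h s).2]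
    rfl

lemma wt_append (n : ℕ) (τ : List S) (st : List (Sy S)) (h : wt n (τ.map t ++ st) = true) :
    wt n st = true := by
  induction τ generalizing n with
  | nil => simpa using h
  | cons s τ ih =>
    cases n with
    | zero => simp [wt] at h
    | succ n =>
      simp only [List.map_cons, List.cons_append, wt] at h
      exact wt_mono (Nat.le_succ n) st (ih n h)

lemma ok_append_c (τ : List S) (st : List (Sy S)) (h : Good st) :
    ok (τ.map t ++ st) c = true := by
  cases τ with
  | nil =>
    simp only [List.map_nil, List.nil_append]
    rcases h with rfl | ⟨l, rfl⟩ | ⟨a, l, rfl, -⟩ <;> rfl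
  | cons s τ => rfl

/-- all the words `l` of a rule `l → r` act as `r` on all stacks -/
lemma run_rule (hL : 1 ≤ L) (hΦ : ∀ a b, (Φ a b).length + 1 ≤ L) {l r : List (Sy S)}
    (h : Rule Φ L l r) (st : List (Sy S)) : run Φ L st l = run Φ L st r := by
  cases h with
  | gd =>
    simp only [run_cons, run_nil]
    rw [stp_c]
    by_cases hok : ok st ga = true
    · have h1 : stp Φ L st ga = ga :: st := by simp [stp, hok, push]
      rw [h1]
      simp [stp, ok, legal, push]
    · have h1 : stp Φ L st ga = [ze] := by simp [stp, hok]
      rw [h1, stp_zero]
      unfold pushC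
      rw [if_neg]
      rintro ⟨h2, -⟩
      cases st with
      | nil => exact hok rfl
      | cons b st => cases b <;> simp_all [ok, legal]
  | xci a b =>
    rw [run_append]
    simp only [run_cons, run_nil, stp_c]
    by_cases hg : Good st
    · rw [good_run hg, ← List.map_reverse]
      have hokc := ok_append_c (Φ a b).reverse st hg
      have hokc0 := ok_append_c [] st hg
      by_cases hw : wt L ((Φ a b).reverse.map t ++ st) = true
      · rw [pushC_of_wt le_rfl _ hw, pushC_of_wt le_rfl _ (wt_append _ _ _ hw)]
        simp
      · have h1 : pushC L ((Φ a b).reverse.map t ++ st) = c :: ((Φ a b).reverse.map t ++ st) := by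
          unfold pushC
          rw [if_pos ⟨hokc, by simpa using hw⟩]
        rw [h1]
        simp only [stp, ok, legal, if_true, push]
        rw [if_pos, List.drop_left']
        · simp
        · rw [List.map_reverse]
          exact List.prefix_append _ _
    · -- the stack is not good: everything is zero
      have hz : pushC L st = [ze] := by
        cases st with
        | nil => exact absurd (Or.inl rfl) hg
        | cons b st =>
          cases b with
          | al => exact absurd (Or.inr (Or.inl ⟨_, rfl⟩)) hg
          | t s =>
            have : ∃ l', st = w :: l' := by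
              by_contra hcon
              push Not at hcon
              exact hg (Or.inr (Or.inr ⟨s, st, rfl, hcon⟩))
            obtain ⟨l', rfl⟩ := this
            exact pushC_of_wt hL _ rfl
          | _ => simp [pushC, ok, legal]
      rw [hz]
      by_cases hne : Φ a b = []
      · rw [hne]
        simp [hz]
      have hz2 : pushC L (run Φ L st ((Φ a b).map t)) = [ze] := by
        have key : (∃ n, n ≤ 1 ∧ wt n st = true) ∨ run Φ L st ((Φ a b).map t) = [ze] := by
          cases st with
          | nil => exact absurd (Or.inl rfl) hg
          | cons b' st =>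
            cases b' with
            | al => exact absurd (Or.inr (Or.inl ⟨_, rfl⟩)) hg
            | t s =>
              have : ∃ l', st = w :: l' := by
                by_contra hcon
                push Not at hcon
                exact hg (Or.inr (Or.inr ⟨s, st, rfl, hcon⟩))
              obtain ⟨l', rfl⟩ := this
              exact Or.inl ⟨1, le_rfl, rfl⟩
            | w => exact Or.inl ⟨0, by omega, rfl⟩
            | _ =>
              right
              obtain ⟨x, l, hx⟩ := List.exists_cons_of_ne_nil hne
              rw [hx]
              simp [stp, ok, legal]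
        rcases key with ⟨n, hn, hw⟩ | hz3
        · rcases wt_run (Φ := Φ) (L := L) st (Φ a b) (Or.inl hw) with h2 | h2
          · exact pushC_of_wt (by have := hΦ a b; omega) _ h2
          · rw [h2]; simp [pushC, ok]
        · rw [hz3]; simp [pushC, ok]
      rw [hz2]
      simp
  | ba =>
    simp only [run_cons, run_nil]
    rw [stp_w]
    by_cases hok : ok st be = true
    · have h1 : stp Φ L st be = be :: st := by simp [stp, hok, push]
      rw [h1]
      simp [stp, ok, legal, push]
    · have h1 : stp Φ L st be = [ze] := by simp [stp, hok]
      rw [h1, stp_zero]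
      unfold pushW
      rw [if_neg]
      intro h2
      cases st with
      | nil => exact hok rfl
      | cons b st => cases b <;> simp_all [ok, legal]
  | iwy a b =>
    simp only [run_cons, run_nil]
    rw [stp_w (st := st)]
    by_cases hok : ok st (i a b) = true
    · -- plain push of `i`
      have plain : ∀ st' : List (Sy S), stp Φ L (stp Φ L (stp Φ L (i a b :: st') w) (t a)) (t b)
          = pushW st' := by
        intro st'
        have h1 : stp Φ L (i a b :: st') w = w :: i a b :: st' := by simp [stp, ok, legal, push]
        have h2 : stp Φ L (w :: i a b :: st') (t a) = t a :: w :: i a b :: st' := by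
          simp [stp, ok, legal, push]
        rw [h1, h2]
        simp [stp, ok, legal, push]
      have hcases : stp Φ L st (i a b) = i a b :: st ∨ ∃ st', st = c :: st' := by
        cases st with
        | nil => left; simp [stp, ok, push]
        | cons x st =>
          cases x <;> first
            | exact Or.inr ⟨_, rfl⟩
            | (left; simp_all [stp, ok, legal, push])
      rcases hcases with h1 | ⟨st', rfl⟩
      · rw [h1, plain]
      · have hz : pushW (c :: st') = [ze] := by simp [pushW, ok, legal]
        rw [hz]
        have h2 : stp Φ L (c :: st') (i a b) = i a b :: c :: st' ∨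
            ok (stp Φ L (c :: st') (i a b)) w = false := by
          simp only [stp, ok, legal, if_true, push]
          split_ifs
          · right
            rcases pushC_cases (L := L) (st'.drop (Φ a b).length) with h1 | h1 <;> rw [h1] <;> rfl
          · left; rfl
        rcases h2 with h2 | h2
        · rw [h2, plain, hz]
        · rw [ok_false_of_bad h2]
          simp
    · have h1 : stp Φ L st (i a b) = [ze] := by simp [stp, hok]
      rw [h1]
      simp only [stp_zero]
      unfold pushW
      rw [if_neg]
      intro h2
      cases st with
      | nil => exact hok rfl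
      | cons b st => cases b <;> simp_all [ok, legal]
  | bad x y h =>
    simp only [run_cons, run_nil, stp_ze]
    exact ok_false_of_bad (bad_after st x y h)
  | wtc τ h hτ =>
    rw [List.cons_append, run_cons, run_append]
    simp only [run_cons, run_nil, stp_ze, stp_c, stp_w]
    have h0 : wt 0 (pushW st) = true ∨ pushW st = [ze] := by
      rcases pushW_cases st with h1 | h1
      · left; rw [h1]; rfl
      · right; exact h1
    rcases wt_run (Φ := Φ) (L := L) _ τ h0 with h2 | h2
    · exact pushC_of_wt (by omega) _ h2
    · rw [h2]; simp [pushC, ok]

end Pool.Agent.V11287.Mon
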