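import Pool.Agent.V11287.PT2

set_option autoImplicit false

namespace Pool.Agent.V11287.PT

variable {n : ℕ} [NeZero n]

def Cyc (B : Finset (Finset (ZMod n))) : Prop := ∀ b ∈ B, b.image (fun x => x + 1) ∈ B

/-- translation by `c` -/
abbrev tr (c : ZMod n) : Equiv.Perm (ZMod n) := Equiv.addRight c

theorem Cyc.tr {B : Finset (Finset (ZMod n))} (h : Cyc B) (c : ZMod n) :
    ∀ b ∈ B, b.map (tr c).toEmbedding ∈ B := by
  have key : ∀ m : ℕ, ∀ b ∈ B, b.image (fun x => x + (m : ZMod n)) ∈ B := by
    intro m
    induction m with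
    | zero => intro b hb; simpa using hb
    | succ m ih =>
      intro b hb
      have := h _ (ih b hb)
      rw [Finset.image_image] at this
      convert this using 2
      ext x
      simp [add_assoc]
  intro b hb
  have := key c.val b hb
  rw [ZMod.natCast_zmod_val] at this
  rw [Finset.map_eq_image]
  exact this

/-- normalised isomorphisms fixing 0 -/
theorem iso_norm {B B' : Finset (Finset (ZMod n))} (hB' : Cyc B') (h : Iso B B') :
    ∃ π : Equiv.Perm (ZMod n), π 0 = 0 ∧ (∀ b, b ∈ B ↔ b.map π.toEmbedding ∈ B') := by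
  obtain ⟨σ, hσ⟩ := h
  refine ⟨σ.trans (tr (- σ 0)), by simp, fun b => ?_⟩
  rw [hσ]
  have he : b.map (σ.trans (tr (- σ 0))).toEmbedding =
      (b.map σ.toEmbedding).map (tr (- σ 0)).toEmbedding := by
    rw [Finset.map_map]; rfl
  rw [he]
  constructor
  · exact hB'.tr _ _
  · intro hb
    have := hB'.tr (σ 0) _ hb
    rw [Finset.map_map] at this
    convert this using 1
    ext z
    simp

theorem class_card (B : Finset (Finset (ZMod n))) (hB : IsSTS B) (L : ℕ) (hL : n + 1 < 2 ^ L)
    {ι : Type*} [DecidableEq ι] (F : ι → Finset (Finset (ZMod n))) (hF : Function.Injective F)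
    (s : Finset ι) (hs : ∀ i ∈ s, Cyc (F i) ∧ Iso B (F i)) : s.card ≤ n ^ L := by
  have hn : 0 < n := Nat.pos_of_ne_zero (NeZero.ne n)
  obtain ⟨S, hScard, hS⟩ := gen hB L (by rw [ZMod.card]; exact hL)
  have hπ : ∀ i ∈ s, ∃ π : Equiv.Perm (ZMod n), π 0 = 0 ∧
      (∀ b, b ∈ B ↔ b.map π.toEmbedding ∈ F i) := fun i hi => iso_norm (hs i hi).1 (hs i hi).2
  choose! π hπ0 hπ using hπ
  -- the map to functions on S
  let τ : ι → Equiv.Perm (ZMod n) := fun i => ((π i).trans (tr 1)).trans (π i).symm
  have hτ : ∀ i ∈ s, ∀ b ∈ B, b.map (τ i).toEmbedding ∈ B := by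
    intro i hi b hb
    rw [hπ i hi]
    have h1 := (hs i hi).1.tr 1 _ ((hπ i hi b).1 hb)
    convert h1 using 1
    rw [Finset.map_map, Finset.map_map]
    congr 1
    ext z
    simp [τ]
  have hinj : Set.InjOn (fun i => (fun t : S => τ i t)) (s : Set ι) := by
    intro i hi j hj hij
    have hi : i ∈ s := hi
    have hj : j ∈ s := hj
    have heq : τ i = τ j := aut_eq hB S hS _ _ (hτ i hi) (hτ j hj)
      (fun t ht => congrFun hij ⟨t, ht⟩)
    have hsym : ∀ m : ℕ, (π i).symm (m : ZMod n) = (π j).symm (m : ZMod n) := by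
      intro m
      induction m with
      | zero =>
        have h1 : (π i).symm 0 = 0 := by rw [Equiv.symm_apply_eq, hπ0 i hi]
        have h2 : (π j).symm 0 = 0 := by rw [Equiv.symm_apply_eq, hπ0 j hj]
        simp [h1, h2]
      | succ m ih =>
        have h1 : (π i).symm ((m + 1 : ℕ) : ZMod n) = τ i ((π i).symm m) := by
          simp [τ]
        have h2 : (π j).symm ((m + 1 : ℕ) : ZMod n) = τ j ((π j).symm m) := by
          simp [τ]
        rw [h1, h2, ih, heq]
    have hpi : π i = π j := by
      have : (π i).symm = (π j).symm := by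
        ext v
        have := hsym v.val
        rw [ZMod.natCast_zmod_val] at this
        rw [this]
      rw [← Equiv.symm_symm (π i), this, Equiv.symm_symm]
    apply hF
    ext b
    constructor
    · intro hb
      rw [← map_symm_map (π i) b] at hb ⊢
      rw [← hπ i hi] at hb
      rw [hpi] at hb ⊢
      rw [← hπ j hj]
      exact hb
    · intro hb
      rw [← map_symm_map (π i) b]
      rw [← hπ i hi]
      rw [hpi]
      rw [← map_symm_map (π j) b] at hb
      rw [← hπ j hj] at hb
      exact hb
  have hcard : s.card ≤ (Finset.univ : Finset (S → ZMod n)).card :=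
    Finset.card_le_card_of_injOn (fun i => (fun t : S => τ i t)) (fun _ _ => Finset.mem_univ _) hinj
  refine hcard.trans ?_
  rw [Finset.card_univ, Fintype.card_fun, ZMod.card, Fintype.card_coe]
  exact Nat.pow_le_pow_right hn hScard

/-- picking pairwise non-isomorphic members. -/
theorem pick {ι : Type*} [DecidableEq ι] (F : ι → Finset (Finset (ZMod n)))
    (hF : Function.Injective F) (T : Finset ι) (hT : ∀ i ∈ T, IsSTS (F i) ∧ Cyc (F i))
    (L : ℕ) (hL : n + 1 < 2 ^ L) (M : ℕ) (hM : M * n ^ L ≤ T.card) :
    ∃ f : Fin M → ι, (∀ i, f i ∈ T) ∧ ∀ i j, i ≠ j → ¬ Iso (F (f i)) (F (f j)) := by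
  have hn : 0 < n := Nat.pos_of_ne_zero (NeZero.ne n)
  -- greedy
  have key : ∀ m : ℕ, m ≤ M → ∃ f : Fin m → ι, (∀ i, f i ∈ T) ∧
      ∀ i j, i ≠ j → ¬ Iso (F (f i)) (F (f j)) := by
    intro m
    induction m with
    | zero => intro _; exact ⟨Fin.elim0, fun i => i.elim0, fun i => i.elim0⟩
    | succ m ih =>
      intro hm
      obtain ⟨f, hf, hfi⟩ := ih (by omega)
      classical
      -- union of classes
      let C : Fin m → Finset ι := fun i => T.filter (fun t => Iso (F (f i)) (F t))
      have hC : ∀ i, (C i).card ≤ n ^ L := by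
        intro i
        apply class_card (F (f i)) (hT _ (hf i)).1 L hL F hF
        intro t ht
        rw [Finset.mem_filter] at ht
        exact ⟨(hT t ht.1).2, ht.2⟩
      have hU : (Finset.univ.biUnion C).card ≤ m * n ^ L := by
        refine Finset.card_biUnion_le.trans ?_
        refine (Finset.sum_le_sum (fun i _ => hC i)).trans ?_
        simp
      have hpos : 0 < n ^ L := Nat.pow_pos hn
      have hlt : (Finset.univ.biUnion C).card < T.card := by
        have : (m + 1) * n ^ L ≤ M * n ^ L := Nat.mul_le_mul_right _ hm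
        have h2 : m * n ^ L < (m + 1) * n ^ L := by nlinarith
        omega
      obtain ⟨t, htT, htU⟩ : ∃ t ∈ T, t ∉ Finset.univ.biUnion C := by
        by_contra hcon
        push Not at hcon
        exact absurd (Finset.card_le_card hcon) (by omega)
      have htn : ∀ i, ¬ Iso (F (f i)) (F t) := by
        intro i hi
        apply htU
        rw [Finset.mem_biUnion]
        exact ⟨i, Finset.mem_univ _, Finset.mem_filter.2 ⟨htT, hi⟩⟩
      refine ⟨Fin.snoc f t, ?_, ?_⟩
      · intro i
        refine Fin.lastCases ?_ (fun i => ?_) i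
        · simpa using htT
        · simpa using hf i
      · intro i j
        refine Fin.lastCases ?_ (fun i => ?_) i
        · refine Fin.lastCases ?_ (fun j => ?_) j
          · intro h; exact absurd rfl h
          · intro _
            simp only [Fin.snoc_last, Fin.snoc_castSucc]
            exact fun h => htn j h.symm
        · refine Fin.lastCases ?_ (fun j => ?_) j
          · intro _
            simp only [Fin.snoc_last, Fin.snoc_castSucc]
            exact htn i
          · intro h
            simp only [Fin.snoc_castSucc]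
            exact hfi i j (fun h' => h (by rw [h']))
  exact key M le_rfl

end Pool.Agent.V11287.PT
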