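import Pool.Agent.V11287.PT1
import Pool.Agent.V11287.PT3

set_option autoImplicit false

namespace Pool.Agent.V11287.PT

/-- natural differences -/
def U (y : ℕ → ℕ) (x : ℕ) : Fin 3 → ℕ
  | 0 => x
  | 1 => y x
  | 2 => x + y x

variable {n k : ℕ} [NeZero n] {y : ℕ → ℕ}

/-- sign -/
def sg (n : ℕ) (e : Bool) : ZMod n := if e then 1 else -1

theorem U_pos (hG : Good n k y) {x : ℕ} (h1 : 1 ≤ x) (h2 : x ≤ k) (j : Fin 3) :
    0 < U y x j ∧ U y x j < n := by
  have := hG.1 x h1 h2
  fin_cases j <;> simp [U] <;> omega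

theorem U_inj (hG : Good n k y) {x x' : ℕ} (h1 : 1 ≤ x) (h2 : x ≤ k) (h1' : 1 ≤ x') (h2' : x' ≤ k)
    (j j' : Fin 3) (h : U y x j = U y x' j') : x = x' ∧ j = j' := by
  have a1 := hG.2 x x' h1 h2 h1' h2'
  have a2 := hG.2 x' x h1' h2' h1 h2
  fin_cases j <;> fin_cases j' <;> simp [U] at h ⊢ <;> omega

theorem U_add (hG : Good n k y) {x x' : ℕ} (h1 : 1 ≤ x) (h2 : x ≤ k) (h1' : 1 ≤ x') (h2' : x' ≤ k)
    (j j' : Fin 3) : U y x j + U y x' j' ≠ n := by
  have a1 := hG.2 x x' h1 h2 h1' h2'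
  have a2 := hG.2 x' x h1' h2' h1 h2
  fin_cases j <;> fin_cases j' <;> simp [U] <;> omega

theorem U_ne (hG : Good n k y) (hn : n = 6 * k + 3) {x : ℕ} (h1 : 1 ≤ x) (h2 : x ≤ k) (j : Fin 3) :
    U y x j ≠ 2 * k + 1 ∧ U y x j ≠ 4 * k + 2 := by
  have := (hG.1 x h1 h2).2.2 hn
  fin_cases j <;> simp [U] <;> omega

theorem cast_eq_iff' {a b : ℕ} (ha : a < n) (hb : b < n) : ((a : ZMod n) = b) ↔ a = b := by
  constructor
  · intro h
    rw [ZMod.natCast_eq_natCast_iff'] at h
    rwa [Nat.mod_eq_of_lt ha, Nat.mod_eq_of_lt hb] at h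
  · rintro rfl; rfl

theorem cast_add_zero {a b : ℕ} (ha : 0 < a) (ha' : a < n) (hb' : b < n)
    (h : (a : ZMod n) + b = 0) : a + b = n := by
  have : ((a + b : ℕ) : ZMod n) = 0 := by push_cast; exact h
  rw [ZMod.natCast_eq_zero_iff] at this
  obtain ⟨c, hc⟩ := this
  have : c = 1 := by
    rcases c with _ | _ | c
    · simp at hc; omega
    · rfl
    · nlinarith
  rw [hc, this, mul_one]

theorem D_ne_zero (hG : Good n k y) {x : ℕ} (h1 : 1 ≤ x) (h2 : x ≤ k) (j : Fin 3) (e : Bool) :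
    sg n e * (U y x j : ZMod n) ≠ 0 := by
  have hp := U_pos hG h1 h2 j
  have h0 : (U y x j : ZMod n) ≠ 0 := by
    intro h
    rw [ZMod.natCast_eq_zero_iff] at h
    exact absurd (Nat.le_of_dvd hp.1 h) (by omega)
  cases e <;> simp [sg, h0]

theorem D_inj (hG : Good n k y) {x x' : ℕ} (h1 : 1 ≤ x) (h2 : x ≤ k) (h1' : 1 ≤ x') (h2' : x' ≤ k)
    (j j' : Fin 3) (e e' : Bool)
    (h : sg n e * (U y x j : ZMod n) = sg n e' * (U y x' j' : ZMod n)) :
    e = e' ∧ x = x' ∧ j = j' := by
  have hp := U_pos hG h1 h2 j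
  have hp' := U_pos hG h1' h2' j'
  cases e <;> cases e' <;> simp only [sg, Bool.false_eq_true, if_false, if_true, one_mul,
    neg_one_mul, neg_inj] at h
  · rw [cast_eq_iff' hp.2 hp'.2] at h
    exact ⟨rfl, U_inj hG h1 h2 h1' h2' j j' h⟩
  · exact absurd (cast_add_zero hp.1 hp.2 hp'.2 (by rw [← h]; ring)) (U_add hG h1 h2 h1' h2' j j')
  · exact absurd (cast_add_zero hp.1 hp.2 hp'.2 (by rw [h]; ring)) (U_add hG h1 h2 h1' h2' j j')
  · rw [cast_eq_iff' hp.2 hp'.2] at h
    exact ⟨rfl, U_inj hG h1 h2 h1' h2' j j' h⟩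

/-- all differences occur -/
theorem D_surj (hG : Good n k y) (hn : n = 6 * k + 1 ∨ n = 6 * k + 3) (d : ZMod n) (hd : d ≠ 0) :
    (∃ x, 1 ≤ x ∧ x ≤ k ∧ ∃ j e, d = sg n e * (U y x j : ZMod n)) ∨
      (n = 6 * k + 3 ∧ (d = ((2 * k + 1 : ℕ) : ZMod n) ∨ d = -((2 * k + 1 : ℕ) : ZMod n))) := by
  classical
  let T : Finset (ℕ × Fin 3 × Bool) := (Finset.Icc 1 k) ×ˢ (Finset.univ ×ˢ Finset.univ)
  let f : ℕ × Fin 3 × Bool → ZMod n := fun a => sg n a.2.2 * (U y a.1 a.2.1 : ZMod n)
  have hf : Set.InjOn f (T : Set (ℕ × Fin 3 × Bool)) := by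
    rintro ⟨x, j, e⟩ ha ⟨x', j', e'⟩ ha' h
    simp only [T, Finset.coe_product, Set.mem_prod, Finset.mem_coe, Finset.mem_Icc] at ha ha'
    obtain ⟨r1, r2, r3⟩ := D_inj hG ha.1.1 ha.1.2 ha'.1.1 ha'.1.2 j j' e e' h
    rw [r1, r2, r3]
  have hcard : (T.image f).card = 6 * k := by
    rw [Finset.card_image_of_injOn hf]
    simp [T]
    ring
  have hmem : ∀ c, c ∈ T.image f → (∃ x, 1 ≤ x ∧ x ≤ k ∧ ∃ j e, c = sg n e * (U y x j : ZMod n)) := by
    intro c hc
    rw [Finset.mem_image] at hc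
    obtain ⟨⟨x, j, e⟩, ha, rfl⟩ := hc
    simp only [T, Finset.mem_product, Finset.mem_Icc] at ha
    exact ⟨x, ha.1.1, ha.1.2, j, e, rfl⟩
  rcases hn with hn | hn
  · left
    have hsub : T.image f ⊆ Finset.univ.erase 0 := by
      intro c hc
      obtain ⟨x, h1, h2, j, e, rfl⟩ := hmem c hc
      exact Finset.mem_erase.2 ⟨D_ne_zero hG h1 h2 j e, Finset.mem_univ _⟩
    have heq : T.image f = Finset.univ.erase 0 := by
      apply Finset.eq_of_subset_of_card_le hsub
      rw [hcard, Finset.card_erase_of_mem (Finset.mem_univ _), Finset.card_univ, ZMod.card]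
      omega
    exact hmem d (by rw [heq]; exact Finset.mem_erase.2 ⟨hd, Finset.mem_univ _⟩)
  · by_cases hd' : d = ((2 * k + 1 : ℕ) : ZMod n) ∨ d = -((2 * k + 1 : ℕ) : ZMod n)
    · exact Or.inr ⟨hn, hd'⟩
    · left
      push Not at hd'
      set h : ZMod n := ((2 * k + 1 : ℕ) : ZMod n) with hh
      have h0 : h ≠ 0 := by
        intro h'
        rw [hh, ZMod.natCast_eq_zero_iff] at h'
        exact absurd (Nat.le_of_dvd (by omega) h') (by omega)
      have hneg : -h = ((4 * k + 2 : ℕ) : ZMod n) := by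
        rw [neg_eq_iff_add_eq_zero, hh, ← Nat.cast_add]
        have : (2 * k + 1 + (4 * k + 2) : ℕ) = n := by omega
        rw [this]; simp
      have hhn : h ≠ -h := by
        rw [hneg, hh]
        intro h'
        rw [cast_eq_iff' (by omega) (by omega)] at h'
        omega
      have hsub : T.image f ⊆ ((Finset.univ.erase 0).erase h).erase (-h) := by
        intro c hc
        obtain ⟨x, h1, h2, j, e, rfl⟩ := hmem c hc
        have hp := U_pos hG h1 h2 j
        have hne := U_ne hG hn h1 h2 j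
        have e1 : (U y x j : ZMod n) ≠ h := by
          intro h'
          rw [hh, cast_eq_iff' hp.2 (by omega)] at h'
          exact hne.1 h'
        have e2 : (U y x j : ZMod n) ≠ -h := by
          intro h'
          rw [hneg, cast_eq_iff' hp.2 (by omega)] at h'
          exact hne.2 h'
        simp only [Finset.mem_erase, Finset.mem_univ, and_true]
        refine ⟨?_, ?_, D_ne_zero hG h1 h2 j e⟩
        · cases e
          · simp only [sg, Bool.false_eq_true, if_false, neg_one_mul]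
            intro h'; exact e1 (neg_injective h')
          · simp only [sg, if_true, one_mul]; exact e2
        · cases e
          · simp only [sg, Bool.false_eq_true, if_false, neg_one_mul]
            intro h'; exact e2 (by rw [← h', neg_neg])
          · simp only [sg, if_true, one_mul]; exact e1
      have heq : T.image f = ((Finset.univ.erase 0).erase h).erase (-h) := by
        apply Finset.eq_of_subset_of_card_le hsub
        rw [hcard, Finset.card_erase_of_mem, Finset.card_erase_of_mem,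
          Finset.card_erase_of_mem (Finset.mem_univ _), Finset.card_univ, ZMod.card]
        · omega
        · simp [h0]
        · simp [h0, Ne.symm hhn]
      exact hmem d (by rw [heq]; simp [hd, hd'.1, hd'.2])

/-- sign of `x` with respect to `A`. -/
def sA (n : ℕ) (A : Finset ℕ) (x : ℕ) : ZMod n := sg n (decide (x ∈ A))

def blk (n : ℕ) (y : ℕ → ℕ) (A : Finset ℕ) (x : ℕ) (t : ZMod n) : Finset (ZMod n) :=
  {t, t + sA n A x * x, t + sA n A x * ((x + y x : ℕ) : ZMod n)}

/-- offset -/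
def off (n : ℕ) (y : ℕ → ℕ) (A : Finset ℕ) (x : ℕ) : Bool → Fin 3 → ZMod n
  | true, 0 => 0
  | false, 0 => sA n A x * x
  | true, 1 => sA n A x * x
  | false, 1 => sA n A x * ((x + y x : ℕ) : ZMod n)
  | true, 2 => 0
  | false, 2 => sA n A x * ((x + y x : ℕ) : ZMod n)

theorem blk_data (A : Finset ℕ) (x : ℕ) (t X Y : ZMod n) (hX : X ∈ blk n y A x t)
    (hY : Y ∈ blk n y A x t) (hXY : X ≠ Y) :
    ∃ e j, Y - X = sg n e * (sA n A x * (U y x j : ZMod n)) ∧ t = X - off n y A x e j := by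
  simp only [blk, Finset.mem_insert, Finset.mem_singleton] at hX hY
  rcases hX with rfl | rfl | rfl <;> rcases hY with rfl | rfl | rfl
  · exact absurd rfl hXY
  · exact ⟨true, 0, by simp [sg, U], by simp [off]⟩
  · exact ⟨true, 2, by simp [sg, U], by simp [off]⟩
  · exact ⟨false, 0, by simp [sg, U], by simp [off]⟩
  · exact absurd rfl hXY
  · exact ⟨true, 1, by simp [sg, U]; ring, by simp [off]⟩
  · exact ⟨false, 2, by simp [sg, U], by simp [off]⟩
  · exact ⟨false, 1, by simp [sg, U]; ring, by simp [off]⟩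
  · exact absurd rfl hXY

theorem blk_of_data (A : Finset ℕ) (x : ℕ) (X Y : ZMod n) (e : Bool) (j : Fin 3)
    (h : Y - X = sg n e * (sA n A x * (U y x j : ZMod n))) :
    X ∈ blk n y A x (X - off n y A x e j) ∧ Y ∈ blk n y A x (X - off n y A x e j) := by
  have hY : Y = X + sg n e * (sA n A x * (U y x j : ZMod n)) := by rw [← h]; ring
  simp only [blk, Finset.mem_insert, Finset.mem_singleton]
  rw [hY]
  cases e <;> fin_cases j <;> simp [off, sg, U] <;> ring_nf <;> simp

theorem sg_mul (a b : Bool) : sg n a * sg n b = sg n (a == b) := by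
  cases a <;> cases b <;> simp [sg]

/-- the hard part of the uniqueness -/
theorem blk_unique (hG : Good n k y) (A : Finset ℕ) {x x' : ℕ} (h1 : 1 ≤ x) (h2 : x ≤ k)
    (h1' : 1 ≤ x') (h2' : x' ≤ k) (t t' X Y : ZMod n) (hX : X ∈ blk n y A x t)
    (hY : Y ∈ blk n y A x t) (hX' : X ∈ blk n y A x' t') (hY' : Y ∈ blk n y A x' t')
    (hXY : X ≠ Y) : x = x' ∧ t = t' := by
  obtain ⟨e, j, h, ht⟩ := blk_data A x t X Y hX hY hXY
  obtain ⟨e', j', h', ht'⟩ := blk_data A x' t' X Y hX' hY' hXY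
  rw [h, sA, sA, ← mul_assoc, ← mul_assoc, sg_mul, sg_mul] at h'
  obtain ⟨r1, r2, r3⟩ := D_inj hG h1 h2 h1' h2' j j' _ _ h'
  subst r2
  subst r3
  have : e = e' := by
    revert r1
    cases e <;> cases e' <;> cases (decide (x ∈ A)) <;> simp
  subst this
  exact ⟨rfl, by rw [ht, ht']⟩

def sblk (n k : ℕ) (t : ZMod n) : Finset (ZMod n) :=
  {t, t + ((2 * k + 1 : ℕ) : ZMod n), t - ((2 * k + 1 : ℕ) : ZMod n)}

/-- the cyclic STS -/
def Sys (n k : ℕ) [NeZero n] (y : ℕ → ℕ) (A : Finset ℕ) : Finset (Finset (ZMod n)) :=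
  ((Finset.Icc 1 k) ×ˢ (Finset.univ : Finset (ZMod n))).image (fun a => blk n y A a.1 a.2) ∪
    (if n = 6 * k + 3 then Finset.univ.image (sblk n k) else ∅)

theorem mem_Sys (A : Finset ℕ) (b : Finset (ZMod n)) : b ∈ Sys n k y A ↔
    (∃ x, 1 ≤ x ∧ x ≤ k ∧ ∃ t, b = blk n y A x t) ∨ (n = 6 * k + 3 ∧ ∃ t, b = sblk n k t) := by
  unfold Sys
  rw [Finset.mem_union, Finset.mem_image]
  constructor
  · rintro (⟨⟨x, t⟩, h, rfl⟩ | h)
    · simp only [Finset.mem_product, Finset.mem_Icc] at h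
      exact Or.inl ⟨x, h.1.1, h.1.2, t, rfl⟩
    · split_ifs at h with hn
      · rw [Finset.mem_image] at h
        obtain ⟨t, -, rfl⟩ := h
        exact Or.inr ⟨hn, t, rfl⟩
      · simp at h
  · rintro (⟨x, h1, h2, t, rfl⟩ | ⟨hn, t, rfl⟩)
    · left
      exact ⟨(x, t), by simp [h1, h2], rfl⟩
    · right
      rw [if_pos hn]
      exact Finset.mem_image_of_mem _ (Finset.mem_univ _)

theorem three_h (hn : n = 6 * k + 3) :
    ((2 * k + 1 : ℕ) : ZMod n) + ((2 * k + 1 : ℕ) : ZMod n) = -((2 * k + 1 : ℕ) : ZMod n) := by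
  rw [eq_neg_iff_add_eq_zero, ← Nat.cast_add, ← Nat.cast_add]
  have : (2 * k + 1 + (2 * k + 1) + (2 * k + 1) : ℕ) = n := by omega
  rw [this]; simp

theorem h_ne_zero (hn : n = 6 * k + 3) : ((2 * k + 1 : ℕ) : ZMod n) ≠ 0 := by
  intro h'
  rw [ZMod.natCast_eq_zero_iff] at h'
  exact absurd (Nat.le_of_dvd (by omega) h') (by omega)

/-- differences of a short block; and it is determined by any of its points -/
theorem sblk_data (hn : n = 6 * k + 3) (t X Y : ZMod n) (hX : X ∈ sblk n k t)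
    (hY : Y ∈ sblk n k t) (hXY : X ≠ Y) :
    (Y - X = ((2 * k + 1 : ℕ) : ZMod n) ∨ Y - X = -((2 * k + 1 : ℕ) : ZMod n)) ∧
      sblk n k t = sblk n k X := by
  have h3 := three_h (n := n) (k := k) hn
  set h : ZMod n := ((2 * k + 1 : ℕ) : ZMod n) with hh
  have h3' : h = - h - h := by rw [← h3]; ring
  simp only [sblk, Finset.mem_insert, Finset.mem_singleton, ← hh] at hX hY ⊢
  rcases hX with rfl | rfl | rfl
  · refine ⟨?_, rfl⟩
    rcases hY with rfl | rfl | rfl
    · exact absurd rfl hXY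
    · left; ring
    · right; ring
  · refine ⟨?_, ?_⟩
    · rcases hY with rfl | rfl | rfl
      · right; ring
      · exact absurd rfl hXY
      · left; linear_combination -h3
    · have e1 : t + h + h = t - h := by rw [add_assoc, h3]; ring
      have e2 : t + h - h = t := by ring
      rw [e1, e2]
      ext z; simp only [Finset.mem_insert, Finset.mem_singleton]; tauto
  · refine ⟨?_, ?_⟩
    · rcases hY with rfl | rfl | rfl
      · left; ring
      · right; linear_combination h3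
      · exact absurd rfl hXY
    · have e1 : t - h + h = t := by ring
      have e2 : t - h - h = t + h := by linear_combination -h3
      rw [e1, e2]
      ext z; simp only [Finset.mem_insert, Finset.mem_singleton]; tauto

/-- a long block has no difference `± h` -/
theorem D_ne_h (hG : Good n k y) (hn : n = 6 * k + 3) {x : ℕ} (h1 : 1 ≤ x) (h2 : x ≤ k) (j : Fin 3)
    (e : Bool) : sg n e * (U y x j : ZMod n) ≠ ((2 * k + 1 : ℕ) : ZMod n) ∧
      sg n e * (U y x j : ZMod n) ≠ -((2 * k + 1 : ℕ) : ZMod n) := by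
  set h : ZMod n := ((2 * k + 1 : ℕ) : ZMod n) with hh
  have hneg : -h = ((4 * k + 2 : ℕ) : ZMod n) := by
    rw [neg_eq_iff_add_eq_zero, hh, ← Nat.cast_add]
    have : (2 * k + 1 + (4 * k + 2) : ℕ) = n := by omega
    rw [this]; simp
  have hp := U_pos hG h1 h2 j
  have hne := U_ne hG hn h1 h2 j
  have e1 : (U y x j : ZMod n) ≠ h := by
    intro h'
    rw [hh, cast_eq_iff' hp.2 (by omega)] at h'
    exact hne.1 h'
  have e2 : (U y x j : ZMod n) ≠ -h := by
    intro h'
    rw [hneg, cast_eq_iff' hp.2 (by omega)] at h'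
    exact hne.2 h'
  cases e
  · simp only [sg, Bool.false_eq_true, if_false, neg_one_mul]
    exact ⟨fun h' => e2 (by rw [← h', neg_neg]), fun h' => e1 (neg_injective h')⟩
  · simp only [sg, if_true, one_mul]; exact ⟨e1, e2⟩

theorem blk_card (hG : Good n k y) (A : Finset ℕ) {x : ℕ} (h1 : 1 ≤ x) (h2 : x ≤ k) (t : ZMod n) :
    (blk n y A x t).card = 3 := by
  have e0 := D_ne_zero hG h1 h2 0 (decide (x ∈ A))
  have e1 := D_ne_zero hG h1 h2 1 (decide (x ∈ A))
  have e2 := D_ne_zero hG h1 h2 2 (decide (x ∈ A))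
  simp only [U] at e0 e1 e2
  rw [Finset.card_eq_three]
  refine ⟨t, t + sA n A x * x, t + sA n A x * ((x + y x : ℕ) : ZMod n), ?_, ?_, ?_, rfl⟩
  · intro h; apply e0
    have : sA n A x * (x : ZMod n) = 0 := by linear_combination -h
    exact this
  · intro h; apply e2
    have : sA n A x * ((x + y x : ℕ) : ZMod n) = 0 := by linear_combination -h
    exact this
  · intro h; apply e1
    have : sA n A x * (y x : ZMod n) = 0 := by push_cast at h; linear_combination -h
    exact this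

theorem Sys_sts (hG : Good n k y) (hn : n = 6 * k + 1 ∨ n = 6 * k + 3) (A : Finset ℕ) :
    IsSTS (Sys n k y A) := by
  constructor
  · intro b hb
    rw [mem_Sys] at hb
    rcases hb with ⟨x, h1, h2, t, rfl⟩ | ⟨hn, t, rfl⟩
    · exact blk_card hG A h1 h2 t
    · rw [Finset.card_eq_three]
      have h0 := h_ne_zero (n := n) (k := k) hn
      have h3 := three_h (n := n) (k := k) hn
      refine ⟨t, _, _, ?_, ?_, ?_, rfl⟩
      · intro h; exact h0 (by linear_combination -h)
      · intro h; exact h0 (by linear_combination h)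
      · intro h; apply h0; linear_combination (-1) * h + h3
  · intro X Y hXY
    have hd : Y - X ≠ 0 := sub_ne_zero.2 (Ne.symm hXY)
    rcases D_surj hG hn (Y - X) hd with ⟨x, h1, h2, j, e, h⟩ | ⟨hn3, h⟩
    · -- long block
      have hs : Y - X = sg n (e == decide (x ∈ A)) * (sA n A x * (U y x j : ZMod n)) := by
        rw [h, sA, ← mul_assoc, sg_mul]
        congr 2
        cases e <;> cases (decide (x ∈ A)) <;> rfl
      obtain ⟨m1, m2⟩ := blk_of_data A x X Y _ j hs
      refine ⟨_, ⟨(mem_Sys A _).2 (Or.inl ⟨x, h1, h2, _, rfl⟩), m1, m2⟩, ?_⟩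
      rintro c ⟨hc, hXc, hYc⟩
      rw [mem_Sys] at hc
      rcases hc with ⟨x', h1', h2', t', rfl⟩ | ⟨hn3, t', rfl⟩
      · obtain ⟨r1, r2⟩ := blk_unique hG A h1' h2' h1 h2 _ _ X Y hXc hYc m1 m2 hXY
        rw [r1, r2]
      · exfalso
        obtain ⟨r, -⟩ := sblk_data hn3 t' X Y hXc hYc hXY
        rw [h] at r
        have := D_ne_h hG hn3 h1 h2 j e
        rcases r with r | r
        · exact this.1 r
        · exact this.2 r
    · have h3 := three_h (n := n) (k := k) hn3
      refine ⟨sblk n k X, ⟨(mem_Sys A _).2 (Or.inr ⟨hn3, X, rfl⟩), by simp [sblk], ?_⟩, ?_⟩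
      · simp only [sblk, Finset.mem_insert, Finset.mem_singleton]
        rcases h with h | h
        · right; left; rw [← h]; ring
        · right; right; linear_combination h
      · rintro c ⟨hc, hXc, hYc⟩
        rw [mem_Sys] at hc
        rcases hc with ⟨x', h1', h2', t', rfl⟩ | ⟨hn3, t', rfl⟩
        · exfalso
          obtain ⟨e, j, r, -⟩ := blk_data A x' t' X Y hXc hYc hXY
          rw [sA, ← mul_assoc, sg_mul] at r
          have := D_ne_h hG hn3 h1' h2' j (e == decide (x' ∈ A))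
          rw [← r] at this
          rcases h with h | h
          · exact this.1 h
          · exact this.2 h
        · exact (sblk_data hn3 t' X Y hXc hYc hXY).2

theorem Sys_cyc (A : Finset ℕ) : Cyc (Sys n k y A) := by
  intro b hb
  rw [mem_Sys] at hb ⊢
  rcases hb with ⟨x, h1, h2, t, rfl⟩ | ⟨hn, t, rfl⟩
  · left
    refine ⟨x, h1, h2, t + 1, ?_⟩
    simp only [blk, Finset.image_insert, Finset.image_singleton]
    congr 1
    congr 1
    · ring
    · congr 1; ring
  · right
    refine ⟨hn, t + 1, ?_⟩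
    simp only [sblk, Finset.image_insert, Finset.image_singleton]
    congr 1
    congr 1
    · ring
    · congr 1; ring

theorem Sys_sub (hG : Good n k y) (hn : n = 6 * k + 1 ∨ n = 6 * k + 3) {A A' : Finset ℕ} {x : ℕ}
    (h1 : 1 ≤ x) (h2 : x ≤ k) (hx : x ∈ A) (hx' : x ∉ A') : Sys n k y A ≠ Sys n k y A' := by
  intro hEq
  have m1 : blk n y A x 0 ∈ Sys n k y A' := by
    rw [← hEq]; exact (mem_Sys A _).2 (Or.inl ⟨x, h1, h2, 0, rfl⟩)
  have m2 : blk n y A' x (x : ZMod n) ∈ Sys n k y A' :=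
    (mem_Sys A' _).2 (Or.inl ⟨x, h1, h2, _, rfl⟩)
  have e0 := D_ne_zero hG h1 h2 0 true
  have e1 := D_ne_zero hG h1 h2 1 true
  have e2 := D_ne_zero hG h1 h2 2 true
  have e3 : ¬ (sg n false * (U y x 1 : ZMod n) = sg n true * (U y x 2 : ZMod n)) := by
    intro h
    have := (D_inj hG h1 h2 h1 h2 1 2 false true h).1
    exact absurd this (by decide)
  simp only [U, sg, if_true, one_mul, Bool.false_eq_true, if_false, neg_one_mul] at e0 e1 e2 e3
  have hs : sA n A x = 1 := by simp [sA, sg, hx]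
  have hs' : sA n A' x = -1 := by simp [sA, sg, hx']
  have heq : blk n y A x 0 = blk n y A' x (x : ZMod n) := by
    apply uniq (Sys_sts hG hn A') (x := 0) (y := (x : ZMod n)) (Ne.symm e0) m1 m2
    · simp [blk]
    · simp [blk, hs]
    · simp [blk, hs']
    · simp [blk]
  have : -(y x : ZMod n) ∈ blk n y A x 0 := by
    rw [heq]; simp [blk, hs']
  simp only [blk, hs, Finset.mem_insert, Finset.mem_singleton, one_mul, zero_add] at this
  rcases this with h | h | h
  · exact e1 (neg_eq_zero.1 h)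
  · apply e2; push_cast; rw [← h]; ring
  · exact e3 h

theorem Sys_inj (hG : Good n k y) (hn : n = 6 * k + 1 ∨ n = 6 * k + 3) :
    Function.Injective (fun A : {A : Finset ℕ // A ⊆ Finset.Icc 1 k} => Sys n k y A.1) := by
  rintro ⟨A, hA⟩ ⟨A', hA'⟩ h
  simp only [Subtype.mk.injEq] at h ⊢
  ext x
  constructor
  · intro hx
    by_contra hx'
    have := Finset.mem_Icc.1 (hA hx)
    exact Sys_sub hG hn this.1 this.2 hx hx' h
  · intro hx
    by_contra hx'
    have := Finset.mem_Icc.1 (hA' hx)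
    exact Sys_sub hG hn this.1 this.2 hx hx' h.symm

end Pool.Agent.V11287.PT
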