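import Mathlib

open Polynomial Filter Topology Set

namespace Pool.Agent.V11287.BF

noncomputable section

/-- `P` has the real multiset of roots `s` (with leading coefficient `c ≠ 0`). -/
def Rep (P : ℂ[X]) (s : Multiset ℝ) : Prop :=
  ∃ c : ℂ, c ≠ 0 ∧ P = C c * (s.map fun w : ℝ => (X - C (w : ℂ))).prod

/-- real-rooted or zero -/
def RR (P : ℂ[X]) : Prop := P = 0 ∨ ∃ s, Rep P s

lemma rep_of_roots_real {P : ℂ[X]} (hP : P ≠ 0) (h : ∀ z : ℂ, P.eval z = 0 → z.im = 0) :
    ∃ s, Rep P s := by
  refine ⟨P.roots.map Complex.re, P.leadingCoeff, leadingCoeff_ne_zero.mpr hP, ?_⟩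
  rw [Multiset.map_map]
  have h1 : P.roots.map ((fun w : ℝ => (X - C (w : ℂ))) ∘ Complex.re) =
      P.roots.map (fun z => X - C z) := by
    apply Multiset.map_congr rfl
    intro z hz
    have hz' := h z ((mem_roots hP).mp hz)
    simp only [Function.comp]
    congr 2
    apply Complex.ext <;> simp [hz']
  rw [h1]
  exact (IsAlgClosed.splits P).eq_prod_roots

lemma Rep.eval_eq {P : ℂ[X]} {s : Multiset ℝ} (h : Rep P s) :
    ∃ c : ℂ, c ≠ 0 ∧ ∀ z, P.eval z = c * (s.map fun w : ℝ => (z - (w : ℂ))).prod := by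
  obtain ⟨c, hc, hP⟩ := h
  refine ⟨c, hc, fun z => ?_⟩
  rw [hP, eval_mul, eval_C, eval_multiset_prod, Multiset.map_map]
  simp [Function.comp_def]

lemma Rep.eval_ne {P : ℂ[X]} {s : Multiset ℝ} (h : Rep P s) {z : ℂ} (hz : z.im ≠ 0) :
    P.eval z ≠ 0 := by
  obtain ⟨c, hc, hP⟩ := h.eval_eq
  rw [hP]
  apply mul_ne_zero hc
  apply Multiset.prod_ne_zero
  rw [Multiset.mem_map]
  rintro ⟨w, -, hw⟩
  apply hz
  have := congrArg Complex.im hw
  simpa using this

lemma Rep.root_mem {P : ℂ[X]} {s : Multiset ℝ} (h : Rep P s) {x : ℝ} (hx : x ∈ s) :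
    P.eval (x : ℂ) = 0 := by
  obtain ⟨c, hc, hP⟩ := h.eval_eq
  rw [hP]
  have : (0:ℂ) ∈ s.map fun w : ℝ => ((x : ℂ) - (w : ℂ)) := by
    rw [Multiset.mem_map]
    exact ⟨x, hx, by simp⟩
  rw [Multiset.prod_eq_zero this, mul_zero]

lemma Rep.mem_of_root {P : ℂ[X]} {s : Multiset ℝ} (h : Rep P s) {x : ℝ}
    (hx : P.eval (x : ℂ) = 0) : x ∈ s := by
  obtain ⟨c, hc, hP⟩ := h.eval_eq
  rw [hP, mul_eq_zero] at hx
  rcases hx with hx | hx
  · exact absurd hx hc
  · rw [Multiset.prod_eq_zero_iff, Multiset.mem_map] at hx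
    obtain ⟨w, hw, hwx⟩ := hx
    have : (x : ℂ) = w := sub_eq_zero.mp hwx
    have : x = w := by exact_mod_cast this
    rwa [this]

/-- logarithmic derivative -/
lemma Rep.deriv_eq {P : ℂ[X]} {s : Multiset ℝ} (h : Rep P s) {z : ℂ} (hz : P.eval z ≠ 0) :
    (derivative P).eval z = P.eval z * (s.map fun w : ℝ => 1 / (z - (w : ℂ))).sum := by
  obtain ⟨c, hc, rfl⟩ := h
  revert hz
  induction s using Multiset.induction_on with
  | empty => simp
  | cons a s ih =>
    intro hz
    simp only [Multiset.map_cons, Multiset.prod_cons, Multiset.sum_cons] at hz ⊢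
    have e : C c * ((X - C (a : ℂ)) * (s.map fun w : ℝ => (X - C (w : ℂ))).prod) =
        (X - C (a : ℂ)) * (C c * (s.map fun w : ℝ => (X - C (w : ℂ))).prod) := by ring
    rw [e] at hz ⊢
    set R := C c * (s.map fun w : ℝ => (X - C (w : ℂ))).prod with hR
    rw [eval_mul] at hz
    have h1 : (X - C (a : ℂ)).eval z ≠ 0 := left_ne_zero_of_mul hz
    have h2 : R.eval z ≠ 0 := right_ne_zero_of_mul hz
    rw [derivative_mul, eval_add, eval_mul (p := X - C (a : ℂ)) (q := derivative R), ih h2,
      eval_mul (p := derivative (X - C (a : ℂ))) (q := R), eval_mul (p := X - C (a : ℂ)) (q := R)]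
    simp only [derivative_sub, derivative_X, derivative_C, sub_zero, eval_one, eval_sub, eval_X,
      eval_C] at h1 ⊢
    field_simp

/-- `(P')² - P P'' = P² ∑ 1/(x-w)²`. -/
lemma Rep.laguerre_eq {P : ℂ[X]} {s : Multiset ℝ} (h : Rep P s) {z : ℂ} (hz : P.eval z ≠ 0) :
    (derivative P).eval z ^ 2 - P.eval z * (derivative (derivative P)).eval z =
      P.eval z ^ 2 * (s.map fun w : ℝ => 1 / (z - (w : ℂ)) ^ 2).sum := by
  obtain ⟨c, hc, rfl⟩ := h
  revert hz
  induction s using Multiset.induction_on with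
  | empty => simp
  | cons a s ih =>
    intro hz
    simp only [Multiset.map_cons, Multiset.prod_cons, Multiset.sum_cons] at hz ⊢
    have e : C c * ((X - C (a : ℂ)) * (s.map fun w : ℝ => (X - C (w : ℂ))).prod) =
        (X - C (a : ℂ)) * (C c * (s.map fun w : ℝ => (X - C (w : ℂ))).prod) := by ring
    rw [e] at hz ⊢
    set R := C c * (s.map fun w : ℝ => (X - C (w : ℂ))).prod with hR
    rw [eval_mul] at hz
    have h1 : (X - C (a : ℂ)).eval z ≠ 0 := left_ne_zero_of_mul hz
    have h2 : R.eval z ≠ 0 := right_ne_zero_of_mul hz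
    have ih' := ih h2
    simp only [derivative_mul, derivative_add, derivative_sub, derivative_X, derivative_C,
      sub_zero, eval_add, eval_mul, eval_one, eval_sub, eval_X, eval_C, one_mul,
      derivative_one, zero_mul, zero_add, eval_zero, zero_sub, neg_zero, eval_neg] at h1 ih' ⊢
    have key : (R.eval z + (z - a) * (derivative R).eval z) ^ 2 - (z - a) * R.eval z *
        ((derivative R).eval z + ((derivative R).eval z + (z - a) * (derivative (derivative R)).eval z))
        = R.eval z ^ 2 + (z - a) ^ 2 * ((derivative R).eval z ^ 2 - R.eval z *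
          (derivative (derivative R)).eval z) := by ring
    rw [key, ih']
    field_simp

lemma im_div (z : ℂ) (w : ℝ) : (z / (z - w)).im = -w * z.im / Complex.normSq (z - w) := by
  rw [Complex.div_im]
  simp only [Complex.sub_re, Complex.ofReal_re, Complex.sub_im, Complex.ofReal_im, sub_zero]
  ring

lemma im_multiset_sum (s : Multiset ℂ) : s.sum.im = (s.map Complex.im).sum := by
  induction s using Multiset.induction_on with
  | empty => simp
  | cons a s ih => simp [ih]

/-- the operator `2θ + a` -/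
def op (a : ℝ) (P : ℂ[X]) : ℂ[X] := 2 * X * derivative P + C (a : ℂ) * P

lemma coeff_op (a : ℝ) (P : ℂ[X]) (m : ℕ) : (op a P).coeff m = (2 * m + a) * P.coeff m := by
  unfold op
  rw [coeff_add, coeff_C_mul]
  have e : (2 : ℂ[X]) * X * derivative P = C 2 * (X * derivative P) := by
    rw [mul_assoc]; rfl
  rw [e, coeff_C_mul]
  cases m with
  | zero => simp
  | succ m =>
    rw [coeff_X_mul, coeff_derivative]
    push_cast
    ring

/-- value of `op a P` at a non-root -/
lemma Rep.op_eval {P : ℂ[X]} {s : Multiset ℝ} (h : Rep P s) (a : ℝ) {z : ℂ} (hz : P.eval z ≠ 0) :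
    (op a P).eval z = P.eval z * (2 * (s.map fun w : ℝ => z / (z - (w : ℂ))).sum + a) := by
  have e : (s.map fun w : ℝ => z / (z - (w : ℂ))).sum =
      z * (s.map fun w : ℝ => 1 / (z - (w : ℂ))).sum := by
    rw [← Multiset.sum_map_mul_left]
    congr 1
    apply Multiset.map_congr rfl
    intro w _
    ring
  unfold op
  simp only [eval_add, eval_mul, eval_ofNat, eval_X, eval_C]
  rw [h.deriv_eq hz, e]
  ring

/-- If all roots are negative then `op a P` is real rooted. -/
lemma Rep.op_real {P : ℂ[X]} {s : Multiset ℝ} (h : Rep P s) (hs : ∀ w ∈ s, w < 0)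
    (hs0 : s ≠ 0) (a : ℝ) (z : ℂ) (hz : (op a P).eval z = 0) : z.im = 0 := by
  by_contra him
  have hPz := h.eval_ne him
  rw [h.op_eval a hPz] at hz
  have h1 := (mul_eq_zero.mp hz).resolve_left hPz
  have h2 := congrArg Complex.im h1
  have h3 : ((2 * (s.map fun w : ℝ => z / (z - (w : ℂ))).sum + a : ℂ)).im =
      2 * (s.map fun w : ℝ => (-w) / Complex.normSq (z - w)).sum * z.im := by
    rw [Complex.add_im, Complex.ofReal_im, add_zero]
    have : ((2 : ℂ) * (s.map fun w : ℝ => z / (z - (w : ℂ))).sum).im =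
        2 * ((s.map fun w : ℝ => z / (z - (w : ℂ))).sum).im := by
      simp [Complex.mul_im]
    have e2 : (s.map (Complex.im ∘ fun w : ℝ => z / (z - (w : ℂ)))).sum =
        (s.map fun w : ℝ => (-w) / Complex.normSq (z - w)).sum * z.im := by
      rw [← Multiset.sum_map_mul_right]
      congr 1
      apply Multiset.map_congr rfl
      intro w _
      simp only [Function.comp]
      rw [im_div]
      ring
    rw [this, im_multiset_sum, Multiset.map_map, e2]
    ring
  rw [h3] at h2
  simp only [Complex.zero_im] at h2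
  have h4 : 0 < (s.map fun w : ℝ => (-w) / Complex.normSq (z - w)).sum := by
    obtain ⟨w, hw⟩ := Multiset.exists_mem_of_ne_zero hs0
    obtain ⟨t, rfl⟩ := Multiset.exists_cons_of_mem hw
    rw [Multiset.map_cons, Multiset.sum_cons]
    have hpos : ∀ w : ℝ, w < 0 → 0 < (-w) / Complex.normSq (z - w) := by
      intro w hw
      apply div_pos (by linarith)
      rw [Complex.normSq_pos]
      intro h0
      apply him
      have := congrArg Complex.im h0
      simpa using this
    have h5 := hpos w (hs w (Multiset.mem_cons_self w t))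
    have h6 : 0 ≤ (t.map fun w : ℝ => (-w) / Complex.normSq (z - w)).sum := by
      apply Multiset.sum_nonneg
      intro y hy
      rw [Multiset.mem_map] at hy
      obtain ⟨w', hw', rfl⟩ := hy
      exact (hpos w' (hs w' (Multiset.mem_cons_of_mem hw'))).le
    linarith
  rcases mul_eq_zero.mp h2 with h5 | h5
  · linarith
  · exact him h5

end

end Pool.Agent.V11287.BF
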