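import Pool.Agent.V11287.BF1

open Polynomial Filter Topology Set

namespace Pool.Agent.V11287.BF

noncomputable section

lemma Rep.derivative_real {P : ℂ[X]} {s : Multiset ℝ} (h : Rep P s) (hs0 : s ≠ 0) (z : ℂ)
    (hz : (derivative P).eval z = 0) : z.im = 0 := by
  by_contra him
  have hPz := h.eval_ne him
  rw [h.deriv_eq hPz] at hz
  have h1 := (mul_eq_zero.mp hz).resolve_left hPz
  have h2 := congrArg Complex.im h1
  rw [im_multiset_sum, Multiset.map_map] at h2
  have e2 : (s.map (Complex.im ∘ fun w : ℝ => 1 / (z - (w : ℂ)))).sum =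
      (s.map fun w : ℝ => 1 / Complex.normSq (z - w)).sum * (-z.im) := by
    rw [← Multiset.sum_map_mul_right]
    congr 1
    apply Multiset.map_congr rfl
    intro w _
    simp only [Function.comp]
    rw [Complex.div_im]
    simp
    ring
  rw [e2] at h2
  simp only [Complex.zero_im] at h2
  have hpos : ∀ w : ℝ, 0 < 1 / Complex.normSq (z - w) := by
    intro w
    apply one_div_pos.mpr
    rw [Complex.normSq_pos]
    intro h0
    apply him
    have := congrArg Complex.im h0
    simpa using this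
  have h4 : 0 < (s.map fun w : ℝ => 1 / Complex.normSq (z - w)).sum := by
    obtain ⟨w, hw⟩ := Multiset.exists_mem_of_ne_zero hs0
    obtain ⟨t, rfl⟩ := Multiset.exists_cons_of_mem hw
    rw [Multiset.map_cons, Multiset.sum_cons]
    have h5 := hpos w
    have h6 : 0 ≤ (t.map fun w : ℝ => 1 / Complex.normSq (z - w)).sum := by
      apply Multiset.sum_nonneg
      intro y hy
      rw [Multiset.mem_map] at hy
      obtain ⟨w', hw', rfl⟩ := hy
      exact (hpos w').le
    linarith
  rcases mul_eq_zero.mp h2 with h5 | h5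
  · linarith
  · exact him (by linarith)

lemma RR.derivative {P : ℂ[X]} (h : RR P) : RR (derivative P) := by
  rcases h with rfl | ⟨s, hs⟩
  · left; simp
  · by_cases h0 : Polynomial.derivative P = 0
    · left; exact h0
    · right
      by_cases hs0 : s = 0
      · exfalso
        apply h0
        obtain ⟨c, hc, rfl⟩ := hs
        rw [hs0]
        simp
      · exact rep_of_roots_real h0 (hs.derivative_real hs0)

/-- monotonicity in `|Im z|` -/
lemma RR.mono {P : ℂ[X]} (h : RR P) (x : ℝ) {y y' : ℝ} (hy : |y'| ≤ |y|) :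
    ‖P.eval (x + y' * Complex.I)‖ ≤ ‖P.eval (x + y * Complex.I)‖ := by
  rcases h with rfl | ⟨s, hs⟩
  · simp
  · obtain ⟨c, hc, hP⟩ := hs.eval_eq
    rw [hP, hP, norm_mul, norm_mul]
    apply mul_le_mul_of_nonneg_left _ (norm_nonneg _)
    clear hP hs
    induction s using Multiset.induction_on with
    | empty => simp
    | cons a s ih =>
      simp only [Multiset.map_cons, Multiset.prod_cons, norm_mul]
      apply mul_le_mul _ ih (norm_nonneg _) (norm_nonneg _)
      have h1 : ∀ t : ℝ, ‖(x + t * Complex.I - a : ℂ)‖ = Real.sqrt ((x - a) ^ 2 + t ^ 2) := by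
        intro t
        rw [Complex.norm_def, Complex.normSq_apply]
        congr 1
        simp
        ring
      rw [h1, h1]
      apply Real.sqrt_le_sqrt
      have := sq_le_sq.mpr hy
      linarith

/-- Quantitative Laguerre inequality: at a real point `c`, in terms of the value at `0`. -/
lemma Rep.laguerre {P : ℂ[X]} {s : Multiset ℝ} (h : Rep P s) (h0 : P.eval 0 ≠ 0) (c S : ℝ)
    (hS : 0 < S) (hS0 : S = (s.map fun w : ℝ => 1 / w ^ 2).sum) (hPc : P.eval (c : ℂ) ≠ 0) :
    S / (1 + |c| * Real.sqrt S) ^ 2 ≤ (s.map fun w : ℝ => 1 / (c - w) ^ 2).sum := by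
  have hw0 : ∀ w ∈ s, w ≠ 0 := by
    rintro w hw rfl
    apply h0
    have := h.root_mem hw
    simpa using this
  have hwc : ∀ w ∈ s, c - w ≠ 0 := by
    intro w hw h1
    apply hPc
    have : c = w := by linarith
    rw [this]
    exact h.root_mem hw
  have hle : ∀ w ∈ s, 1 / w ^ 2 ≤ S := by
    intro w hw
    obtain ⟨t, rfl⟩ := Multiset.exists_cons_of_mem hw
    rw [hS0, Multiset.map_cons, Multiset.sum_cons]
    have h6 : 0 ≤ (t.map fun w : ℝ => 1 / w ^ 2).sum := by
      apply Multiset.sum_nonneg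
      intro y hy
      rw [Multiset.mem_map] at hy
      obtain ⟨w', hw', rfl⟩ := hy
      positivity
    linarith
  have key : ∀ w ∈ s, 1 / w ^ 2 * (1 / (1 + |c| * Real.sqrt S) ^ 2) ≤ 1 / (c - w) ^ 2 := by
    intro w hw
    have hwne := hw0 w hw
    have hcw := hwc w hw
    have h1 : 1 / |w| ≤ Real.sqrt S := by
      apply Real.le_sqrt_of_sq_le
      rw [div_pow, one_pow, sq_abs]
      exact hle w hw
    have hwpos : 0 < |w| := abs_pos.mpr hwne
    have h2 : |c - w| ≤ |w| * (1 + |c| * Real.sqrt S) := by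
      have h3 : |c - w| ≤ |c| + |w| := abs_sub _ _
      have h4 : 1 ≤ |w| * Real.sqrt S := by
        rw [div_le_iff₀ hwpos] at h1
        linarith
      have := abs_nonneg c
      nlinarith
    have h5 : (c - w) ^ 2 ≤ w ^ 2 * (1 + |c| * Real.sqrt S) ^ 2 := by
      rw [← mul_pow, ← sq_abs (c - w), ← sq_abs (w * _), abs_mul]
      have h6 : 0 ≤ 1 + |c| * Real.sqrt S := by positivity
      rw [abs_of_nonneg h6]
      exact pow_le_pow_left₀ (abs_nonneg _) h2 2
    have h7 : 0 < (c - w) ^ 2 := by positivity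
    rw [one_div_mul_one_div]
    exact one_div_le_one_div_of_le h7 h5
  have h8 : S / (1 + |c| * Real.sqrt S) ^ 2 =
      (s.map fun w : ℝ => 1 / w ^ 2 * (1 / (1 + |c| * Real.sqrt S) ^ 2)).sum := by
    rw [Multiset.sum_map_mul_right, ← hS0]
    ring
  rw [h8]
  exact Multiset.sum_map_le_sum_map _ _ key

/-- **Kernel lemma.** -/
lemma Rep.kernel {P : ℂ[X]} {s : Multiset ℝ} (h : Rep P s) (p₀ w₁ : ℝ) (hp₀ : 0 < p₀)
    (hs : ∀ w ∈ s, w < 0 ∨ w = p₀) (hw₁ : w₁ ∈ s) (hw₁neg : w₁ < 0) (a r : ℝ)
    (hPr : P.eval (r : ℂ) ≠ 0) (hr : (op a P).eval (r : ℂ) = 0)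
    (hD : (s.map fun w : ℝ => (-w) / (r - w) ^ 2).sum ≤ 0) (ξ : ℂ)
    (hξ : (op a P).eval ξ = 0) : ξ.im = 0 := by
  by_contra him
  have hPξ := h.eval_ne him
  rw [h.op_eval a hPξ] at hξ
  rw [h.op_eval a hPr] at hr
  have h1 := (mul_eq_zero.mp hξ).resolve_left hPξ
  have h2 := (mul_eq_zero.mp hr).resolve_left hPr
  have hneξ : ∀ w : ℝ, ξ - w ≠ 0 := by
    intro w h0
    apply him
    have := congrArg Complex.im h0
    simpa using this
  have hner : ∀ w ∈ s, (r : ℂ) - w ≠ 0 := by
    intro w hw h0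
    apply hPr
    have : (r : ℂ) = w := sub_eq_zero.mp h0
    rw [this]
    exact h.root_mem hw
  -- difference
  have h3 : (s.map fun w : ℝ => ((-w : ℝ) : ℂ) * (1 / (ξ - w) * (1 / (r - w)))).sum = 0 := by
    have e : (s.map fun w : ℝ => ξ / (ξ - w)).sum - (s.map fun w : ℝ => (r:ℂ) / (r - w)).sum =
        (s.map fun w : ℝ => ((-w : ℝ) : ℂ) * (1 / (ξ - w) * (1 / (r - w)))).sum * (ξ - r) := by
      rw [← Multiset.sum_map_sub, ← Multiset.sum_map_mul_right]
      congr 1
      apply Multiset.map_congr rfl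
      intro w hw
      have a1 := hneξ w
      have a2 := hner w hw
      push_cast
      field_simp
      ring
    have h4 : (s.map fun w : ℝ => ξ / (ξ - w)).sum - (s.map fun w : ℝ => (r:ℂ) / (r - w)).sum = 0 := by
      linear_combination (h1 - h2) / 2
    rw [h4] at e
    rcases mul_eq_zero.mp e.symm with h5 | h5
    · exact h5
    · exfalso
      exact hneξ r h5
  -- imaginary part
  have h5 : (s.map fun w : ℝ => (-w) * Complex.normSq (1 / (ξ - w))).sum = 0 := by
    have h2' := congrArg Complex.im h1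
    have e1 : ((2 : ℂ) * (s.map fun w : ℝ => ξ / (ξ - (w : ℂ))).sum + a).im =
        2 * ((s.map fun w : ℝ => (-w) * Complex.normSq (1 / (ξ - w))).sum * ξ.im) := by
      rw [Complex.add_im, Complex.ofReal_im, add_zero]
      have : ((2 : ℂ) * (s.map fun w : ℝ => ξ / (ξ - (w : ℂ))).sum).im =
          2 * ((s.map fun w : ℝ => ξ / (ξ - (w : ℂ))).sum).im := by
        simp [Complex.mul_im]
      rw [this, im_multiset_sum, Multiset.map_map, ← Multiset.sum_map_mul_right]
      congr 2
      apply Multiset.map_congr rfl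
      intro w _
      simp only [Function.comp]
      rw [im_div, Complex.normSq_div, map_one]
      ring
    rw [e1] at h2'
    simp only [Complex.zero_im] at h2'
    have h6 : (s.map fun w : ℝ => (-w) * Complex.normSq (1 / (ξ - w))).sum * ξ.im = 0 := by
      linarith
    exact (mul_eq_zero.mp h6).resolve_right him
  -- the combination
  set lam : ℂ := (r - p₀) / (ξ - p₀) with hlam
  have hcomb : ∀ t : Multiset ℝ,
      (t.map fun w : ℝ => (-w) * Complex.normSq (1 / (ξ - w) - lam * (1 / (r - w)))).sum =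
      (t.map fun w : ℝ => (-w) * Complex.normSq (1 / (ξ - w))).sum -
        2 * ((starRingEnd ℂ) lam * (t.map fun w : ℝ => ((-w : ℝ) : ℂ) *
          (1 / (ξ - w) * (1 / (r - w)))).sum).re +
        Complex.normSq lam * (t.map fun w : ℝ => (-w) / (r - w) ^ 2).sum := by
    intro t
    induction t using Multiset.induction_on with
    | empty => simp
    | cons w t ih =>
      simp only [Multiset.map_cons, Multiset.sum_cons]
      rw [ih]
      have hv : (1 / ((r:ℂ) - w)) = ((1 / (r - w) : ℝ) : ℂ) := by push_cast; rfl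
      rw [hv]
      set v : ℝ := 1 / (r - w) with hvdef
      set u : ℂ := 1 / (ξ - w)
      have e1 : (-w) / (r - w) ^ 2 = (-w) * v ^ 2 := by
        rw [hvdef, div_pow, one_pow, mul_one_div]
      rw [e1]
      simp only [Complex.normSq_apply, Complex.sub_re, Complex.sub_im, Complex.mul_re,
        Complex.mul_im, Complex.add_re, Complex.ofReal_re, Complex.ofReal_im, Complex.conj_re,
        Complex.conj_im, mul_add]
      ring
  have h7 := hcomb s
  rw [h5, h3] at h7
  simp only [mul_zero, Complex.zero_re, sub_zero, zero_add] at h7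
  have h8 : (s.map fun w : ℝ => (-w) * Complex.normSq (1 / (ξ - w) - lam * (1 / (r - w)))).sum ≤ 0 := by
    rw [h7]
    exact mul_nonpos_of_nonneg_of_nonpos (Complex.normSq_nonneg _) hD
  -- each term is nonnegative
  have hterm : ∀ w ∈ s, 0 ≤ (-w) * Complex.normSq (1 / (ξ - w) - lam * (1 / (r - w))) := by
    intro w hw
    rcases hs w hw with hneg | rfl
    · exact mul_nonneg (by linarith) (Complex.normSq_nonneg _)
    · have : 1 / (ξ - (w:ℂ)) - lam * (1 / (r - w)) = 0 := by
        rw [hlam]
        have a1 := hneξ w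
        have a2 := hner w hw
        field_simp
        ring
      rw [this]
      simp
  obtain ⟨t, rfl⟩ := Multiset.exists_cons_of_mem hw₁
  rw [Multiset.map_cons, Multiset.sum_cons] at h8
  have h9 : 0 ≤ (t.map fun w : ℝ => (-w) * Complex.normSq (1 / (ξ - w) - lam * (1 / (r - w)))).sum := by
    apply Multiset.sum_nonneg
    intro y hy
    rw [Multiset.mem_map] at hy
    obtain ⟨w', hw', rfl⟩ := hy
    exact hterm w' (Multiset.mem_cons_of_mem hw')
  have h10 := hterm w₁ (Multiset.mem_cons_self _ _)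
  have h11 : (-w₁) * Complex.normSq (1 / (ξ - w₁) - lam * (1 / (r - w₁))) = 0 := by linarith
  have h12 : 1 / (ξ - (w₁:ℂ)) - lam * (1 / (r - w₁)) = 0 := by
    rcases mul_eq_zero.mp h11 with h | h
    · linarith
    · exact Complex.normSq_eq_zero.mp h
  have a1 := hneξ w₁
  have a2 := hner w₁ (Multiset.mem_cons_self _ _)
  have a3 := hneξ p₀
  rw [hlam] at h12
  field_simp at h12
  have h13 : ((p₀ : ℂ) - w₁) * (ξ - r) = 0 := by linear_combination h12
  rcases mul_eq_zero.mp h13 with h14 | h14
  · have : (p₀ : ℂ) = w₁ := sub_eq_zero.mp h14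
    have : p₀ = w₁ := by exact_mod_cast this
    linarith
  · exact hneξ r h14

end

end Pool.Agent.V11287.BF
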