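import Pool.Agent.V11287.BF2

open Polynomial Filter Topology Set

namespace Pool.Agent.V11287.BF

noncomputable section

/-- all roots real and negative, at least one root -/
def NegR (P : ℂ[X]) : Prop := ∃ s, Rep P s ∧ (∀ w ∈ s, w < 0) ∧ s ≠ 0

lemma Rep.ne_zero {P : ℂ[X]} {s : Multiset ℝ} (h : Rep P s) : P ≠ 0 := by
  intro h0
  have := h.eval_ne (z := Complex.I) (by simp)
  rw [h0] at this
  simp at this

lemma NegR.ne_zero {P : ℂ[X]} (h : NegR P) : P ≠ 0 := by
  obtain ⟨s, hs, -, -⟩ := h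
  exact hs.ne_zero

lemma Rep.natDegree {P : ℂ[X]} {s : Multiset ℝ} (h : Rep P s) : P.natDegree = s.card := by
  obtain ⟨c, hc, rfl⟩ := h
  rw [natDegree_C_mul hc, natDegree_multiset_prod_of_monic]
  · rw [Multiset.map_map]
    simp [Function.comp_def]
  · intro f hf
    rw [Multiset.mem_map] at hf
    obtain ⟨w, -, rfl⟩ := hf
    exact monic_X_sub_C _

lemma natDegree_op {P : ℂ[X]} (hP : P ≠ 0) (a : ℝ) (ha : 2 * (P.natDegree : ℝ) + a ≠ 0) :
    (op a P).natDegree = P.natDegree := by
  apply le_antisymm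
  · rw [natDegree_le_iff_coeff_eq_zero]
    intro m hm
    rw [coeff_op, coeff_eq_zero_of_natDegree_lt hm, mul_zero]
  · apply le_natDegree_of_ne_zero
    rw [coeff_op]
    apply mul_ne_zero _ (by rwa [coeff_natDegree, leadingCoeff_ne_zero])
    exact_mod_cast ha

/-- real part of the sum -/
lemma sum_nonneg_of_neg {s : Multiset ℝ} (hs : ∀ w ∈ s, w < 0) {x : ℝ} (hx : 0 ≤ x) :
    0 ≤ (s.map fun w : ℝ => x / (x - w)).sum := by
  apply Multiset.sum_nonneg
  intro y hy
  rw [Multiset.mem_map] at hy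
  obtain ⟨w, hw, rfl⟩ := hy
  have := hs w hw
  apply div_nonneg hx
  linarith

lemma Rep.op_eval_real {P : ℂ[X]} {s : Multiset ℝ} (h : Rep P s) (a : ℝ) {x : ℝ}
    (hx : P.eval (x : ℂ) ≠ 0) :
    (op a P).eval (x : ℂ) = P.eval (x : ℂ) *
      ((2 * (s.map fun w : ℝ => x / (x - w)).sum + a : ℝ) : ℂ) := by
  rw [h.op_eval a hx]
  congr 1
  push_cast
  congr 2
  have := map_multiset_sum Complex.ofRealHom (s.map fun w : ℝ => x / (x - w))
  simp only [Multiset.map_map, Function.comp_def, Complex.ofRealHom_eq_coe, Complex.ofReal_div,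
    Complex.ofReal_sub] at this
  exact this.symm

lemma NegR.eval_nonneg_ne {P : ℂ[X]} (h : NegR P) {x : ℝ} (hx : 0 ≤ x) : P.eval (x : ℂ) ≠ 0 := by
  obtain ⟨s, hs, hneg, -⟩ := h
  intro h0
  have := hneg x (hs.mem_of_root h0)
  linarith

lemma NegR.natDegree_pos {P : ℂ[X]} (h : NegR P) : 0 < P.natDegree := by
  obtain ⟨s, hs, -, hs0⟩ := h
  rw [hs.natDegree]
  exact Multiset.card_pos.mpr hs0

/-- general constructor -/
lemma negR_of {P : ℂ[X]} (hdeg : 0 < P.natDegree) (hreal : ∀ z : ℂ, P.eval z = 0 → z.im = 0)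
    (hpos : ∀ x : ℝ, 0 ≤ x → P.eval (x : ℂ) ≠ 0) : NegR P := by
  have hP : P ≠ 0 := by rintro rfl; simp at hdeg
  obtain ⟨s, hs⟩ := rep_of_roots_real hP hreal
  refine ⟨s, hs, fun w hw => ?_, ?_⟩
  · by_contra hcon
    push Not at hcon
    exact hpos w hcon (hs.root_mem hw)
  · rintro rfl
    rw [hs.natDegree] at hdeg
    simp at hdeg

lemma NegR.op {P : ℂ[X]} (h : NegR P) {a : ℝ} (ha : 0 < a) : NegR (op a P) := by
  obtain ⟨s, hs, hneg, hs0⟩ := id h
  apply negR_of
  · rw [natDegree_op h.ne_zero]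
    · exact h.natDegree_pos
    · positivity
  · exact hs.op_real hneg hs0 a
  · intro x hx h0
    have h1 := h.eval_nonneg_ne hx
    rw [hs.op_eval_real a h1] at h0
    have h2 := (mul_eq_zero.mp h0).resolve_left h1
    have h3 : 2 * (s.map fun w : ℝ => x / (x - w)).sum + a = 0 := by exact_mod_cast h2
    have := sum_nonneg_of_neg hneg hx
    linarith

lemma NegR.C_mul {P : ℂ[X]} (h : NegR P) {c : ℂ} (hc : c ≠ 0) : NegR (C c * P) := by
  obtain ⟨s, ⟨d, hd, rfl⟩, hneg, hs0⟩ := h
  exact ⟨s, ⟨c * d, mul_ne_zero hc hd, by rw [Polynomial.C_mul, mul_assoc]⟩, hneg, hs0⟩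

/-- strict monotonicity of the sum on the positive axis -/
lemma sum_strictMono {s : Multiset ℝ} (hs : ∀ w ∈ s, w < 0) (hs0 : s ≠ 0) {x y : ℝ} (hx : 0 < x)
    (hxy : x < y) : (s.map fun w : ℝ => x / (x - w)).sum < (s.map fun w : ℝ => y / (y - w)).sum := by
  apply Multiset.sum_lt_sum_of_nonempty hs0
  intro w hw
  have := hs w hw
  rw [div_lt_div_iff₀ (by linarith) (by linarith)]
  nlinarith

/-- After one operator with `-δ`: real roots, at most one of them positive, none zero. -/
lemma NegR.op_neg {P : ℂ[X]} (h : NegR P) {a : ℝ} (ha : a < 0) (hda : 2 * (P.natDegree : ℝ) + a ≠ 0) :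
    ∃ s, Rep (Pool.Agent.V11287.BF.op a P) s ∧ s.card = P.natDegree ∧ (0:ℝ) ∉ s ∧
      ∀ w ∈ s, ∀ w' ∈ s, 0 < w → 0 < w' → w = w' := by
  obtain ⟨s, hs, hneg, hs0⟩ := id h
  have hdeg := natDegree_op h.ne_zero a hda
  have hne : Pool.Agent.V11287.BF.op a P ≠ 0 := by
    intro h0
    rw [h0] at hdeg
    have := h.natDegree_pos
    simp at hdeg
    omega
  obtain ⟨t, ht⟩ := rep_of_roots_real hne (hs.op_real hneg hs0 a)
  have hroot : ∀ w ∈ t, 0 ≤ w → 2 * (s.map fun v : ℝ => w / (w - v)).sum + a = 0 := by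
    intro w hw hw0
    have h1 := ht.root_mem hw
    rw [hs.op_eval_real a (h.eval_nonneg_ne hw0)] at h1
    have h2 := (mul_eq_zero.mp h1).resolve_left (h.eval_nonneg_ne hw0)
    exact_mod_cast h2
  refine ⟨t, ht, ?_, ?_, ?_⟩
  · rw [← ht.natDegree, hdeg]
  · intro h0
    have := hroot 0 h0 le_rfl
    simp at this
    linarith
  · intro w hw w' hw' h0 h0'
    have h1 := hroot w hw h0.le
    have h2 := hroot w' hw' h0'.le
    rcases lt_trichotomy w w' with h3 | h3 | h3
    · have := sum_strictMono hneg hs0 h0 h3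
      linarith
    · exact h3
    · have := sum_strictMono hneg hs0 h0' h3
      linarith

/-- A decreasing zero. -/
lemma exists_dec_zero {f f' : ℝ → ℝ} {a b : ℝ} (hab : a < b)
    (hf : ∀ x ∈ Icc a b, HasDerivAt f (f' x) x) (ha : 0 < f a) (hb : f b < 0) :
    ∃ r ∈ Icc a b, f r = 0 ∧ f' r ≤ 0 := by
  have hcont : ContinuousOn f (Icc a b) := fun x hx => (hf x hx).continuousAt.continuousWithinAt
  set T := Icc a b ∩ f ⁻¹' (Iic 0) with hT
  have hTc : IsCompact T := by
    apply isCompact_Icc.of_isClosed_subset _ inter_subset_left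
    exact hcont.preimage_isClosed_of_isClosed isClosed_Icc isClosed_Iic
  have hTne : T.Nonempty := ⟨b, right_mem_Icc.mpr hab.le, hb.le⟩
  obtain ⟨r, ⟨hrT, hr0⟩, hleast⟩ := hTc.exists_isLeast hTne
  have hr0' : f r ≤ 0 := hr0
  have har : a < r := by
    rcases eq_or_lt_of_le hrT.1 with h | h
    · rw [← h] at hr0'
      linarith
    · exact h
  have hpos : ∀ x, a ≤ x → x < r → 0 < f x := by
    intro x hx1 hx2
    by_contra hcon
    push Not at hcon
    have := hleast ⟨⟨hx1, by linarith [hrT.2]⟩, hcon⟩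
    linarith
  have hev : ∀ᶠ x in 𝓝[<] r, 0 < f x := by
    have h1 : ∀ᶠ x in 𝓝[<] r, a < x := by
      apply nhdsWithin_le_nhds
      exact lt_mem_nhds har
    filter_upwards [h1, self_mem_nhdsWithin] with x hx1 hx2
    exact hpos x hx1.le hx2
  have hfr : f r = 0 := by
    apply le_antisymm hr0'
    have h2 : Tendsto f (𝓝[<] r) (𝓝 (f r)) := (hf r hrT).continuousAt.tendsto.mono_left nhdsWithin_le_nhds
    exact ge_of_tendsto h2 (hev.mono fun x hx => hx.le)
  refine ⟨r, hrT, hfr, ?_⟩
  have h3 := (hasDerivAt_iff_tendsto_slope.mp (hf r hrT)).mono_left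
    (nhdsWithin_mono r (fun x (hx : x < r) => (ne_of_lt hx : x ≠ r)) : 𝓝[<] r ≤ 𝓝[≠] r)
  apply le_of_tendsto h3
  filter_upwards [hev, self_mem_nhdsWithin] with x hx1 hx2
  rw [slope_def_field, hfr, sub_zero]
  have : x < r := hx2
  exact div_nonpos_of_nonneg_of_nonpos hx1.le (by linarith)

lemma hasDerivAt_sum (s : Multiset ℝ) (x : ℝ) (hx : ∀ w ∈ s, x ≠ w) :
    HasDerivAt (fun x : ℝ => (s.map fun w : ℝ => x / (x - w)).sum)
      (s.map fun w : ℝ => (-w) / (x - w) ^ 2).sum x := by
  induction s using Multiset.induction_on with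
  | empty => simpa using hasDerivAt_const x (0:ℝ)
  | cons a s ih =>
    simp only [Multiset.map_cons, Multiset.sum_cons]
    apply HasDerivAt.add
    · have h1 : x - a ≠ 0 := sub_ne_zero.mpr (hx a (Multiset.mem_cons_self _ _))
      have := (hasDerivAt_id x).div ((hasDerivAt_id x).sub_const a) h1
      refine this.congr_deriv ?_
      simp only [id]
      congr 1
      ring
    · exact ih fun w hw => hx w (Multiset.mem_cons_of_mem hw)

/-- The main step: two bad operators. -/
lemma NegR.two_ops {P : ℂ[X]} (h : NegR P) (hd : 2 ≤ P.natDegree) {δ : ℝ} (hδ : 0 < δ)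
    (hδ1 : δ < 1)
    (g1 : ℝ → ℝ) (hg1 : ∀ x : ℝ, (Pool.Agent.V11287.BF.op (-δ) P).eval (x : ℂ) = g1 x)
    (g2 : ℝ → ℝ) (hg2 : ∀ x : ℝ, (Pool.Agent.V11287.BF.op (-1 - δ)
      (Pool.Agent.V11287.BF.op (-δ) P)).eval (x : ℂ) = g2 x)
    (h1 : ∀ x ∈ Icc (-δ) 0, g1 x < 0) (h2 : g2 (-δ) < 0)
    (hpos : ∀ x : ℝ, 0 ≤ x → g2 x ≠ 0) :
    NegR (Pool.Agent.V11287.BF.op (-1 - δ) (Pool.Agent.V11287.BF.op (-δ) P)) := by
  have hdR : (2:ℝ) ≤ P.natDegree := by exact_mod_cast hd
  obtain ⟨s, hs, hcard, hzero, huniq⟩ := h.op_neg (a := -δ) (by linarith) (by linarith)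
  set G := Pool.Agent.V11287.BF.op (-δ) P with hG
  have hGdeg : G.natDegree = P.natDegree := by rw [hs.natDegree, hcard]
  have hGne : G ≠ 0 := hs.ne_zero
  have hFdeg := natDegree_op hGne (-1 - δ) (by rw [hGdeg]; linarith)
  have hevne : ∀ x ∈ Icc (-δ) 0, G.eval (x : ℂ) ≠ 0 := by
    intro x hx
    rw [hg1 x]
    exact_mod_cast (h1 x hx).ne
  apply negR_of
  · rw [hFdeg, hGdeg]; omega
  · by_cases hp : ∃ p₀ ∈ s, 0 < p₀
    · obtain ⟨p₀, hp₀s, hp₀⟩ := hp
      -- a negative root exists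
      have hsgn : ∀ w ∈ s, w < 0 ∨ w = p₀ := by
        intro w hw
        rcases lt_trichotomy w 0 with h3 | h3 | h3
        · exact Or.inl h3
        · exact absurd (h3 ▸ hw) hzero
        · exact Or.inr (huniq w hw p₀ hp₀s h3 hp₀)
      -- decreasing zero of 2 φ + a
      set f : ℝ → ℝ := fun x => 2 * (s.map fun w : ℝ => x / (x - w)).sum + (-1 - δ) with hf
      have hval : ∀ x ∈ Icc (-δ) 0, g2 x = g1 x * f x := by
        intro x hx
        have := hs.op_eval_real (-1 - δ) (hevne x hx)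
        rw [hg2, hg1, ← Complex.ofReal_mul] at this
        exact Complex.ofReal_injective this
      have hder : ∀ x ∈ Icc (-δ) 0, HasDerivAt f
          (2 * (s.map fun w : ℝ => (-w) / (x - w) ^ 2).sum) x := by
        intro x hx
        apply HasDerivAt.add_const
        apply HasDerivAt.const_mul
        apply hasDerivAt_sum
        rintro w hw rfl
        exact hevne x hx (hs.root_mem hw)
      have hleft : -δ ∈ Icc (-δ) 0 := ⟨le_rfl, by linarith⟩
      have hfa : 0 < f (-δ) := by
        have e := hval (-δ) hleft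
        have e1 := h1 (-δ) hleft
        by_contra hcon
        push Not at hcon
        have : 0 ≤ g1 (-δ) * f (-δ) := mul_nonneg_of_nonpos_of_nonpos e1.le hcon
        linarith
      have hfb : f 0 < 0 := by
        simp only [hf, zero_div, Multiset.map_const', Multiset.sum_replicate, smul_zero, mul_zero]
        linarith
      obtain ⟨r, hr, hfr, hfr'⟩ := exists_dec_zero (by linarith : -δ < 0) hder hfa hfb
      have hD : (s.map fun w : ℝ => (-w) / (r - w) ^ 2).sum ≤ 0 := by linarith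
      by_cases hneg : ∃ w₁ ∈ s, w₁ < 0
      swap
      · push Not at hneg
        have hall : ∀ w ∈ s, w = p₀ := fun w hw => (hsgn w hw).resolve_left (by
          have := hneg w hw; linarith)
        have hrep : s = Multiset.replicate s.card p₀ := Multiset.eq_replicate_card.mpr hall
        intro z hz
        by_contra him
        have hGz := hs.eval_ne him
        rw [hs.op_eval _ hGz] at hz
        have h3 := (mul_eq_zero.mp hz).resolve_left hGz
        rw [hrep] at h3
        simp only [Multiset.map_replicate, Multiset.sum_replicate, nsmul_eq_mul] at h3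
        have hzp : z - p₀ ≠ 0 := by
          intro h0
          apply him
          have := congrArg Complex.im h0
          simpa using this
        rw [hcard] at h3
        field_simp at h3
        have h4 := congrArg Complex.im h3
        simp at h4
        have h5 : (2 * (P.natDegree : ℝ) + (-1 - δ)) * z.im = 0 := by linarith
        rcases mul_eq_zero.mp h5 with h6 | h6
        · linarith
        · exact him h6
      obtain ⟨w₁, hw₁, hw₁neg⟩ := hneg
      intro z hz
      refine hs.kernel p₀ w₁ hp₀ hsgn hw₁ hw₁neg (-1 - δ) r (hevne r hr) ?_ hD z hz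
      rw [hg2, hval r hr, hfr, mul_zero]
      simp
    · push Not at hp
      have hneg : ∀ w ∈ s, w < 0 := by
        intro w hw
        rcases lt_trichotomy w 0 with h3 | h3 | h3
        · exact h3
        · exact absurd (h3 ▸ hw) hzero
        · exact absurd h3 (not_lt.mpr (hp w hw))
      have hs0 : s ≠ 0 := by
        rintro rfl
        simp at hcard
        omega
      exact hs.op_real hneg hs0 _
  · intro x hx
    rw [hg2]
    exact_mod_cast hpos x hx

end

end Pool.Agent.V11287.BF
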