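import Pool.Agent.V11287.BF3

open Polynomial Filter Topology Set

namespace Pool.Agent.V11287.BF

noncomputable section

/-- coefficients of the approximants -/
def cR (δ : ℝ) (N m : ℕ) : ℝ :=
  (N.choose m : ℝ) / N ^ m * ∏ i ∈ Finset.range m, ((N + i + 1 - δ) / (N * (i + 1 - δ)))

/-- limit coefficients -/
def cL (δ : ℝ) (m : ℕ) : ℝ := 1 / (m.factorial : ℝ) * ∏ i ∈ Finset.range m, (1 / ((i : ℝ) + 1 - δ))

def qn (δ : ℝ) (N : ℕ) : ℕ → ℂ[X]
  | 0 => (1 + C ((1 / (N : ℝ) ^ 2 : ℝ) : ℂ) * X) ^ N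
  | (k + 1) => C ((1 / (2 * ((k : ℝ) + 1 - δ)) : ℝ) : ℂ) * op (2 * ((k : ℝ) + 1 - δ)) (qn δ N k)

lemma coeff_qn (δ : ℝ) (hδ : δ < 1) (N k m : ℕ) : (qn δ N k).coeff m =
    (((N.choose m : ℝ) * (1 / (N : ℝ) ^ 2) ^ m *
      ∏ j ∈ Finset.range k, (1 + m / ((j : ℝ) + 1 - δ)) : ℝ) : ℂ) := by
  induction k with
  | zero =>
    have e : qn δ N 0 = ((1 + X : ℂ[X]) ^ N).comp (C ((1 / (N : ℝ) ^ 2 : ℝ) : ℂ) * X) := by
      simp [qn]
    rw [e, comp_C_mul_X_coeff, coeff_one_add_X_pow]
    simp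
  | succ k ih =>
    have hk : (k : ℝ) + 1 - δ ≠ 0 := by
      have : (0:ℝ) ≤ k := Nat.cast_nonneg k
      linarith
    rw [qn, coeff_C_mul, coeff_op, ih, Finset.prod_range_succ]
    have e : (1 + (m : ℝ) / ((k : ℝ) + 1 - δ)) =
        (1 / (2 * ((k : ℝ) + 1 - δ))) * (2 * m + 2 * ((k : ℝ) + 1 - δ)) := by
      field_simp
      ring
    rw [e]
    push_cast
    ring

lemma prod_identity (δ : ℝ) (hδ : δ < 1) (N m : ℕ) :
    ∏ j ∈ Finset.range N, (1 + m / ((j : ℝ) + 1 - δ)) =
      ∏ i ∈ Finset.range m, (((N : ℝ) + i + 1 - δ) / (i + 1 - δ)) := by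
  have hpos : ∀ j : ℕ, 0 < (j : ℝ) + 1 - δ := fun j => by
    have : (0:ℝ) ≤ j := Nat.cast_nonneg j
    linarith
  induction m with
  | zero => simp
  | succ m ih =>
    rw [Finset.prod_range_succ, ← ih]
    have htel : ∏ j ∈ Finset.range N, (((j + 1 : ℕ) : ℝ) + 1 - δ + m) / ((j : ℝ) + 1 - δ + m) =
        ((N : ℝ) + m + 1 - δ) / (m + 1 - δ) := by
      have h1 : ∀ n : ℕ, ∏ j ∈ Finset.range n, (((j + 1 : ℕ) : ℝ) + 1 - δ + m) /
          ((j : ℝ) + 1 - δ + m) = ((n : ℝ) + m + 1 - δ) / (m + 1 - δ) := by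
        intro n
        induction n with
        | zero =>
          have := (hpos m).ne'
          simp
          field_simp
        | succ n ihn =>
          rw [Finset.prod_range_succ, ihn]
          have a1 := (hpos m).ne'
          have a2 : (n : ℝ) + 1 - δ + m ≠ 0 := by
            have := hpos n
            have : (0:ℝ) ≤ m := Nat.cast_nonneg m
            positivity
          have a3 : (n : ℝ) + m + 1 - δ ≠ 0 := by
            intro h; apply a2; linarith
          push_cast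
          field_simp
          ring
      exact h1 N
    rw [← htel, ← Finset.prod_mul_distrib]
    apply Finset.prod_congr rfl
    intro j _
    have a1 := (hpos j).ne'
    have a2 : (j : ℝ) + 1 - δ + m ≠ 0 := by
      have := hpos j
      have : (0:ℝ) ≤ m := Nat.cast_nonneg m
      positivity
    push_cast
    field_simp
    ring

lemma coeff_q (δ : ℝ) (hδ : δ < 1) (N m : ℕ) (hN : 0 < N) :
    (qn δ N N).coeff m = (cR δ N m : ℂ) := by
  rw [coeff_qn δ hδ, prod_identity δ hδ]
  congr 1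
  unfold cR
  have hN' : (N : ℝ) ≠ 0 := by positivity
  have e : ∏ i ∈ Finset.range m, (((N : ℝ) + i + 1 - δ) / (N * (i + 1 - δ))) =
      (1 / (N : ℝ)) ^ m * ∏ i ∈ Finset.range m, (((N : ℝ) + i + 1 - δ) / (i + 1 - δ)) := by
    rw [← Finset.card_range m, ← Finset.prod_const, Finset.card_range, ← Finset.prod_mul_distrib]
    apply Finset.prod_congr rfl
    intro i _
    rw [one_div, ← div_div, div_div, mul_comm (N : ℝ), ← div_div, inv_mul_eq_div, div_div]
  have e2 : (1 / (N : ℝ) ^ 2) ^ m = 1 / (N : ℝ) ^ m * (1 / (N : ℝ) ^ m) := by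
    rw [one_div_pow, ← pow_mul, mul_comm 2 m, pow_mul, sq, one_div_mul_one_div]
  have e3 : (1 / (N : ℝ)) ^ m = 1 / (N : ℝ) ^ m := one_div_pow _ _
  rw [e, e2, e3]
  ring

lemma negR_qn (δ : ℝ) (hδ : δ < 1) (N : ℕ) (hN : 0 < N) (k : ℕ) : NegR (qn δ N k) := by
  induction k with
  | zero =>
    have hN' : (N : ℂ) ≠ 0 := by exact_mod_cast hN.ne'
    have hev : ∀ z : ℂ, (qn δ N 0).eval z = (1 + 1 / (N : ℂ) ^ 2 * z) ^ N := by
      intro z; simp [qn]
    have hroot : ∀ z : ℂ, (qn δ N 0).eval z = 0 → z = ((-(N : ℝ) ^ 2 : ℝ) : ℂ) := by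
      intro z hz
      rw [hev] at hz
      have := pow_eq_zero_iff (by omega) |>.mp hz
      push_cast
      field_simp at this
      linear_combination this
    have hdeg : 0 < (qn δ N 0).natDegree := by
      by_contra hcon
      have h0 : (qn δ N 0).natDegree = 0 := by omega
      obtain ⟨c, hc⟩ := natDegree_eq_zero.mp h0
      have h1 := hev 0
      have h2 := hev ((-(N : ℝ) ^ 2 : ℝ) : ℂ)
      rw [← hc] at h1 h2
      simp at h1
      have : (1 : ℂ) + 1 / (N : ℂ) ^ 2 * ((-(N : ℝ) ^ 2 : ℝ) : ℂ) = 0 := by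
        push_cast
        field_simp
        ring
      rw [this, zero_pow (by omega)] at h2
      simp at h2
      rw [h2] at h1
      simp at h1
    apply negR_of hdeg
    · intro z hz
      rw [hroot z hz, Complex.ofReal_im]
    · intro x hx h0
      have := hroot _ h0
      have h3 : x = -(N : ℝ) ^ 2 := by exact_mod_cast this
      have : (0:ℝ) < (N : ℝ) ^ 2 := by positivity
      linarith
  | succ k ih =>
    have hk : 0 < (k : ℝ) + 1 - δ := by
      have : (0:ℝ) ≤ k := Nat.cast_nonneg k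
      linarith
    rw [qn]
    apply NegR.C_mul
    · exact ih.op (by positivity)
    · rw [Complex.ofReal_ne_zero]
      positivity

lemma cR_nonneg (δ : ℝ) (hδ : δ < 1) (N m : ℕ) : 0 ≤ cR δ N m := by
  unfold cR
  apply mul_nonneg (by positivity)
  apply Finset.prod_nonneg
  intro i _
  have : (0:ℝ) ≤ i := Nat.cast_nonneg i
  have : (0:ℝ) ≤ N := Nat.cast_nonneg N
  apply div_nonneg (by linarith)
  apply mul_nonneg this (by linarith)

lemma cR_zero (δ : ℝ) (N : ℕ) : cR δ N 0 = 1 := by simp [cR]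

lemma cR_eq_zero (δ : ℝ) {N m : ℕ} (h : N < m) : cR δ N m = 0 := by
  simp [cR, Nat.choose_eq_zero_of_lt h]

lemma cR_one (δ : ℝ) (hδ0 : 0 ≤ δ) (hδ : δ < 1) (N : ℕ) (hN : 0 < N) : 1 ≤ cR δ N 1 := by
  have hN' : (0:ℝ) < N := by exact_mod_cast hN
  have h1 : 0 < 1 - δ := by linarith
  have e : cR δ N 1 = (N + 1 - δ) / (N * (1 - δ)) := by
    simp [cR]
    field_simp
  rw [e, le_div_iff₀ (by positivity)]
  nlinarith

lemma cR_le (δ : ℝ) (hδ0 : 0 ≤ δ) (hδ : δ ≤ 1 / 2) (N m : ℕ) (hN : 0 < N) :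
    cR δ N m ≤ 4 ^ m / m.factorial := by
  by_cases hm : N < m
  · rw [cR_eq_zero δ hm]; positivity
  · push Not at hm
    have hN' : (0:ℝ) < N := by exact_mod_cast hN
    unfold cR
    have h1 : (N.choose m : ℝ) / N ^ m ≤ 1 / m.factorial := by
      have := Nat.choose_le_pow_div (α := ℝ) m N
      rw [div_le_div_iff₀ (by positivity) (by positivity)]
      rw [le_div_iff₀ (by positivity)] at this
      linarith
    have h2 : ∏ i ∈ Finset.range m, (((N : ℝ) + i + 1 - δ) / (N * (i + 1 - δ))) ≤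
        ∏ _i ∈ Finset.range m, (4:ℝ) := by
      apply Finset.prod_le_prod
      · intro i _
        have : (0:ℝ) ≤ i := Nat.cast_nonneg i
        apply div_nonneg (by linarith)
        apply mul_nonneg hN'.le (by linarith)
      · intro i hi
        have hi' : i + 1 ≤ N := by
          have := Finset.mem_range.mp hi
          omega
        have hi'' : (i : ℝ) + 1 ≤ N := by exact_mod_cast hi'
        have : (0:ℝ) ≤ i := Nat.cast_nonneg i
        have hden : 0 < (N : ℝ) * (i + 1 - δ) := mul_pos hN' (by linarith)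
        rw [div_le_iff₀ hden]
        nlinarith
    rw [Finset.prod_const, Finset.card_range] at h2
    calc _ ≤ 1 / (m.factorial : ℝ) * 4 ^ m := by
          apply mul_le_mul h1 h2
          · apply Finset.prod_nonneg
            intro i _
            have : (0:ℝ) ≤ i := Nat.cast_nonneg i
            apply div_nonneg (by linarith)
            apply mul_nonneg hN'.le (by linarith)
          · positivity
      _ = _ := by ring

lemma tendsto_cR (δ : ℝ) (hδ : δ < 1) (m : ℕ) : Tendsto (fun N => cR δ N m) atTop (𝓝 (cL δ m)) := by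
  unfold cR cL
  apply Tendsto.mul
  · have h := ProbabilityTheory.tendsto_choose_mul_pow_atTop (k := m) (r := 1)
      (p := fun n : ℕ => 1 / (n : ℝ)) ?_
    · simp only [one_pow] at h
      refine h.congr fun N => ?_
      rw [one_div, inv_pow]
      rfl
    · apply tendsto_const_nhds.congr'
      filter_upwards [eventually_gt_atTop 0] with n hn
      have : (n : ℝ) ≠ 0 := by positivity
      field_simp
  · apply tendsto_finset_prod
    intro i _
    have hi : ((i : ℝ) + 1 - δ) ≠ 0 := by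
      have : (0:ℝ) ≤ i := Nat.cast_nonneg i
      linarith
    have h1 : Tendsto (fun N : ℕ => (1 + ((i : ℝ) + 1 - δ) * (1 / (N : ℝ))) * (1 / ((i : ℝ) + 1 - δ)))
        atTop (𝓝 ((1 + ((i : ℝ) + 1 - δ) * 0) * (1 / ((i : ℝ) + 1 - δ)))) :=
      (tendsto_const_nhds.add (tendsto_const_nhds.mul tendsto_one_div_atTop_nhds_zero_nat)).mul
        tendsto_const_nhds
    rw [mul_zero, add_zero, one_mul] at h1
    refine h1.congr' ?_
    filter_upwards [eventually_gt_atTop 0] with n hn
    have : (n : ℝ) ≠ 0 := by positivity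
    field_simp
    ring

end

end Pool.Agent.V11287.BF
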