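import Pool.Agent.V11287.BF4

open Polynomial Filter Topology Set

namespace Pool.Agent.V11287.BF

noncomputable section

/-- approximants of `J''` -/
def Fp (δ : ℝ) (N : ℕ) : ℂ[X] := op (-1 - δ) (op (-δ) (qn δ N N))

/-- approximants of `J'''` -/
def Hp (δ : ℝ) (N : ℕ) : ℂ[X] := op (-2 - δ) (Fp δ N)

lemma eval_of_coeff (R : ℂ[X]) (b : ℕ → ℝ) (hb : ∀ m, R.coeff m = (b m : ℂ)) (N : ℕ)
    (hN : ∀ m, N < m → b m = 0) (x : ℝ) :
    R.eval (x : ℂ) = ((∑ m ∈ Finset.range (N + 1), b m * x ^ m : ℝ) : ℂ) := by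
  have hdeg : R.natDegree < N + 1 := by
    apply Nat.lt_succ_of_le
    rw [natDegree_le_iff_coeff_eq_zero]
    intro m hm
    rw [hb, hN m hm]
    simp
  rw [eval_eq_sum_range' hdeg]
  push_cast
  apply Finset.sum_congr rfl
  intro m _
  rw [hb]

lemma coeff_G (δ : ℝ) (hδ : δ < 1) (N m : ℕ) (hN : 0 < N) :
    (op (-δ) (qn δ N N)).coeff m = (((2 * m - δ) * cR δ N m : ℝ) : ℂ) := by
  rw [coeff_op, coeff_q δ hδ N m hN]
  push_cast
  ring

lemma coeff_F (δ : ℝ) (hδ : δ < 1) (N m : ℕ) (hN : 0 < N) :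
    (Fp δ N).coeff m = (((2 * m - 1 - δ) * ((2 * m - δ) * cR δ N m) : ℝ) : ℂ) := by
  rw [Fp, coeff_op, coeff_G δ hδ N m hN]
  push_cast
  ring

lemma coeff_H (δ : ℝ) (hδ : δ < 1) (N m : ℕ) (hN : 0 < N) :
    (Hp δ N).coeff m =
      (((2 * m - 2 - δ) * ((2 * m - 1 - δ) * ((2 * m - δ) * cR δ N m)) : ℝ) : ℂ) := by
  rw [Hp, coeff_op, coeff_F δ hδ N m hN]
  push_cast
  ring

lemma geom_bound (t : ℝ) (ht0 : 0 ≤ t) (ht : t ≤ 1 / 250) (K : ℕ) :
    ∑ k ∈ Finset.range K, t ^ (k + 2) ≤ 101 / 100 * t ^ 2 := by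
  have h1 := mul_neg_geom_sum t K
  have h2 : ∑ k ∈ Finset.range K, t ^ (k + 2) = t ^ 2 * ∑ k ∈ Finset.range K, t ^ k := by
    rw [Finset.mul_sum]
    apply Finset.sum_congr rfl
    intro k _
    rw [pow_add]; ring
  have h3 : 0 ≤ t ^ K := by positivity
  have h4 : 0 ≤ ∑ k ∈ Finset.range K, t ^ k := Finset.sum_nonneg fun k _ => by positivity
  have h5 : ∑ k ∈ Finset.range K, t ^ k ≤ 101 / 100 := by nlinarith
  rw [h2]
  have : 0 ≤ t ^ 2 := by positivity
  nlinarith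

/-- the approximants of `J''_{-δ}` have only negative zeros -/
theorem negR_F (δ : ℝ) (hδ0 : 0 < δ) (hδ : δ ≤ 1 / 1000) (N : ℕ) (hN : 2 ≤ N) :
    NegR (Fp δ N) := by
  have hδ1 : δ < 1 := by linarith
  have hN0 : 0 < N := by omega
  obtain ⟨K, rfl⟩ : ∃ K, N = K + 1 := ⟨N - 1, by omega⟩
  have hcR : ∀ m, 0 ≤ cR δ (K + 1) m := cR_nonneg δ hδ1 (K + 1)
  have hcle : ∀ m, cR δ (K + 1) m ≤ 4 ^ m / m.factorial := fun m =>
    cR_le δ hδ0.le (by linarith) (K + 1) m hN0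
  have hc0 : cR δ (K + 1) 0 = 1 := cR_zero δ (K + 1)
  have hc1 : 1 ≤ cR δ (K + 1) 1 := cR_one δ hδ0.le hδ1 (K + 1) hN0
  set t := 4 * δ with ht
  have ht0 : 0 ≤ t := by positivity
  have ht1 : t ≤ 1 / 250 := by linarith
  have hgeom := geom_bound t ht0 ht1 K
  have hdeg : 2 ≤ (qn δ (K + 1) (K + 1)).natDegree := by
    have : K + 1 ≤ (qn δ (K + 1) (K + 1)).natDegree := by
      apply le_natDegree_of_ne_zero
      rw [coeff_q δ hδ1 _ _ hN0]
      rw [Complex.ofReal_ne_zero]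
      unfold cR
      apply mul_ne_zero
      · simp; positivity
      · rw [Finset.prod_ne_zero_iff]
        intro i _
        have : (0:ℝ) ≤ i := Nat.cast_nonneg i
        have h1 : ((K + 1 : ℕ) : ℝ) ≠ 0 := by positivity
        apply div_ne_zero
        · have : (0:ℝ) < ((K + 1 : ℕ) : ℝ) := by positivity
          intro h0; linarith
        · apply mul_ne_zero h1
          intro h0; linarith
    omega
  refine (negR_qn δ hδ1 (K + 1) hN0 (K + 1)).two_ops hdeg hδ0 hδ1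
    (fun x => ∑ m ∈ Finset.range (K + 1 + 1), ((2 * m - δ) * cR δ (K + 1) m) * x ^ m)
    (fun x => eval_of_coeff _ _ (fun m => coeff_G δ hδ1 _ m hN0) (K + 1) (fun m hm => by
      rw [cR_eq_zero δ hm, mul_zero]) x)
    (fun x => ∑ m ∈ Finset.range (K + 1 + 1),
      ((2 * m - 1 - δ) * ((2 * m - δ) * cR δ (K + 1) m)) * x ^ m)
    (fun x => eval_of_coeff _ _ (fun m => coeff_F δ hδ1 _ m hN0) (K + 1) (fun m hm => by
      rw [cR_eq_zero δ hm, mul_zero, mul_zero]) x) ?_ ?_ ?_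
  · rintro x ⟨hx1, hx2⟩
    rw [Finset.sum_range_succ', Finset.sum_range_succ']
    have hxabs : |x| ≤ δ := abs_le.mpr ⟨hx1, by linarith⟩
    have htail : ∑ k ∈ Finset.range K, ((2 * ((k + 1 + 1 : ℕ) : ℝ) - δ) *
        cR δ (K + 1) (k + 1 + 1)) * x ^ (k + 1 + 1) ≤ ∑ k ∈ Finset.range K, 2 * t ^ (k + 2) := by
      apply Finset.sum_le_sum
      intro k _
      have h1 := hcle (k + 2)
      have h2 := hcR (k + 2)
      have hk : (0:ℝ) ≤ k := Nat.cast_nonneg k
      have hfac : ((k + 2 : ℕ) : ℝ) ≤ ((k + 2).factorial : ℝ) := by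
        exact_mod_cast Nat.self_le_factorial _
      have hfpos : (0:ℝ) < ((k + 2).factorial : ℝ) := by positivity
      calc ((2 * ((k + 1 + 1 : ℕ) : ℝ) - δ) * cR δ (K + 1) (k + 1 + 1)) * x ^ (k + 1 + 1) ≤
          |((2 * ((k + 1 + 1 : ℕ) : ℝ) - δ) * cR δ (K + 1) (k + 1 + 1)) * x ^ (k + 1 + 1)| :=
            le_abs_self _
        _ = ((2 * ((k + 2 : ℕ) : ℝ) - δ) * cR δ (K + 1) (k + 2)) * |x| ^ (k + 2) := by
            rw [abs_mul, abs_pow, abs_of_nonneg]
            apply mul_nonneg _ h2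
            push_cast; linarith
        _ ≤ (2 * ((k + 2 : ℕ) : ℝ) * (4 ^ (k + 2) / (k + 2).factorial)) * δ ^ (k + 2) := by
            apply mul_le_mul
            · apply mul_le_mul _ h1 h2 (by positivity)
              linarith
            · exact pow_le_pow_left₀ (abs_nonneg _) hxabs _
            · positivity
            · positivity
        _ = 2 * t ^ (k + 2) * (((k + 2 : ℕ) : ℝ) / (k + 2).factorial) := by
            rw [ht, mul_pow]; ring
        _ ≤ 2 * t ^ (k + 2) * 1 := by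
            apply mul_le_mul_of_nonneg_left _ (by positivity)
            rw [div_le_one hfpos]
            exact hfac
        _ = _ := mul_one _
    rw [← Finset.mul_sum] at htail
    have h3 : ((2 * ((0 + 1 : ℕ) : ℝ) - δ) * cR δ (K + 1) (0 + 1)) * x ^ (0 + 1) ≤ 0 := by
      push_cast
      simp only [zero_add, pow_one, mul_one]
      apply mul_nonpos_of_nonneg_of_nonpos _ hx2
      apply mul_nonneg (by linarith) (hcR 1)
    have h4 : ((2 * ((0 : ℕ) : ℝ) - δ) * cR δ (K + 1) 0) * x ^ 0 = -δ := by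
      rw [hc0]; simp
    rw [h4]
    have h5 : 2 * (101 / 100 * t ^ 2) < δ := by
      rw [ht]; nlinarith
    linarith
  · rw [Finset.sum_range_succ', Finset.sum_range_succ']
    have htail : ∑ k ∈ Finset.range K, ((2 * ((k + 1 + 1 : ℕ) : ℝ) - 1 - δ) *
        ((2 * ((k + 1 + 1 : ℕ) : ℝ) - δ) * cR δ (K + 1) (k + 1 + 1))) * (-δ) ^ (k + 1 + 1) ≤
        ∑ k ∈ Finset.range K, 8 * t ^ (k + 2) := by
      apply Finset.sum_le_sum
      intro k _
      have h1 := hcle (k + 2)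
      have h2 := hcR (k + 2)
      have hk : (0:ℝ) ≤ k := Nat.cast_nonneg k
      have hfac : ((k + 2 : ℕ) : ℝ) ^ 2 ≤ 2 * ((k + 2).factorial : ℝ) := by
        have h3 : (k + 2) ^ 2 ≤ 2 * (k + 2).factorial := by
          rw [Nat.factorial_succ (k + 1)]
          have h4 : k + 1 ≤ (k + 1).factorial := Nat.self_le_factorial _
          nlinarith [Nat.factorial_pos (k + 1)]
        exact_mod_cast h3
      have hfpos : (0:ℝ) < ((k + 2).factorial : ℝ) := by positivity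
      calc ((2 * ((k + 1 + 1 : ℕ) : ℝ) - 1 - δ) *
        ((2 * ((k + 1 + 1 : ℕ) : ℝ) - δ) * cR δ (K + 1) (k + 1 + 1))) * (-δ) ^ (k + 1 + 1) ≤
          |((2 * ((k + 1 + 1 : ℕ) : ℝ) - 1 - δ) *
        ((2 * ((k + 1 + 1 : ℕ) : ℝ) - δ) * cR δ (K + 1) (k + 1 + 1))) * (-δ) ^ (k + 1 + 1)| :=
            le_abs_self _
        _ = ((2 * ((k + 2 : ℕ) : ℝ) - 1 - δ) * ((2 * ((k + 2 : ℕ) : ℝ) - δ) *
            cR δ (K + 1) (k + 2))) * δ ^ (k + 2) := by
            rw [abs_mul, abs_pow, abs_neg, abs_of_nonneg hδ0.le, abs_of_nonneg]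
            apply mul_nonneg
            · push_cast; linarith
            · apply mul_nonneg _ h2
              push_cast; linarith
        _ ≤ (2 * ((k + 2 : ℕ) : ℝ) * (2 * ((k + 2 : ℕ) : ℝ) * (4 ^ (k + 2) / (k + 2).factorial))) *
            δ ^ (k + 2) := by
            apply mul_le_mul_of_nonneg_right _ (by positivity)
            apply mul_le_mul
            · linarith
            · apply mul_le_mul _ h1 h2 (by positivity)
              linarith
            · apply mul_nonneg _ h2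
              push_cast; linarith
            · positivity
        _ = 4 * t ^ (k + 2) * (((k + 2 : ℕ) : ℝ) ^ 2 / (k + 2).factorial) := by
            rw [ht, mul_pow]; ring
        _ ≤ 4 * t ^ (k + 2) * 2 := by
            apply mul_le_mul_of_nonneg_left _ (by positivity)
            rw [div_le_iff₀ hfpos]
            exact hfac
        _ = _ := by ring
    rw [← Finset.mul_sum] at htail
    have h3 : ((2 * ((0 + 1 : ℕ) : ℝ) - 1 - δ) * ((2 * ((0 + 1 : ℕ) : ℝ) - δ) *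
        cR δ (K + 1) (0 + 1))) * (-δ) ^ (0 + 1) ≤ -((1 - δ) * (2 - δ)) * δ := by
      push_cast
      simp only [zero_add, pow_one, mul_one]
      have : (1 - δ) * (2 - δ) * 1 ≤ (1 - δ) * (2 - δ) * cR δ (K + 1) 1 :=
        mul_le_mul_of_nonneg_left hc1 (mul_nonneg (by linarith) (by linarith))
      nlinarith
    have h4 : ((2 * ((0 : ℕ) : ℝ) - 1 - δ) * ((2 * ((0 : ℕ) : ℝ) - δ) * cR δ (K + 1) 0)) *
        (-δ) ^ 0 = (1 + δ) * δ := by
      rw [hc0]; simp; ring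
    rw [h4]
    have h5 : 8 * (101 / 100 * t ^ 2) < δ * (1 / 5) := by
      rw [ht]; nlinarith
    nlinarith
  · intro x hx
    have h1 : 0 < ∑ m ∈ Finset.range (K + 1 + 1),
        ((2 * (m : ℝ) - 1 - δ) * ((2 * m - δ) * cR δ (K + 1) m)) * x ^ m := by
      rw [Finset.sum_range_succ']
      have h2 : 0 ≤ ∑ k ∈ Finset.range (K + 1), ((2 * ((k + 1 : ℕ) : ℝ) - 1 - δ) *
          ((2 * ((k + 1 : ℕ) : ℝ) - δ) * cR δ (K + 1) (k + 1))) * x ^ (k + 1) := by
        apply Finset.sum_nonneg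
        intro k _
        have hk : (0:ℝ) ≤ k := Nat.cast_nonneg k
        apply mul_nonneg _ (by positivity)
        apply mul_nonneg
        · push_cast; linarith
        · apply mul_nonneg _ (hcR _)
          push_cast; linarith
      have h4 : ((2 * ((0 : ℕ) : ℝ) - 1 - δ) * ((2 * ((0 : ℕ) : ℝ) - δ) * cR δ (K + 1) 0)) *
          x ^ 0 = (1 + δ) * δ := by
        rw [hc0]; simp; ring
      rw [h4]
      positivity
    exact h1.ne'

theorem RR_F (δ : ℝ) (hδ0 : 0 < δ) (hδ : δ ≤ 1 / 1000) (N : ℕ) (hN : 2 ≤ N) : RR (Fp δ N) := by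
  obtain ⟨s, hs, -, -⟩ := negR_F δ hδ0 hδ N hN
  exact Or.inr ⟨s, hs⟩

theorem RR_H (δ : ℝ) (hδ0 : 0 < δ) (hδ : δ ≤ 1 / 1000) (N : ℕ) (hN : 2 ≤ N) : RR (Hp δ N) := by
  obtain ⟨s, hs, hneg, hs0⟩ := negR_F δ hδ0 hδ N hN
  by_cases h0 : Hp δ N = 0
  · exact Or.inl h0
  · exact Or.inr (rep_of_roots_real h0 (hs.op_real hneg hs0 _))

end

end Pool.Agent.V11287.BF
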