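import Pool.Agent.V11287.BF5

open Polynomial Filter Topology Set

namespace Pool.Agent.V11287.BF

noncomputable section

/-- power bound -/
def PB (a : ℕ → ℝ) : Prop := ∃ K R : ℝ, 0 ≤ K ∧ 0 ≤ R ∧ ∀ m, |a m| ≤ K * (R ^ m / m.factorial)

/-- coefficient sequences which are uniform limits of real-rooted polynomials -/
def Lim (a : ℕ → ℝ) : Prop :=
  ∃ K R : ℝ, 0 ≤ K ∧ 0 ≤ R ∧ ∃ (P : ℕ → ℂ[X]) (b : ℕ → ℕ → ℝ), (∀ N, RR (P N)) ∧
    (∀ N m, (P N).coeff m = (b N m : ℂ)) ∧ (∀ N m, |b N m| ≤ K * (R ^ m / m.factorial)) ∧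
    (∀ m, Tendsto (fun N => b N m) atTop (𝓝 (a m)))

/-- coefficients of the derivative -/
def D (a : ℕ → ℝ) : ℕ → ℝ := fun m => (m + 1) * a (m + 1)

def fC (a : ℕ → ℝ) (z : ℂ) : ℂ := ∑' m, (a m : ℂ) * z ^ m

def fR (a : ℕ → ℝ) (x : ℝ) : ℝ := ∑' m, a m * x ^ m

lemma fC_ofReal (a : ℕ → ℝ) (x : ℝ) : fC a x = (fR a x : ℂ) := by
  unfold fC fR
  rw [Complex.ofReal_tsum]
  congr 1
  ext m
  push_cast
  rfl

lemma Lim.pb {a : ℕ → ℝ} (h : Lim a) : PB a := by
  obtain ⟨K, R, hK, hR, P, b, -, -, hb, ha⟩ := h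
  refine ⟨K, R, hK, hR, fun m => ?_⟩
  exact le_of_tendsto ((ha m).abs) (Eventually.of_forall fun N => hb N m)

lemma summable_aux (K R r : ℝ) : Summable fun m : ℕ => K * (R ^ m / m.factorial) * r ^ m := by
  have h := (Real.summable_pow_div_factorial (R * r)).mul_left K
  refine h.congr fun m => ?_
  rw [mul_pow]
  ring

lemma PB.summable {a : ℕ → ℝ} (h : PB a) (z : ℂ) : Summable fun m => (a m : ℂ) * z ^ m := by
  obtain ⟨K, R, hK, hR, hb⟩ := h
  refine Summable.of_norm_bounded (summable_aux K R ‖z‖) fun m => ?_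
  rw [norm_mul, norm_pow, Complex.norm_real, Real.norm_eq_abs]
  exact mul_le_mul_of_nonneg_right (hb m) (by positivity)

lemma PB.summableR {a : ℕ → ℝ} (h : PB a) (x : ℝ) : Summable fun m => a m * x ^ m := by
  obtain ⟨K, R, hK, hR, hb⟩ := h
  refine Summable.of_norm_bounded (summable_aux K R |x|) fun m => ?_
  rw [norm_mul, norm_pow, Real.norm_eq_abs, Real.norm_eq_abs]
  exact mul_le_mul_of_nonneg_right (hb m) (by positivity)

lemma PB.D {a : ℕ → ℝ} (h : PB a) : PB (D a) := by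
  obtain ⟨K, R, hK, hR, hb⟩ := h
  refine ⟨K * R, R, by positivity, hR, fun m => ?_⟩
  unfold BF.D
  have h1 := hb (m + 1)
  have hm : (0:ℝ) < (m : ℝ) + 1 := by positivity
  rw [abs_mul, abs_of_pos hm]
  have h2 : K * (R ^ (m + 1) / ((m + 1).factorial : ℝ)) * (m + 1) = K * R * (R ^ m / m.factorial) := by
    rw [Nat.factorial_succ]
    push_cast
    field_simp
    ring
  calc ((m : ℝ) + 1) * |a (m + 1)| ≤ (m + 1) * (K * (R ^ (m + 1) / ((m + 1).factorial : ℝ))) :=
        mul_le_mul_of_nonneg_left h1 hm.le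
    _ = _ := by rw [← h2]; ring

lemma Lim.D {a : ℕ → ℝ} (h : Lim a) : Lim (D a) := by
  obtain ⟨K, R, hK, hR, P, b, hP, hc, hb, ha⟩ := h
  refine ⟨K * R, R, by positivity, hR, fun N => derivative (P N), fun N m => (m + 1) * b N (m + 1),
    fun N => (hP N).derivative, fun N m => ?_, fun N m => ?_, fun m => ?_⟩
  · rw [coeff_derivative, hc]
    push_cast
    ring
  · have h1 := hb N (m + 1)
    have hm : (0:ℝ) < (m : ℝ) + 1 := by positivity
    rw [abs_mul, abs_of_pos hm]
    have h2 : K * (R ^ (m + 1) / ((m + 1).factorial : ℝ)) * (m + 1) = K * R * (R ^ m / m.factorial) := by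
      rw [Nat.factorial_succ]
      push_cast
      field_simp
      ring
    calc ((m : ℝ) + 1) * |b N (m + 1)| ≤ (m + 1) * (K * (R ^ (m + 1) / ((m + 1).factorial : ℝ))) :=
          mul_le_mul_of_nonneg_left h1 hm.le
      _ = _ := by rw [← h2]; ring
  · exact (ha (m + 1)).const_mul _

lemma RR.C_mul {P : ℂ[X]} (h : RR P) (c : ℂ) : RR (C c * P) := by
  by_cases hc : c = 0
  · left; simp [hc]
  · rcases h with rfl | ⟨s, d, hd, rfl⟩
    · left; simp
    · right
      refine ⟨s, c * d, mul_ne_zero hc hd, ?_⟩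
      rw [Polynomial.C_mul, mul_assoc]

lemma Lim.smul {a : ℕ → ℝ} (h : Lim a) (κ : ℝ) : Lim (fun m => κ * a m) := by
  obtain ⟨K, R, hK, hR, P, b, hP, hc, hb, ha⟩ := h
  refine ⟨|κ| * K, R, by positivity, hR, fun N => C (κ : ℂ) * P N, fun N m => κ * b N m,
    fun N => (hP N).C_mul _, fun N m => ?_, fun N m => ?_, fun m => ?_⟩
  · rw [coeff_C_mul, hc]
    push_cast
    rfl
  · rw [abs_mul, mul_assoc]
    exact mul_le_mul_of_nonneg_left (hb N m) (abs_nonneg _)
  · exact (ha m).const_mul _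

lemma tendsto_eval {a : ℕ → ℝ} {K R : ℝ} {P : ℕ → ℂ[X]} {b : ℕ → ℕ → ℝ}
    (hc : ∀ N m, (P N).coeff m = (b N m : ℂ)) (hb : ∀ N m, |b N m| ≤ K * (R ^ m / m.factorial))
    (ha : ∀ m, Tendsto (fun N => b N m) atTop (𝓝 (a m))) (z : ℂ) :
    Tendsto (fun N => (P N).eval z) atTop (𝓝 (fC a z)) := by
  have h1 : ∀ N, (P N).eval z = ∑' m, (b N m : ℂ) * z ^ m := by
    intro N
    rw [eval_eq_sum_range]
    rw [tsum_eq_sum (s := Finset.range ((P N).natDegree + 1))]
    · apply Finset.sum_congr rfl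
      intro m _
      rw [hc]
    · intro m hm
      have : (P N).natDegree < m := by
        rw [Finset.mem_range] at hm
        omega
      rw [← hc, coeff_eq_zero_of_natDegree_lt this, zero_mul]
  simp_rw [h1]
  refine tendsto_tsum_of_dominated_convergence (summable_aux K R ‖z‖) (fun m => ?_)
    (Eventually.of_forall fun N m => ?_)
  · exact ((Complex.continuous_ofReal.tendsto _).comp (ha m)).mul_const _
  · rw [norm_mul, norm_pow, Complex.norm_real, Real.norm_eq_abs]
    exact mul_le_mul_of_nonneg_right (hb N m) (by positivity)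

lemma PB.hasDerivAt {a : ℕ → ℝ} (h : PB a) (z : ℂ) : HasDerivAt (fC a) (fC (BF.D a) z) z := by
  have hs := h
  obtain ⟨K, R, hK, hR, hb⟩ := h
  set r : ℝ := ‖z‖ + 1 with hr
  have hr0 : 0 ≤ r := by positivity
  have hsum : Summable fun m : ℕ => K * (R ^ m / m.factorial) * (m * r ^ (m - 1)) := by
    rw [← summable_nat_add_iff 1]
    refine (summable_aux (K * R) R r).congr fun m => ?_
    rw [Nat.factorial_succ, Nat.add_sub_cancel]
    push_cast
    have : ((m : ℝ) + 1) ≠ 0 := by positivity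
    field_simp
    ring
  have key := hasDerivAt_tsum_of_isPreconnected (g := fun (m : ℕ) (w : ℂ) => (a m : ℂ) * w ^ m)
    (g' := fun (m : ℕ) (w : ℂ) => (a m : ℂ) * (m * w ^ (m - 1))) hsum
    (Metric.isOpen_ball (x := (0 : ℂ)) (ε := r)) (convex_ball 0 r).isPreconnected ?_ ?_
    (y₀ := z) (y := z) ?_ (hs.summable z) ?_
  · have e : fC (BF.D a) z = ∑' m : ℕ, (a m : ℂ) * (m * z ^ (m - 1)) := by
      have hsm : Summable fun m : ℕ => (a m : ℂ) * (m * z ^ (m - 1)) := by
        refine Summable.of_norm_bounded hsum fun m => ?_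
        rw [norm_mul, norm_mul, norm_pow, Complex.norm_real, Real.norm_eq_abs,
          Complex.norm_natCast]
        apply mul_le_mul (hb m) _ (by positivity) (by positivity)
        apply mul_le_mul_of_nonneg_left _ (Nat.cast_nonneg m)
        apply pow_le_pow_left₀ (norm_nonneg _)
        linarith
      rw [hsm.tsum_eq_zero_add]
      simp only [Nat.cast_zero, zero_mul, mul_zero, zero_add]
      unfold fC BF.D
      congr 1
      ext m
      rw [Nat.add_sub_cancel]
      push_cast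
      ring
    rw [e]
    exact key
  · intro m w _
    have := (hasDerivAt_pow m w).const_mul (a m : ℂ)
    exact this
  · intro m w hw
    rw [norm_mul, norm_mul, norm_pow, Complex.norm_real, Real.norm_eq_abs, Complex.norm_natCast]
    apply mul_le_mul (hb m) _ (by positivity) (by positivity)
    apply mul_le_mul_of_nonneg_left _ (Nat.cast_nonneg m)
    apply pow_le_pow_left₀ (norm_nonneg _)
    rw [mem_ball_zero_iff] at hw
    exact hw.le
  · rw [mem_ball_zero_iff]; linarith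
  · rw [mem_ball_zero_iff]; linarith

lemma PB.hasDerivAtR {a : ℕ → ℝ} (h : PB a) (x : ℝ) : HasDerivAt (fR a) (fR (BF.D a) x) x := by
  have h1 := (h.hasDerivAt (x : ℂ)).real_of_complex
  simp only [fC_ofReal, Complex.ofReal_re] at h1
  exact h1

lemma PB.iterate {a : ℕ → ℝ} (h : PB a) (l : ℕ) : PB (BF.D^[l] a) := by
  induction l with
  | zero => exact h
  | succ l ih => rw [Function.iterate_succ_apply']; exact ih.D

lemma Lim.iterate {a : ℕ → ℝ} (h : Lim a) (l : ℕ) : Lim (BF.D^[l] a) := by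
  induction l with
  | zero => exact h
  | succ l ih => rw [Function.iterate_succ_apply']; exact ih.D

lemma PB.iteratedDeriv {a : ℕ → ℝ} (h : PB a) (l : ℕ) :
    iteratedDeriv l (fR a) = fR (BF.D^[l] a) := by
  induction l with
  | zero => simp [iteratedDeriv_zero]
  | succ l ih =>
    rw [iteratedDeriv_succ, ih, Function.iterate_succ_apply']
    ext x
    exact ((h.iterate l).hasDerivAtR x).deriv

lemma D_iterate (a : ℕ → ℝ) (l m : ℕ) :
    (BF.D^[l] a) m * m.factorial = (m + l).factorial * a (m + l) := by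
  induction l generalizing m with
  | zero => simp [mul_comm]
  | succ l ih =>
    rw [Function.iterate_succ_apply']
    have h1 := ih (m + 1)
    unfold BF.D
    have e : m + (l + 1) = m + 1 + l := by ring
    rw [e, ← h1, Nat.factorial_succ]
    push_cast
    unfold BF.D
    ring

lemma fC_zero (a : ℕ → ℝ) : fC a 0 = a 0 := by
  unfold fC
  rw [tsum_eq_single 0]
  · simp
  · intro m hm
    rw [zero_pow hm, mul_zero]

lemma PB.differentiable {a : ℕ → ℝ} (h : PB a) : Differentiable ℂ (fC a) :=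
  fun z => (h.hasDerivAt z).differentiableAt

/-- all zeros are real -/
theorem Lim.real_zeros {a : ℕ → ℝ} (h : Lim a) (h0 : a 0 ≠ 0) (z : ℂ) (hz : fC a z = 0) :
    z.im = 0 := by
  by_contra him
  have hpb := h.pb
  obtain ⟨K, R, hK, hR, P, b, hP, hc, hb, ha⟩ := h
  have hmono : ∀ y' : ℝ, |y'| ≤ |z.im| → fC a (z.re + y' * Complex.I) = 0 := by
    intro y' hy'
    have h1 := tendsto_eval hc hb ha (z.re + y' * Complex.I)
    have h2 := tendsto_eval hc hb ha (z.re + z.im * Complex.I)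
    rw [Complex.re_add_im, hz] at h2
    have h3 : ‖fC a (z.re + y' * Complex.I)‖ ≤ ‖(0:ℂ)‖ := by
      refine le_of_tendsto_of_tendsto' h1.norm h2.norm fun N => ?_
      have := (hP N).mono z.re hy'
      rwa [Complex.re_add_im] at this
    simpa using h3
  have han : AnalyticOnNhd ℂ (fC a) univ :=
    hpb.differentiable.differentiableOn.analyticOnNhd isOpen_univ
  have hfreq : ∃ᶠ w in 𝓝[≠] (z.re : ℂ), fC a w = 0 := by
    have ht : Tendsto (fun n : ℕ => (z.re : ℂ) + ((z.im * (1 / ((n : ℝ) + 1)) : ℝ) : ℂ) * Complex.I)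
        atTop (𝓝[≠] (z.re : ℂ)) := by
      apply tendsto_nhdsWithin_iff.mpr
      constructor
      · have h1 : Tendsto (fun n : ℕ => z.im * (1 / ((n : ℝ) + 1))) atTop (𝓝 (z.im * 0)) :=
          tendsto_one_div_add_atTop_nhds_zero_nat.const_mul _
        rw [mul_zero] at h1
        have h2 : Tendsto (fun n : ℕ => (z.re : ℂ) + ((z.im * (1 / ((n : ℝ) + 1)) : ℝ) : ℂ) *
            Complex.I) atTop (𝓝 ((z.re : ℂ) + ((0 : ℝ) : ℂ) * Complex.I)) :=
          tendsto_const_nhds.add (((Complex.continuous_ofReal.tendsto _).comp h1).mul_const _)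
        simpa using h2
      · filter_upwards with n
        intro h1
        have h2 := congrArg Complex.im h1
        simp only [Complex.add_im, Complex.ofReal_im, Complex.mul_im, Complex.ofReal_re,
          Complex.I_im, mul_one, Complex.I_re, mul_zero, add_zero, zero_add] at h2
        rcases mul_eq_zero.mp h2 with h3 | h3
        · exact him h3
        · have : (0:ℝ) < 1 / ((n : ℝ) + 1) := by positivity
          linarith
    apply ht.frequently
    apply Frequently.of_forall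
    intro n
    apply hmono
    rw [abs_mul]
    have h1 : |1 / ((n : ℝ) + 1)| ≤ 1 := by
      rw [abs_of_pos (by positivity), div_le_one (by positivity)]
      have : (0:ℝ) ≤ n := Nat.cast_nonneg n
      linarith
    calc |z.im| * |1 / ((n : ℝ) + 1)| ≤ |z.im| * 1 :=
          mul_le_mul_of_nonneg_left h1 (abs_nonneg _)
      _ = _ := mul_one _
  have hzero := han.eqOn_zero_of_preconnected_of_frequently_eq_zero isPreconnected_univ
    (mem_univ (z.re : ℂ)) hfreq
  have h1 := hzero (mem_univ (0 : ℂ))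
  rw [fC_zero] at h1
  simp only [Pi.zero_apply] at h1
  exact h0 (by exact_mod_cast h1)

/-- strict Laguerre inequality -/
theorem Lim.laguerre {a : ℕ → ℝ} (h : Lim a) (h0 : a 0 ≠ 0) (h1 : 0 < a 1 ^ 2 - 2 * a 0 * a 2)
    (c : ℝ) (hcne : fR a c ≠ 0) :
    0 < fR (BF.D a) c ^ 2 - fR a c * fR (BF.D (BF.D a)) c := by
  obtain ⟨K, R, hK, hR, P, b, hP, hc, hb, ha⟩ := id h
  -- the sequences of derivatives
  have hpb := h.pb
  have hbD : ∀ (K R : ℝ) (b : ℕ → ℕ → ℝ), (∀ N m, |b N m| ≤ K * (R ^ m / m.factorial)) →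
      ∀ (N m : ℕ), |((m : ℝ) + 1) * b N (m + 1)| ≤ (K * R) * (R ^ m / m.factorial) := by
    intro K R b hb N m
    have h1 := hb N (m + 1)
    have hm : (0:ℝ) < (m : ℝ) + 1 := by positivity
    rw [abs_mul, abs_of_pos hm]
    have h2 : K * (R ^ (m + 1) / ((m + 1).factorial : ℝ)) * (m + 1) = K * R * (R ^ m / m.factorial) := by
      rw [Nat.factorial_succ]
      push_cast
      field_simp
      ring
    calc ((m : ℝ) + 1) * |b N (m + 1)| ≤ (m + 1) * (K * (R ^ (m + 1) / ((m + 1).factorial : ℝ))) :=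
          mul_le_mul_of_nonneg_left h1 hm.le
      _ = _ := by rw [← h2]; ring
  have hcD : ∀ (P : ℕ → ℂ[X]) (b : ℕ → ℕ → ℝ), (∀ N m, (P N).coeff m = (b N m : ℂ)) →
      ∀ (N m : ℕ), (derivative (P N)).coeff m = (((m + 1) * b N (m + 1) : ℝ) : ℂ) := by
    intro P b hc N m
    rw [coeff_derivative, hc]
    push_cast
    ring
  have haD : ∀ (a : ℕ → ℝ) (b : ℕ → ℕ → ℝ), (∀ m, Tendsto (fun N => b N m) atTop (𝓝 (a m))) →
      ∀ m : ℕ, Tendsto (fun N => ((m : ℝ) + 1) * b N (m + 1)) atTop (𝓝 (BF.D a m)) :=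
    fun a b ha m => (ha (m + 1)).const_mul _
  have t0 := tendsto_eval hc hb ha (c : ℂ)
  have t1 := tendsto_eval (hcD P b hc) (hbD K R b hb) (haD a b ha) (c : ℂ)
  have t2 := tendsto_eval (hcD _ _ (hcD P b hc)) (hbD _ R _ (hbD K R b hb)) (haD _ _ (haD a b ha))
    (c : ℂ)
  rw [fC_ofReal] at t0 t1 t2
  -- real versions
  have r0 : Tendsto (fun N => ((P N).eval (c:ℂ)).re) atTop (𝓝 (fR a c)) := by
    exact (Complex.continuous_re.tendsto _).comp t0
  have r1 : Tendsto (fun N => ((derivative (P N)).eval (c:ℂ)).re) atTop (𝓝 (fR (BF.D a) c)) := by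
    exact (Complex.continuous_re.tendsto _).comp t1
  have r2 : Tendsto (fun N => ((derivative (derivative (P N))).eval (c:ℂ)).re) atTop
      (𝓝 (fR (BF.D (BF.D a)) c)) := by
    exact (Complex.continuous_re.tendsto _).comp t2
  have himz : ∀ (Q : ℂ[X]) (q : ℕ → ℝ), (∀ m, Q.coeff m = (q m : ℂ)) → ∀ x : ℝ,
      Q.eval (x : ℂ) = ((Q.eval (x:ℂ)).re : ℂ) := by
    intro Q q hq x
    rw [eval_eq_sum_range]
    have : ∀ m, Q.coeff m * (x:ℂ) ^ m = ((q m * x ^ m : ℝ) : ℂ) := by
      intro m; rw [hq]; push_cast; rfl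
    simp_rw [this]
    rw [← Complex.ofReal_sum, Complex.ofReal_re]
  set S : ℝ := (a 1 ^ 2 - 2 * a 0 * a 2) / a 0 ^ 2 with hS
  have hSpos : 0 < S := div_pos h1 (by positivity)
  have tS : Tendsto (fun N => (b N 1 ^ 2 - 2 * b N 0 * b N 2) / b N 0 ^ 2) atTop (𝓝 S) := by
    apply Tendsto.div
    · exact ((ha 1).pow 2).sub (((ha 0).const_mul 2).mul (ha 2))
    · exact (ha 0).pow 2
    · positivity
  have hevS : ∀ᶠ N in atTop, 0 < (b N 1 ^ 2 - 2 * b N 0 * b N 2) / b N 0 ^ 2 :=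
    tS.eventually (lt_mem_nhds hSpos)
  have hev0 : ∀ᶠ N in atTop, b N 0 ≠ 0 := (ha 0).eventually_ne h0
  have hevc : ∀ᶠ N in atTop, ((P N).eval (c:ℂ)).re ≠ 0 := r0.eventually_ne hcne
  have hineq : ∀ᶠ N in atTop,
      ((b N 1 ^ 2 - 2 * b N 0 * b N 2) / b N 0 ^ 2) /
        (1 + |c| * Real.sqrt ((b N 1 ^ 2 - 2 * b N 0 * b N 2) / b N 0 ^ 2)) ^ 2 ≤
      (((derivative (P N)).eval (c:ℂ)).re ^ 2 - ((P N).eval (c:ℂ)).re *
        ((derivative (derivative (P N))).eval (c:ℂ)).re) / ((P N).eval (c:ℂ)).re ^ 2 := by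
    filter_upwards [hevS, hev0, hevc] with N hNS hN0 hNc
    have hPc : (P N).eval (c:ℂ) ≠ 0 := by
      intro h; apply hNc; rw [h]; simp
    have e0 : (P N).eval 0 = (b N 0 : ℂ) := by
      rw [← coeff_zero_eq_eval_zero, hc]
    have hP0 : (P N).eval 0 ≠ 0 := by
      rw [e0]; exact_mod_cast hN0
    rcases hP N with h | ⟨s, hs⟩
    · exfalso; apply hPc; rw [h]; simp
    have e1 : (derivative (P N)).eval 0 = (b N 1 : ℂ) := by
      rw [← coeff_zero_eq_eval_zero, hcD P b hc]
      simp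
    have e2 : (derivative (derivative (P N))).eval 0 = 2 * (b N 2 : ℂ) := by
      rw [← coeff_zero_eq_eval_zero, hcD _ _ (hcD P b hc)]
      push_cast
      norm_num
    have hS0 : (b N 1 ^ 2 - 2 * b N 0 * b N 2) / b N 0 ^ 2 =
        (s.map fun w : ℝ => 1 / w ^ 2).sum := by
      have h5 := hs.laguerre_eq (z := 0) hP0
      rw [e0, e1, e2] at h5
      have h6 : (s.map fun w : ℝ => 1 / ((0:ℂ) - (w : ℂ)) ^ 2).sum =
          (((s.map fun w : ℝ => 1 / w ^ 2).sum : ℝ) : ℂ) := by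
        rw [← Complex.coe_algebraMap, map_multiset_sum, Multiset.map_map]
        congr 1
        apply Multiset.map_congr rfl
        intro w _
        simp
      rw [h6] at h5
      have h7 : b N 1 ^ 2 - b N 0 * (2 * b N 2) = b N 0 ^ 2 * (s.map fun w : ℝ => 1 / w ^ 2).sum := by
        exact_mod_cast h5
      rw [div_eq_iff (by positivity)]
      linarith
    have h8 := hs.laguerre hP0 c _ hNS hS0 hPc
    refine h8.trans (le_of_eq ?_)
    have h5 := hs.laguerre_eq (z := (c:ℂ)) hPc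
    have h6 : (s.map fun w : ℝ => 1 / ((c:ℂ) - (w : ℂ)) ^ 2).sum =
        (((s.map fun w : ℝ => 1 / (c - w) ^ 2).sum : ℝ) : ℂ) := by
      rw [← Complex.coe_algebraMap, map_multiset_sum, Multiset.map_map]
      congr 1
      apply Multiset.map_congr rfl
      intro w _
      simp
    rw [h6, himz _ _ (hc N) c, himz _ _ (hcD P b hc N) c, himz _ _ (hcD _ _ (hcD P b hc) N) c] at h5
    rw [eq_div_iff (by positivity)]
    have h7 : ((derivative (P N)).eval (c:ℂ)).re ^ 2 - ((P N).eval (c:ℂ)).re *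
        ((derivative (derivative (P N))).eval (c:ℂ)).re =
        ((P N).eval (c:ℂ)).re ^ 2 * (s.map fun w : ℝ => 1 / (c - w) ^ 2).sum := by
      exact_mod_cast h5
    rw [h7]
    ring
  have hlimL : Tendsto (fun N => ((b N 1 ^ 2 - 2 * b N 0 * b N 2) / b N 0 ^ 2) /
        (1 + |c| * Real.sqrt ((b N 1 ^ 2 - 2 * b N 0 * b N 2) / b N 0 ^ 2)) ^ 2) atTop
      (𝓝 (S / (1 + |c| * Real.sqrt S) ^ 2)) := by
    apply tS.div
    · exact (tendsto_const_nhds.add (((Real.continuous_sqrt.tendsto _).comp tS).const_mul _)).pow 2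
    · positivity
  have hlimR : Tendsto (fun N => (((derivative (P N)).eval (c:ℂ)).re ^ 2 - ((P N).eval (c:ℂ)).re *
        ((derivative (derivative (P N))).eval (c:ℂ)).re) / ((P N).eval (c:ℂ)).re ^ 2) atTop
      (𝓝 ((fR (BF.D a) c ^ 2 - fR a c * fR (BF.D (BF.D a)) c) / fR a c ^ 2)) := by
    apply Tendsto.div
    · exact (r1.pow 2).sub (r0.mul r2)
    · exact r0.pow 2
    · positivity
  have hfin := le_of_tendsto_of_tendsto hlimL hlimR hineq
  have hpos : 0 < S / (1 + |c| * Real.sqrt S) ^ 2 := by positivity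
  have h9 : 0 < (fR (BF.D a) c ^ 2 - fR a c * fR (BF.D (BF.D a)) c) / fR a c ^ 2 :=
    lt_of_lt_of_le hpos hfin
  have h10 : 0 < fR a c ^ 2 := by positivity
  exact (div_pos_iff_of_pos_right h10).mp h9

end

end Pool.Agent.V11287.BF
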