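import Pool.Agent.V11287.BF6

open Polynomial Filter Topology Set

namespace Pool.Agent.V11287.BF

noncomputable section

/-- coefficients for `n = 2` -/
def aF (κ δ : ℝ) (m : ℕ) : ℝ := κ * ((2 * m - 1 - δ) * ((2 * m - δ) * cL δ m))

/-- coefficients for `n = 3` -/
def aH (κ δ : ℝ) (m : ℕ) : ℝ := κ * ((2 * m - 2 - δ) * ((2 * m - 1 - δ) * ((2 * m - δ) * cL δ m)))

lemma two_pow_bound (m : ℕ) : (2 * (m:ℝ) + 3) ≤ 3 * 2 ^ m := by
  have h : m < 2 ^ m := Nat.lt_two_pow_self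
  have h' : (m : ℝ) + 1 ≤ 2 ^ m := by exact_mod_cast h
  linarith

lemma lim_F (κ δ : ℝ) (hδ0 : 0 < δ) (hδ : δ ≤ 1 / 1000) : Lim (aF κ δ) := by
  have hδ1 : δ < 1 := by linarith
  apply Lim.smul
  refine ⟨9, 16, by norm_num, by norm_num, fun N => Fp δ (N + 2),
    fun N m => (2 * m - 1 - δ) * ((2 * m - δ) * cR δ (N + 2) m),
    fun N => RR_F δ hδ0 hδ _ (by omega), fun N m => coeff_F δ hδ1 _ m (by omega),
    fun N m => ?_, fun m => ?_⟩
  · have h1 := cR_le δ hδ0.le (by linarith) (N + 2) m (by omega)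
    have h2 := cR_nonneg δ hδ1 (N + 2) m
    have h3 := two_pow_bound m
    have hm : (0:ℝ) ≤ m := Nat.cast_nonneg m
    rw [abs_mul, abs_mul, abs_of_nonneg h2]
    have a1 : |2 * (m:ℝ) - 1 - δ| ≤ 3 * 2 ^ m := by
      rw [abs_le]; constructor <;> linarith
    have a2 : |2 * (m:ℝ) - δ| ≤ 3 * 2 ^ m := by
      rw [abs_le]; constructor <;> linarith
    calc |2 * (m:ℝ) - 1 - δ| * (|2 * (m:ℝ) - δ| * cR δ (N + 2) m) ≤
        (3 * 2 ^ m) * ((3 * 2 ^ m) * (4 ^ m / m.factorial)) := by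
          apply mul_le_mul a1 _ (by positivity) (by positivity)
          apply mul_le_mul a2 h1 h2 (by positivity)
      _ = 9 * (16 ^ m / m.factorial) := by
          have : (16:ℝ) ^ m = 2 ^ m * 2 ^ m * 4 ^ m := by
            rw [← mul_pow, ← mul_pow]; norm_num
          rw [this]; ring
  · exact (((tendsto_cR δ hδ1 m).comp (tendsto_add_atTop_nat 2)).const_mul _).const_mul _

lemma lim_H (κ δ : ℝ) (hδ0 : 0 < δ) (hδ : δ ≤ 1 / 1000) : Lim (aH κ δ) := by
  have hδ1 : δ < 1 := by linarith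
  apply Lim.smul
  refine ⟨27, 32, by norm_num, by norm_num, fun N => Hp δ (N + 2),
    fun N m => (2 * m - 2 - δ) * ((2 * m - 1 - δ) * ((2 * m - δ) * cR δ (N + 2) m)),
    fun N => RR_H δ hδ0 hδ _ (by omega), fun N m => coeff_H δ hδ1 _ m (by omega),
    fun N m => ?_, fun m => ?_⟩
  · have h1 := cR_le δ hδ0.le (by linarith) (N + 2) m (by omega)
    have h2 := cR_nonneg δ hδ1 (N + 2) m
    have h3 := two_pow_bound m
    have hm : (0:ℝ) ≤ m := Nat.cast_nonneg m
    rw [abs_mul, abs_mul, abs_mul, abs_of_nonneg h2]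
    have a0 : |2 * (m:ℝ) - 2 - δ| ≤ 3 * 2 ^ m := by
      rw [abs_le]; constructor <;> linarith
    have a1 : |2 * (m:ℝ) - 1 - δ| ≤ 3 * 2 ^ m := by
      rw [abs_le]; constructor <;> linarith
    have a2 : |2 * (m:ℝ) - δ| ≤ 3 * 2 ^ m := by
      rw [abs_le]; constructor <;> linarith
    calc |2 * (m:ℝ) - 2 - δ| * (|2 * (m:ℝ) - 1 - δ| * (|2 * (m:ℝ) - δ| * cR δ (N + 2) m)) ≤
        (3 * 2 ^ m) * ((3 * 2 ^ m) * ((3 * 2 ^ m) * (4 ^ m / m.factorial))) := by
          apply mul_le_mul a0 _ (by positivity) (by positivity)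
          apply mul_le_mul a1 _ (by positivity) (by positivity)
          apply mul_le_mul a2 h1 h2 (by positivity)
      _ = 27 * (32 ^ m / m.factorial) := by
          have : (32:ℝ) ^ m = 2 ^ m * 2 ^ m * 2 ^ m * 4 ^ m := by
            rw [← mul_pow, ← mul_pow, ← mul_pow]; norm_num
          rw [this]; ring
  · exact ((((tendsto_cR δ hδ1 m).comp (tendsto_add_atTop_nat 2)).const_mul _).const_mul _).const_mul _

/-- the product in `cL` -/
def pr (δ : ℝ) (m : ℕ) : ℝ := ∏ i ∈ Finset.range m, (1 / ((i : ℝ) + 1 - δ))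

lemma pr_pos (δ : ℝ) (hδ : δ < 1) (m : ℕ) : 0 < pr δ m := by
  apply Finset.prod_pos
  intro i _
  have : (0:ℝ) ≤ i := Nat.cast_nonneg i
  apply one_div_pos.mpr
  linarith

lemma cL_pos (δ : ℝ) (hδ : δ < 1) (m : ℕ) : 0 < cL δ m := by
  have := pr_pos δ hδ m
  unfold cL
  unfold pr at this
  positivity

/-- strict Laguerre inequality for all derivatives -/
theorem laguerre_all {a p : ℕ → ℝ} {κ δ : ℝ} (hδ : δ < 1) (hκ : κ ≠ 0) (ha : Lim a)
    (hap : ∀ m, a m = κ * (p m * cL δ m)) (l : ℕ) (hp0 : p l ≠ 0)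
    (hp : p l * p (l + 2) * (l + 1 - δ) < p (l + 1) ^ 2 * (l + 2 - δ)) (c : ℝ)
    (hc : fR (D^[l] a) c ≠ 0) :
    0 < fR (D^[l + 1] a) c ^ 2 - fR (D^[l] a) c * fR (D^[l + 2] a) c := by
  have h := (ha.iterate l).laguerre ?_ ?_ c hc
  · rwa [← Function.iterate_succ_apply' D l a, ← Function.iterate_succ_apply' D (l + 1) a] at h
  · have h0 := D_iterate a l 0
    simp only [Nat.factorial_zero, Nat.cast_one, mul_one, zero_add] at h0
    rw [h0, hap]
    apply mul_ne_zero (by positivity)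
    apply mul_ne_zero hκ
    exact mul_ne_zero hp0 (cL_pos δ hδ l).ne'
  · have h0 := D_iterate a l 0
    have h1 := D_iterate a l 1
    have h2 := D_iterate a l 2
    simp only [Nat.factorial_zero, Nat.cast_one, mul_one, zero_add, Nat.factorial_one,
      Nat.factorial_two, Nat.cast_ofNat] at h0 h1 h2
    have e2 : 2 * (D^[l] a) 0 * (D^[l] a) 2 = (D^[l] a) 0 * ((D^[l] a) 2 * 2) := by ring
    rw [e2, h0, h1, h2, hap, hap, hap]
    have hcl : ∀ m : ℕ, (m.factorial : ℝ) * (κ * (p m * cL δ m)) = κ * p m * pr δ m := by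
      intro m
      unfold cL pr
      field_simp
    have e1 : 1 + l = l + 1 := by ring
    have e3 : 2 + l = l + 2 := by ring
    rw [e1, e3, hcl, hcl, hcl]
    have hl : (0:ℝ) ≤ l := Nat.cast_nonneg l
    have q1 : 0 < (l : ℝ) + 1 - δ := by linarith
    have q2 : 0 < (l : ℝ) + 2 - δ := by linarith
    have p1 : pr δ (l + 1) = pr δ l * (1 / ((l : ℝ) + 1 - δ)) := Finset.prod_range_succ _ _
    have p2 : pr δ (l + 2) = pr δ l * (1 / ((l : ℝ) + 1 - δ)) * (1 / ((l : ℝ) + 2 - δ)) := by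
      have : pr δ (l + 2) = pr δ (l + 1) * (1 / (((l + 1 : ℕ) : ℝ) + 1 - δ)) :=
        Finset.prod_range_succ _ _
      rw [this, p1]
      push_cast
      congr 3
      ring
    rw [p1, p2]
    have hπ := pr_pos δ hδ l
    have e4 : (κ * p (l + 1) * (pr δ l * (1 / ((l : ℝ) + 1 - δ)))) ^ 2 -
        κ * p l * pr δ l * (κ * p (l + 2) * (pr δ l * (1 / ((l : ℝ) + 1 - δ)) *
          (1 / ((l : ℝ) + 2 - δ)))) =
        (κ * pr δ l) ^ 2 / (((l : ℝ) + 1 - δ) ^ 2 * ((l : ℝ) + 2 - δ)) *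
        (p (l + 1) ^ 2 * (l + 2 - δ) - p l * p (l + 2) * (l + 1 - δ)) := by
      field_simp
    rw [e4]
    apply mul_pos
    · positivity
    · linarith

lemma laguerre_F (κ δ : ℝ) (hδ0 : 0 < δ) (hδ : δ ≤ 1 / 1000) (hκ : κ ≠ 0) (l : ℕ) (c : ℝ)
    (hc : fR (D^[l] (aF κ δ)) c ≠ 0) :
    0 < fR (D^[l + 1] (aF κ δ)) c ^ 2 - fR (D^[l] (aF κ δ)) c * fR (D^[l + 2] (aF κ δ)) c := by
  refine laguerre_all (p := fun m => (2 * (m:ℝ) - 1 - δ) * (2 * m - δ)) (by linarith) hκ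
    (lim_F κ δ hδ0 hδ) (fun m => by unfold aF; ring) l ?_ ?_ c hc
  · rcases Nat.eq_zero_or_pos l with rfl | hl
    · apply mul_ne_zero
      · push_cast; intro h; linarith
      · push_cast; intro h; linarith
    · have hl' : (1:ℝ) ≤ l := by exact_mod_cast hl
      apply mul_ne_zero
      · intro h; linarith
      · intro h; linarith
  · rcases Nat.eq_zero_or_pos l with rfl | hl
    · push_cast
      nlinarith [mul_pos hδ0 hδ0, mul_pos (mul_pos hδ0 hδ0) hδ0,
        mul_pos (mul_pos hδ0 hδ0) (mul_pos hδ0 hδ0)]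
    · have hl' : (1:ℝ) ≤ l := by exact_mod_cast hl
      push_cast
      set x : ℝ := (l : ℝ)
      have h1 : (2 * x - 1 - δ) * (2 * (x + 2) - 1 - δ) ≤ (2 * (x + 1) - 1 - δ) ^ 2 := by nlinarith
      have h2 : (2 * x - δ) * (2 * (x + 2) - δ) ≤ (2 * (x + 1) - δ) ^ 2 := by nlinarith
      have h3 : 0 ≤ (2 * x - 1 - δ) * (2 * (x + 2) - 1 - δ) := by
        apply mul_nonneg <;> linarith
      have h4 : 0 ≤ (2 * x - δ) * (2 * (x + 2) - δ) := by
        apply mul_nonneg <;> linarith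
      have h5 := mul_le_mul h1 h2 h4 (by positivity)
      have h6 : 0 < (2 * (x + 1) - 1 - δ) ^ 2 * (2 * (x + 1) - δ) ^ 2 := by
        apply mul_pos
        · apply pow_pos; linarith
        · apply pow_pos; linarith
      have h7 : (2 * x - 1 - δ) * (2 * x - δ) * ((2 * (x + 2) - 1 - δ) * (2 * (x + 2) - δ)) *
          (x + 1 - δ) ≤ (2 * (x + 1) - 1 - δ) ^ 2 * (2 * (x + 1) - δ) ^ 2 * (x + 1 - δ) := by
        apply mul_le_mul_of_nonneg_right _ (by linarith)
        calc _ = (2 * x - 1 - δ) * (2 * (x + 2) - 1 - δ) * ((2 * x - δ) * (2 * (x + 2) - δ)) := by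
              ring
          _ ≤ _ := h5
      have h8 : (2 * (x + 1) - 1 - δ) ^ 2 * (2 * (x + 1) - δ) ^ 2 * (x + 1 - δ) <
          (2 * (x + 1) - 1 - δ) ^ 2 * (2 * (x + 1) - δ) ^ 2 * (x + 2 - δ) := by
        apply mul_lt_mul_of_pos_left _ h6
        linarith
      calc _ < _ := lt_of_le_of_lt h7 h8
        _ = _ := by ring

lemma laguerre_H (κ δ : ℝ) (hδ0 : 0 < δ) (hδ : δ ≤ 1 / 1000) (hκ : κ ≠ 0) (l : ℕ) (c : ℝ)
    (hc : fR (D^[l] (aH κ δ)) c ≠ 0) :
    0 < fR (D^[l + 1] (aH κ δ)) c ^ 2 - fR (D^[l] (aH κ δ)) c * fR (D^[l + 2] (aH κ δ)) c := by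
  refine laguerre_all (p := fun m => (2 * (m:ℝ) - 2 - δ) * ((2 * (m:ℝ) - 1 - δ) * (2 * m - δ)))
    (by linarith) hκ (lim_H κ δ hδ0 hδ) (fun m => by unfold aH; ring) l ?_ ?_ c hc
  · rcases Nat.eq_zero_or_pos l with rfl | hl
    · apply mul_ne_zero
      · push_cast; intro h; linarith
      · apply mul_ne_zero
        · push_cast; intro h; linarith
        · push_cast; intro h; linarith
    · have hl' : (1:ℝ) ≤ l := by exact_mod_cast hl
      apply mul_ne_zero
      · intro h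
        rcases Nat.lt_or_ge l 2 with h2 | h2
        · have : l = 1 := by omega
          subst this
          push_cast at h
          linarith
        · have : (2:ℝ) ≤ l := by exact_mod_cast h2
          linarith
      · apply mul_ne_zero
        · intro h; linarith
        · intro h; linarith
  · rcases Nat.lt_or_ge l 2 with hl | hl
    · have hl2 : l = 0 ∨ l = 1 := by omega
      rcases hl2 with rfl | rfl
      · push_cast
        have h1 : (2 * (0:ℝ) - 2 - δ) * ((2 * (0:ℝ) - 1 - δ) * (2 * 0 - δ)) *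
            ((2 * (2:ℝ) - 2 - δ) * ((2 * (2:ℝ) - 1 - δ) * (2 * 2 - δ))) *
            (0 + 1 - δ) < 0 := by
          have e : (2 * (0:ℝ) - 2 - δ) * ((2 * (0:ℝ) - 1 - δ) * (2 * 0 - δ)) *
            ((2 * (2:ℝ) - 2 - δ) * ((2 * (2:ℝ) - 1 - δ) * (2 * 2 - δ))) *
            (0 + 1 - δ) = -((2 + δ) * (1 + δ) * δ * ((2 - δ) * (3 - δ) * (4 - δ)) * (1 - δ)) := by
            ring
          rw [e, neg_lt_zero]
          have : 0 < 1 - δ := by linarith
          have : 0 < 2 - δ := by linarith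
          have : 0 < 3 - δ := by linarith
          have : 0 < 4 - δ := by linarith
          positivity
        refine lt_of_lt_of_le h1 ?_
        apply mul_nonneg (by positivity)
        linarith
      · push_cast
        have h1 : (2 * (1:ℝ) - 2 - δ) * ((2 * (1:ℝ) - 1 - δ) * (2 * 1 - δ)) *
            ((2 * (3:ℝ) - 2 - δ) * ((2 * (3:ℝ) - 1 - δ) * (2 * 3 - δ))) *
            (1 + 1 - δ) < 0 := by
          have e : (2 * (1:ℝ) - 2 - δ) * ((2 * (1:ℝ) - 1 - δ) * (2 * 1 - δ)) *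
            ((2 * (3:ℝ) - 2 - δ) * ((2 * (3:ℝ) - 1 - δ) * (2 * 3 - δ))) *
            (1 + 1 - δ) = -(δ * (1 - δ) * (2 - δ) * ((4 - δ) * (5 - δ) * (6 - δ)) * (2 - δ)) := by
            ring
          rw [e, neg_lt_zero]
          have : 0 < 1 - δ := by linarith
          have : 0 < 2 - δ := by linarith
          have : 0 < 4 - δ := by linarith
          have : 0 < 5 - δ := by linarith
          have : 0 < 6 - δ := by linarith
          positivity
        refine lt_of_lt_of_le h1 ?_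
        apply mul_nonneg (by positivity)
        linarith
    · have hl' : (2:ℝ) ≤ l := by exact_mod_cast hl
      push_cast
      set x : ℝ := (l : ℝ)
      have h0 : (2 * x - 2 - δ) * (2 * (x + 2) - 2 - δ) ≤ (2 * (x + 1) - 2 - δ) ^ 2 := by nlinarith
      have h1 : (2 * x - 1 - δ) * (2 * (x + 2) - 1 - δ) ≤ (2 * (x + 1) - 1 - δ) ^ 2 := by nlinarith
      have h2 : (2 * x - δ) * (2 * (x + 2) - δ) ≤ (2 * (x + 1) - δ) ^ 2 := by nlinarith
      have h30 : 0 ≤ (2 * x - 2 - δ) * (2 * (x + 2) - 2 - δ) := by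
        apply mul_nonneg <;> linarith
      have h3 : 0 ≤ (2 * x - 1 - δ) * (2 * (x + 2) - 1 - δ) := by
        apply mul_nonneg <;> linarith
      have h4 : 0 ≤ (2 * x - δ) * (2 * (x + 2) - δ) := by
        apply mul_nonneg <;> linarith
      have h5' := mul_le_mul h1 h2 h4 (by positivity)
      have h5 := mul_le_mul h0 h5' (by positivity) (by positivity)
      have h6 : 0 < (2 * (x + 1) - 2 - δ) ^ 2 * ((2 * (x + 1) - 1 - δ) ^ 2 * (2 * (x + 1) - δ) ^ 2) := by
        apply mul_pos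
        · apply pow_pos; linarith
        · apply mul_pos
          · apply pow_pos; linarith
          · apply pow_pos; linarith
      have h7 : (2 * x - 2 - δ) * ((2 * x - 1 - δ) * (2 * x - δ)) *
          ((2 * (x + 2) - 2 - δ) * ((2 * (x + 2) - 1 - δ) * (2 * (x + 2) - δ))) *
          (x + 1 - δ) ≤ (2 * (x + 1) - 2 - δ) ^ 2 * ((2 * (x + 1) - 1 - δ) ^ 2 *
            (2 * (x + 1) - δ) ^ 2) * (x + 1 - δ) := by
        apply mul_le_mul_of_nonneg_right _ (by linarith)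
        calc _ = (2 * x - 2 - δ) * (2 * (x + 2) - 2 - δ) * ((2 * x - 1 - δ) *
              (2 * (x + 2) - 1 - δ) * ((2 * x - δ) * (2 * (x + 2) - δ))) := by
              ring
          _ ≤ _ := h5
      have h8 : (2 * (x + 1) - 2 - δ) ^ 2 * ((2 * (x + 1) - 1 - δ) ^ 2 *
            (2 * (x + 1) - δ) ^ 2) * (x + 1 - δ) <
          (2 * (x + 1) - 2 - δ) ^ 2 * ((2 * (x + 1) - 1 - δ) ^ 2 *
            (2 * (x + 1) - δ) ^ 2) * (x + 2 - δ) := by
        apply mul_lt_mul_of_pos_left _ h6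
        linarith
      calc _ < _ := lt_of_le_of_lt h7 h8
        _ = _ := by ring

lemma cL_zero (δ : ℝ) : cL δ 0 = 1 := by simp [cL]

lemma aF_zero (κ δ : ℝ) : aF κ δ 0 = κ * (δ * (1 + δ)) := by
  unfold aF
  rw [cL_zero]
  push_cast
  ring

lemma aH_zero (κ δ : ℝ) : aH κ δ 0 = -(κ * (δ * (1 + δ) * (2 + δ))) := by
  unfold aH
  rw [cL_zero]
  push_cast
  ring

/-- `f₂ > 0` on `[0,∞)` -/
lemma fF_pos (κ δ : ℝ) (hδ0 : 0 < δ) (hδ : δ ≤ 1 / 1000) (hκ : 0 < κ) (x : ℝ) (hx : 0 ≤ x) :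
    0 < fR (aF κ δ) x := by
  have hs := (lim_F κ δ hδ0 hδ).pb.summableR x
  have h1 : aF κ δ 0 * x ^ 0 ≤ fR (aF κ δ) x := by
    apply hs.le_tsum 0
    intro m hm
    have hm' : (1:ℝ) ≤ m := by exact_mod_cast Nat.one_le_iff_ne_zero.mpr hm
    apply mul_nonneg _ (by positivity)
    unfold aF
    apply mul_nonneg hκ.le
    apply mul_nonneg (by linarith)
    apply mul_nonneg (by linarith)
    exact (cL_pos δ (by linarith) m).le
  rw [aF_zero, pow_zero, mul_one] at h1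
  have : 0 < κ * (δ * (1 + δ)) := by positivity
  linarith

/-- signs of `aH` -/
lemma aH_nonneg (κ δ : ℝ) (hδ : δ ≤ 1 / 1000) (hκ : 0 < κ) (m : ℕ) (hm : 2 ≤ m) :
    0 ≤ aH κ δ m := by
  have hm' : (2:ℝ) ≤ m := by exact_mod_cast hm
  unfold aH
  apply mul_nonneg hκ.le
  apply mul_nonneg (by linarith)
  apply mul_nonneg (by linarith)
  apply mul_nonneg (by linarith)
  exact (cL_pos δ (by linarith) m).le

/-- at most one positive zero for `n = 3` -/
lemma fH_unique (κ δ : ℝ) (hδ0 : 0 < δ) (hδ : δ ≤ 1 / 1000) (hκ : 0 < κ) (p q : ℝ) (hp : 0 < p)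
    (hpq : p < q) (h1 : fR (aH κ δ) p = 0) (h2 : fR (aH κ δ) q = 0) : False := by
  have hpb := (lim_H κ δ hδ0 hδ).pb
  have hsp := hpb.summableR p
  have hsq := hpb.summableR q
  have h3 : ∑' m, -(q * (aH κ δ m * p ^ m) - p * (aH κ δ m * q ^ m)) = 0 := by
    rw [tsum_neg, (hsp.mul_left q).tsum_sub (hsq.mul_left p), tsum_mul_left, tsum_mul_left]
    unfold fR at h1 h2
    rw [h1, h2]
    simp
  have hs : Summable fun m => -(q * (aH κ δ m * p ^ m) - p * (aH κ δ m * q ^ m)) :=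
    ((hsp.mul_left q).sub (hsq.mul_left p)).neg
  have h4 : -(q * (aH κ δ 0 * p ^ 0) - p * (aH κ δ 0 * q ^ 0)) ≤
      ∑' m, -(q * (aH κ δ m * p ^ m) - p * (aH κ δ m * q ^ m)) := by
    apply hs.le_tsum 0
    intro m hm
    rcases Nat.lt_or_ge m 2 with hm2 | hm2
    · have : m = 1 := by omega
      subst this
      have : -(q * (aH κ δ 1 * p ^ 1) - p * (aH κ δ 1 * q ^ 1)) = 0 := by ring
      rw [this]
    · obtain ⟨k, rfl⟩ : ∃ k, m = k + 1 := ⟨m - 1, by omega⟩
      have h5 := aH_nonneg κ δ hδ hκ _ hm2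
      have h6 : p ^ k ≤ q ^ k := pow_le_pow_left₀ hp.le hpq.le k
      have e : -(q * (aH κ δ (k + 1) * p ^ (k + 1)) - p * (aH κ δ (k + 1) * q ^ (k + 1))) =
          aH κ δ (k + 1) * (p * q) * (q ^ k - p ^ k) := by ring
      rw [e]
      have hq : 0 < q := by linarith
      apply mul_nonneg _ (by linarith)
      positivity
  rw [h3, aH_zero] at h4
  have : 0 < κ * (δ * (1 + δ) * (2 + δ)) := by positivity
  nlinarith

/-- derivative at a positive zero -/
lemma fH_deriv (κ δ : ℝ) (hδ0 : 0 < δ) (hδ : δ ≤ 1 / 1000) (hκ : 0 < κ) (p : ℝ) (hp : 0 < p)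
    (h1 : fR (aH κ δ) p = 0) : 0 < fR (D (aH κ δ)) p := by
  have hpb := (lim_H κ δ hδ0 hδ).pb
  have hsp := hpb.summableR p
  have hsd := hpb.D.summableR p
  -- x f'(x) = ∑ m a_m x^m
  have hs1 : Summable fun m : ℕ => (m : ℝ) * (aH κ δ m * p ^ m) := by
    rw [← summable_nat_add_iff 1]
    refine (hsd.mul_left p).congr fun m => ?_
    unfold D
    push_cast
    ring
  have h2 : ∑' m : ℕ, (m : ℝ) * (aH κ δ m * p ^ m) = p * fR (D (aH κ δ)) p := by
    rw [hs1.tsum_eq_zero_add]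
    unfold fR
    rw [← tsum_mul_left]
    simp only [Nat.cast_zero, zero_mul, zero_add]
    congr 1
    ext m
    unfold D
    push_cast
    ring
  have hs3 : Summable fun m : ℕ => ((m : ℝ) - 1) * (aH κ δ m * p ^ m) := by
    refine (hs1.sub hsp).congr fun m => ?_
    ring
  have h3 : ∑' m : ℕ, ((m : ℝ) - 1) * (aH κ δ m * p ^ m) = p * fR (D (aH κ δ)) p := by
    rw [← h2, ← sub_zero (∑' m : ℕ, (m : ℝ) * (aH κ δ m * p ^ m)), ← h1]
    unfold fR
    rw [← hs1.tsum_sub hsp]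
    congr 1
    ext m
    ring
  have h4 : (((0 : ℕ) : ℝ) - 1) * (aH κ δ 0 * p ^ 0) ≤
      ∑' m : ℕ, ((m : ℝ) - 1) * (aH κ δ m * p ^ m) := by
    apply hs3.le_tsum 0
    intro m hm
    rcases Nat.lt_or_ge m 2 with hm2 | hm2
    · have : m = 1 := by omega
      subst this
      simp
    · have h5 := aH_nonneg κ δ hδ hκ _ hm2
      have hm' : (2:ℝ) ≤ m := by exact_mod_cast hm2
      apply mul_nonneg (by linarith)
      positivity
  rw [h3, aH_zero] at h4
  have h5 : 0 < κ * (δ * (1 + δ) * (2 + δ)) := by positivity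
  have h6 : 0 < p * fR (D (aH κ δ)) p := by
    push_cast at h4
    nlinarith
  exact (mul_pos_iff_of_pos_left hp).mp h6

lemma cL_one (δ : ℝ) : cL δ 1 = 1 / (1 - δ) := by
  simp [cL]

lemma cL_two (δ : ℝ) : cL δ 2 = 1 / 2 * (1 / (1 - δ) * (1 / (2 - δ))) := by
  simp only [cL, Finset.prod_range_succ, Finset.prod_range_zero, one_mul]
  norm_num

/-- existence of a positive zero for `n = 3` -/
lemma fH_exists (κ δ : ℝ) (hδ0 : 0 < δ) (hδ : δ ≤ 1 / 1000) (hκ : 0 < κ) :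
    ∃ p : ℝ, 0 < p ∧ fR (aH κ δ) p = 0 := by
  have hpb := (lim_H κ δ hδ0 hδ).pb
  have hcont : Continuous (fR (aH κ δ)) :=
    continuous_iff_continuousAt.mpr fun x => (hpb.hasDerivAtR x).continuousAt
  have h0 : fR (aH κ δ) 0 < 0 := by
    have e : fR (aH κ δ) 0 = aH κ δ 0 := by
      have h1 := fC_zero (aH κ δ)
      have h2 := fC_ofReal (aH κ δ) 0
      rw [Complex.ofReal_zero, h1] at h2
      exact_mod_cast h2.symm
    rw [e, aH_zero, neg_lt_zero]
    positivity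
  have h1 : 0 < fR (aH κ δ) 1 := by
    have hs := hpb.summableR 1
    have h2 : ∑ m ∈ Finset.range 3, aH κ δ m * 1 ^ m ≤ fR (aH κ δ) 1 := by
      apply hs.sum_le_tsum
      intro m hm
      have hm3 : 3 ≤ m := by
        rw [Finset.mem_range] at hm
        omega
      apply mul_nonneg (aH_nonneg κ δ hδ hκ m (by omega)) (by positivity)
    have h3 : 0 < ∑ m ∈ Finset.range 3, aH κ δ m * 1 ^ m := by
      have e : ∑ m ∈ Finset.range 3, aH κ δ m * 1 ^ m = aH κ δ 0 + aH κ δ 1 + aH κ δ 2 := by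
        simp [Finset.sum_range_succ]
      rw [e, aH_zero]
      unfold aH
      rw [cL_one, cL_two]
      push_cast
      have d1 : 0 < 1 - δ := by linarith
      have d2 : 0 < 2 - δ := by linarith
      have e2 : -(κ * (δ * (1 + δ) * (2 + δ))) +
          κ * ((2 * 1 - 2 - δ) * ((2 * 1 - 1 - δ) * ((2 * 1 - δ) * (1 / (1 - δ))))) +
          κ * ((2 * 2 - 2 - δ) * ((2 * 2 - 1 - δ) * ((2 * 2 - δ) *
            (1 / 2 * (1 / (1 - δ) * (1 / (2 - δ))))))) =
          κ / (2 * (1 - δ)) * (-(2 * (δ * (1 + δ) * (2 + δ)) * (1 - δ)) -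
            2 * (δ * (1 - δ) * (2 - δ)) + (3 - δ) * (4 - δ)) := by
        field_simp
        ring
      rw [e2]
      apply mul_pos (by positivity)
      nlinarith [mul_pos hδ0 hδ0, mul_pos (mul_pos hδ0 hδ0) hδ0,
        mul_pos (mul_pos hδ0 hδ0) (mul_pos hδ0 hδ0)]
    linarith
  obtain ⟨p, hp, hp0⟩ := intermediate_value_Icc (zero_le_one) hcont.continuousOn
    (show (0:ℝ) ∈ Icc (fR (aH κ δ) 0) (fR (aH κ δ) 1) from ⟨h0.le, h1.le⟩)
  refine ⟨p, ?_, hp0⟩
  rcases hp.1.lt_or_eq with h | h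
  · exact h
  · exfalso
    rw [← h] at hp0
    linarith

end

end Pool.Agent.V11287.BF
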