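import Pool.Agent.V11287.BF7

open Polynomial Filter Topology Set

namespace Pool.Agent.V11287.BF

noncomputable section

lemma Gamma_shift (δ : ℝ) (hδ : δ < 1) (m : ℕ) :
    Real.Gamma ((m : ℝ) + -δ + 1) = Real.Gamma (1 - δ) * ∏ i ∈ Finset.range m, ((i : ℝ) + 1 - δ) := by
  induction m with
  | zero => simp; congr 1; ring
  | succ m ih =>
    have hm : (0:ℝ) ≤ m := Nat.cast_nonneg m
    rw [Finset.prod_range_succ, ← mul_assoc, ← ih]
    have e : (((m + 1 : ℕ) : ℝ) + -δ + 1) = ((m : ℝ) + -δ + 1) + 1 := by push_cast; ring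
    rw [e, Real.Gamma_add_one (by intro h; linarith)]
    ring

/-- the positive constant `1/Γ(1-δ)` -/
def kap (δ : ℝ) : ℝ := 1 / Real.Gamma (1 - δ)

lemma kap_pos (δ : ℝ) (hδ : δ < 1) : 0 < kap δ :=
  one_div_pos.mpr (Real.Gamma_pos_of_pos (by linarith))

lemma cL_eq (δ : ℝ) (hδ : δ < 1) (m : ℕ) :
    1 / ((m.factorial : ℝ) * Real.Gamma ((m : ℝ) + -δ + 1)) = kap δ * cL δ m := by
  rw [Gamma_shift δ hδ]
  unfold kap cL
  have h1 : ∏ i ∈ Finset.range m, (1 / ((i : ℝ) + 1 - δ)) =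
      1 / ∏ i ∈ Finset.range m, ((i : ℝ) + 1 - δ) := by
    rw [Finset.prod_div_distrib]
    simp
  rw [h1]
  have h2 : Real.Gamma (1 - δ) ≠ 0 := (Real.Gamma_pos_of_pos (by linarith)).ne'
  have h3 : ∏ i ∈ Finset.range m, ((i : ℝ) + 1 - δ) ≠ 0 := by
    rw [Finset.prod_ne_zero_iff]
    intro i _
    have : (0:ℝ) ≤ i := Nat.cast_nonneg i
    intro h; linarith
  field_simp

lemma Gamma_ne (δ : ℝ) (hδ0 : 0 < δ) (hδ : δ < 1) (j : ℤ) : Real.Gamma ((j : ℝ) - δ) ≠ 0 := by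
  apply Real.Gamma_ne_zero
  intro k hk
  have h1 : δ = ((j + k : ℤ) : ℝ) := by push_cast; linarith
  rw [h1] at hδ0 hδ
  have h2 : (0:ℤ) < j + k := by exact_mod_cast hδ0
  have h3 : (j + k : ℤ) < 1 := by exact_mod_cast hδ
  omega

lemma ne_int (δ : ℝ) (hδ0 : 0 < δ) (hδ : δ < 1) (j : ℤ) : (j : ℝ) - δ ≠ 0 := by
  intro h
  have h1 : δ = (j : ℝ) := by linarith
  rw [h1] at hδ0 hδ
  have h2 : (0:ℤ) < j := by exact_mod_cast hδ0
  have h3 : (j : ℤ) < 1 := by exact_mod_cast hδ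
  omega

/-- the coefficient of the problem for `n = 2` -/
lemma coef_F (δ : ℝ) (hδ0 : 0 < δ) (hδ : δ < 1) (m : ℕ) :
    Real.Gamma (2 * m + -δ + 1) / (m.factorial * Real.Gamma (m + -δ + 1) *
      Real.Gamma (2 * m + -δ - (2 : ℕ) + 1)) = aF (kap δ) δ m := by
  have h1 := ne_int δ hδ0 hδ (2 * m)
  have h2 := ne_int δ hδ0 hδ (2 * m - 1)
  have h3 := Gamma_ne δ hδ0 hδ (2 * m - 1)
  push_cast at h1 h2 h3
  have e1 : Real.Gamma (2 * m + -δ + 1) =
      (2 * m - δ) * ((2 * m - 1 - δ) * Real.Gamma (2 * m - 1 - δ)) := by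
    have : (2 * (m:ℝ) + -δ + 1) = (2 * m - δ) + 1 := by ring
    rw [this, Real.Gamma_add_one h1]
    congr 1
    have : (2 * (m:ℝ) - δ) = (2 * m - 1 - δ) + 1 := by ring
    rw [this, Real.Gamma_add_one h2]
  have e2 : (2 * (m:ℝ) + -δ - (2 : ℕ) + 1) = 2 * m - 1 - δ := by push_cast; ring
  rw [e1, e2]
  have h4 := cL_eq δ hδ m
  unfold aF
  calc _ = (2 * (m:ℝ) - δ) * (2 * m - 1 - δ) *
        (1 / ((m.factorial : ℝ) * Real.Gamma ((m : ℝ) + -δ + 1))) *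
        (Real.Gamma (2 * m - 1 - δ) / Real.Gamma (2 * m - 1 - δ)) := by ring
    _ = _ := by rw [div_self h3, h4]; ring

/-- the coefficient of the problem for `n = 3` -/
lemma coef_H (δ : ℝ) (hδ0 : 0 < δ) (hδ : δ < 1) (m : ℕ) :
    Real.Gamma (2 * m + -δ + 1) / (m.factorial * Real.Gamma (m + -δ + 1) *
      Real.Gamma (2 * m + -δ - (3 : ℕ) + 1)) = aH (kap δ) δ m := by
  have h1 := ne_int δ hδ0 hδ (2 * m)
  have h2 := ne_int δ hδ0 hδ (2 * m - 1)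
  have h2' := ne_int δ hδ0 hδ (2 * m - 2)
  have h3 := Gamma_ne δ hδ0 hδ (2 * m - 2)
  push_cast at h1 h2 h2' h3
  have e1 : Real.Gamma (2 * m + -δ + 1) =
      (2 * m - δ) * ((2 * m - 1 - δ) * ((2 * m - 2 - δ) * Real.Gamma (2 * m - 2 - δ))) := by
    have : (2 * (m:ℝ) + -δ + 1) = (2 * m - δ) + 1 := by ring
    rw [this, Real.Gamma_add_one h1]
    congr 1
    have : (2 * (m:ℝ) - δ) = (2 * m - 1 - δ) + 1 := by ring
    rw [this, Real.Gamma_add_one h2]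
    congr 1
    have : (2 * (m:ℝ) - 1 - δ) = (2 * m - 2 - δ) + 1 := by ring
    rw [this, Real.Gamma_add_one h2']
  have e2 : (2 * (m:ℝ) + -δ - (3 : ℕ) + 1) = 2 * m - 2 - δ := by push_cast; ring
  rw [e1, e2]
  have h4 := cL_eq δ hδ m
  unfold aH
  calc _ = (2 * (m:ℝ) - δ) * (2 * m - 1 - δ) * (2 * m - 2 - δ) *
        (1 / ((m.factorial : ℝ) * Real.Gamma ((m : ℝ) + -δ + 1))) *
        (Real.Gamma (2 * m - 2 - δ) / Real.Gamma (2 * m - 2 - δ)) := by ring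
    _ = _ := by rw [div_self h3, h4]; ring

/-- differentiation of `x^μ g(x²)` -/
lemma hasDeriv_pow_mul {b : ℕ → ℝ} (hb : PB b) (μ x : ℝ) (hx : 0 < x) :
    HasDerivAt (fun t : ℝ => t ^ μ * fR b (t ^ 2))
      (x ^ (μ - 1) * fR (fun m => (μ + 2 * m) * b m) (x ^ 2)) x := by
  have h1 : HasDerivAt (fun t : ℝ => t ^ μ) (μ * x ^ (μ - 1)) x :=
    Real.hasDerivAt_rpow_const (Or.inl hx.ne')
  have h2 : HasDerivAt (fun t : ℝ => fR b (t ^ 2)) (fR (D b) (x ^ 2) * (2 * x)) x := by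
    have h3 : HasDerivAt (fun t : ℝ => t ^ 2) (2 * x) x := by simpa using hasDerivAt_pow 2 x
    exact (hb.hasDerivAtR (x ^ 2)).comp x h3
  refine (h1.mul h2).congr_deriv ?_
  symm
  have hs := hb.summableR (x ^ 2)
  have hsd := hb.D.summableR (x ^ 2)
  have hs1 : Summable fun m : ℕ => (m : ℝ) * (b m * (x ^ 2) ^ m) := by
    rw [← summable_nat_add_iff 1]
    refine (hsd.mul_left (x ^ 2)).congr fun m => ?_
    unfold D
    push_cast
    ring
  have h4 : ∑' m : ℕ, (m : ℝ) * (b m * (x ^ 2) ^ m) = x ^ 2 * fR (D b) (x ^ 2) := by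
    rw [hs1.tsum_eq_zero_add]
    unfold fR
    rw [← tsum_mul_left]
    simp only [Nat.cast_zero, zero_mul, zero_add]
    congr 1
    ext m
    unfold D
    push_cast
    ring
  have h5 : fR (fun m => (μ + 2 * m) * b m) (x ^ 2) =
      μ * fR b (x ^ 2) + 2 * (x ^ 2 * fR (D b) (x ^ 2)) := by
    rw [← h4]
    unfold fR
    rw [← tsum_mul_left, ← tsum_mul_left, ← (hs.mul_left μ).tsum_add (hs1.mul_left 2)]
    congr 1
    ext m
    ring
  rw [h5]
  have h6 : x ^ μ = x ^ (μ - 1) * x := by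
    rw [Real.rpow_sub_one hx.ne']
    field_simp
  rw [h6]
  ring

lemma PB.mulLin {b : ℕ → ℝ} (hb : PB b) (μ : ℝ) : PB (fun m => (μ + 2 * m) * b m) := by
  obtain ⟨K, R, hK, hR, hb⟩ := hb
  refine ⟨(|μ| + 2) * K, 2 * R, by positivity, by positivity, fun m => ?_⟩
  have h1 : |μ + 2 * m| ≤ (|μ| + 2) * 2 ^ m := by
    have h : m < 2 ^ m := Nat.lt_two_pow_self
    have h' : (m : ℝ) ≤ 2 ^ m := by exact_mod_cast h.le
    have h'' : (1:ℝ) ≤ 2 ^ m := one_le_pow₀ (by norm_num)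
    have h3 : |μ + 2 * m| ≤ |μ| + 2 * m := by
      refine (abs_add_le _ _).trans ?_
      rw [abs_of_nonneg (by positivity : (0:ℝ) ≤ 2 * m)]
    have := abs_nonneg μ
    nlinarith
  rw [abs_mul]
  calc |μ + 2 * m| * |b m| ≤ ((|μ| + 2) * 2 ^ m) * (K * (R ^ m / m.factorial)) := by
        apply mul_le_mul h1 (hb m) (abs_nonneg _) (by positivity)
    _ = _ := by rw [mul_pow]; ring

/-- coefficients after `n` differentiations -/
def dc (μ : ℝ) (b : ℕ → ℝ) (n : ℕ) : ℕ → ℝ := fun m =>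
  (∏ i ∈ Finset.range n, (μ + 2 * m - i)) * b m

lemma dc_succ (μ : ℝ) (b : ℕ → ℝ) (n : ℕ) :
    dc μ b (n + 1) = fun m => ((μ - n) + 2 * m) * dc μ b n m := by
  ext m
  unfold dc
  rw [Finset.prod_range_succ]
  ring

lemma PB.dc {b : ℕ → ℝ} (hb : PB b) (μ : ℝ) (n : ℕ) : PB (dc μ b n) := by
  induction n with
  | zero =>
    have : BF.dc μ b 0 = b := by ext m; simp [BF.dc]
    rwa [this]
  | succ n ih => rw [dc_succ]; exact ih.mulLin _

lemma iteratedDeriv_pow_mul {b : ℕ → ℝ} (hb : PB b) (μ : ℝ) (n : ℕ) (x : ℝ) (hx : 0 < x) :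
    iteratedDeriv n (fun t : ℝ => t ^ μ * fR b (t ^ 2)) x =
      x ^ (μ - n) * fR (dc μ b n) (x ^ 2) := by
  induction n generalizing x with
  | zero =>
    have : BF.dc μ b 0 = b := by ext m; simp [BF.dc]
    simp [this]
  | succ n ih =>
    rw [iteratedDeriv_succ]
    have h1 : iteratedDeriv n (fun t : ℝ => t ^ μ * fR b (t ^ 2)) =ᶠ[𝓝 x]
        fun t => t ^ (μ - n) * fR (BF.dc μ b n) (t ^ 2) := by
      filter_upwards [Ioi_mem_nhds hx] with y hy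
      exact ih y hy
    rw [h1.deriv_eq, (hasDeriv_pow_mul (hb.dc μ n) (μ - n) x hx).deriv, dc_succ]
    congr 2
    push_cast
    ring

end

end Pool.Agent.V11287.BF
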