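import Pool.Agent.V11287.BF8

open Polynomial Filter Topology Set

namespace Pool.Agent.V11287.BG

open Pool.Agent.V11287.BF

noncomputable section

/-- the Bessel function of the first kind on `(0,∞)` -/
def besselJ (ν : ℝ) (x : ℝ) : ℝ :=
  ∑' m : ℕ, (-1) ^ m / (m.factorial * Real.Gamma (m + ν + 1)) * (x / 2) ^ (2 * m + ν)

/-- coefficients -/
def bb (ν : ℝ) (m : ℕ) : ℝ :=
  (1 / 2) ^ ν * ((-1 / 4) ^ m * (1 / (m.factorial * Real.Gamma (m + ν + 1))))

lemma Gamma_lower (ν : ℝ) (hν : -1 < ν) : ∃ c : ℝ, 0 < c ∧ ∀ m : ℕ, c ≤ Real.Gamma (m + ν + 1) := by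
  have h0 : 0 < Real.Gamma (ν + 1) := Real.Gamma_pos_of_pos (by linarith)
  have h1 : 0 < Real.Gamma (1 + ν + 1) := Real.Gamma_pos_of_pos (by linarith)
  refine ⟨min (Real.Gamma (ν + 1)) (Real.Gamma (1 + ν + 1)), lt_min h0 h1, fun m => ?_⟩
  rcases Nat.eq_zero_or_pos m with rfl | hm
  · rw [Nat.cast_zero, zero_add]
    exact min_le_left _ _
  · refine (min_le_right _ _).trans ?_
    induction m, hm using Nat.le_induction with
    | base => push_cast; exact le_rfl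
    | succ m hm ih =>
      have hm' : (1:ℝ) ≤ m := by exact_mod_cast hm
      have e : (((m + 1 : ℕ) : ℝ) + ν + 1) = ((m : ℝ) + ν + 1) + 1 := by push_cast; ring
      rw [e, Real.Gamma_add_one (s := (m : ℝ) + ν + 1) (by intro h; linarith)]
      have h2 : 0 < Real.Gamma ((m : ℝ) + ν + 1) := Real.Gamma_pos_of_pos (by linarith)
      refine ih.trans ?_
      have h3 : 1 ≤ (m : ℝ) + ν + 1 := by linarith
      exact le_mul_of_one_le_left h2.le h3

lemma pb_bb (ν : ℝ) (hν : -1 < ν) : PB (bb ν) := by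
  obtain ⟨c, hc, hcm⟩ := Gamma_lower ν hν
  refine ⟨(1 / 2) ^ ν * (1 / c), 1 / 4, by positivity, by norm_num, fun m => ?_⟩
  have hG : 0 < Real.Gamma (m + ν + 1) := lt_of_lt_of_le hc (hcm m)
  unfold bb
  rw [abs_mul, abs_mul, abs_pow, abs_of_pos (by positivity : (0:ℝ) < (1 / 2) ^ ν),
    abs_of_pos (by positivity : 0 < 1 / ((m.factorial : ℝ) * Real.Gamma (m + ν + 1)))]
  have e : |(-1 / 4 : ℝ)| = 1 / 4 := by rw [abs_of_neg (by norm_num)]; norm_num
  rw [e]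
  have h1 : 1 / ((m.factorial : ℝ) * Real.Gamma (m + ν + 1)) ≤ 1 / c * (1 / m.factorial) := by
    rw [one_div_mul_one_div]
    apply one_div_le_one_div_of_le (by positivity)
    rw [mul_comm c]
    exact mul_le_mul_of_nonneg_left (hcm m) (by positivity)
  calc (1 / 2 : ℝ) ^ ν * ((1 / 4) ^ m * (1 / ((m.factorial : ℝ) * Real.Gamma (m + ν + 1)))) ≤
      (1 / 2 : ℝ) ^ ν * ((1 / 4) ^ m * (1 / c * (1 / m.factorial))) := by gcongr
    _ = _ := by ring

lemma J_eq (ν x : ℝ) (hx : 0 < x) : besselJ ν x = x ^ ν * fR (bb ν) (x ^ 2) := by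
  unfold besselJ fR
  rw [← tsum_mul_left]
  congr 1
  ext m
  have e1 : (x / 2) ^ (2 * (m:ℝ) + ν) = x ^ ν * (1 / 2) ^ ν * (x / 2) ^ (2 * m) := by
    rw [Real.rpow_add (by positivity), div_eq_mul_one_div x 2,
      Real.mul_rpow (y := 1/2) (z := ν) hx.le (by norm_num)]
    have : (x * (1 / 2)) ^ (2 * (m:ℝ)) = (x * (1 / 2)) ^ (2 * m) := by
      rw [← Real.rpow_natCast]
      push_cast
      rfl
    rw [this]
    ring
  rw [e1]
  unfold bb
  have e3 : (-1 / 4 : ℝ) ^ m * (x ^ 2) ^ m = (-1) ^ m * (x / 2) ^ (2 * m) := by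
    rw [pow_mul, ← mul_pow, ← mul_pow]
    congr 1
    ring
  calc _ = x ^ ν * ((1 / 2) ^ ν * ((1 / ((m.factorial : ℝ) * Real.Gamma ((m : ℝ) + ν + 1))) *
        ((-1) ^ m * (x / 2) ^ (2 * m)))) := by ring
    _ = _ := by rw [← e3]; ring

/-- `K = x J'` -/
def Kf (ν x : ℝ) : ℝ := x ^ ν * fR (fun m => (ν + 2 * m) * bb ν m) (x ^ 2)

lemma rpow_sub_one' (ν x : ℝ) (hx : 0 < x) : x ^ (ν - 1) = x ^ ν / x :=
  Real.rpow_sub_one hx.ne' ν

lemma hasDerivAt_J (ν : ℝ) (hν : -1 < ν) (x : ℝ) (hx : 0 < x) :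
    HasDerivAt (besselJ ν) (Kf ν x / x) x := by
  have h := hasDeriv_pow_mul (pb_bb ν hν) ν x hx
  have e : besselJ ν =ᶠ[𝓝 x] fun t => t ^ ν * fR (bb ν) (t ^ 2) := by
    filter_upwards [Ioi_mem_nhds hx] with t ht
    exact J_eq ν t ht
  refine (h.congr_of_eventuallyEq e).congr_deriv ?_
  rw [rpow_sub_one' ν x hx]
  unfold Kf
  ring

lemma bb_succ (ν : ℝ) (hν : -1 < ν) (m : ℕ) :
    4 * ((m : ℝ) + 1) * (m + 1 + ν) * bb ν (m + 1) = - bb ν m := by
  unfold bb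
  have hm : (0:ℝ) ≤ m := Nat.cast_nonneg m
  have e : (((m + 1 : ℕ) : ℝ) + ν + 1) = ((m : ℝ) + ν + 1) + 1 := by push_cast; ring
  rw [e, Real.Gamma_add_one (by intro h; linarith), Nat.factorial_succ]
  have h2 : Real.Gamma ((m : ℝ) + ν + 1) ≠ 0 := (Real.Gamma_pos_of_pos (by linarith)).ne'
  have h3 : (m : ℝ) + ν + 1 ≠ 0 := by intro h; linarith
  have h3' : (m : ℝ) + 1 + ν ≠ 0 := by intro h; linarith
  have h4 : (m : ℝ) + 1 ≠ 0 := by positivity
  have h5 : (m.factorial : ℝ) ≠ 0 := by positivity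
  push_cast
  rw [pow_succ]
  field_simp
  ring

/-- shift of a power series -/
lemma fR_shift {b : ℕ → ℝ} (hb : PB b) {a : ℕ → ℝ} (ha : PB a) (h0 : a 0 = 0)
    (h : ∀ m, a (m + 1) = b m) (t : ℝ) : fR a t = t * fR b t := by
  unfold fR
  rw [(ha.summableR t).tsum_eq_zero_add, h0, zero_mul, zero_add, ← tsum_mul_left]
  congr 1
  ext m
  rw [h, pow_succ]
  ring

lemma pb_neg {b : ℕ → ℝ} (hb : PB b) : PB (fun m => - b m) := by
  obtain ⟨K, R, hK, hR, h⟩ := hb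
  exact ⟨K, R, hK, hR, fun m => by rw [abs_neg]; exact h m⟩

lemma pb_cm {b : ℕ → ℝ} (hb : PB b) (c : ℝ) : PB (fun m => c * b m) := by
  obtain ⟨K, R, hK, hR, h⟩ := hb
  refine ⟨|c| * K, R, by positivity, hR, fun m => ?_⟩
  rw [abs_mul, mul_assoc]
  exact mul_le_mul_of_nonneg_left (h m) (abs_nonneg _)

lemma pb_add {a b : ℕ → ℝ} (ha : PB a) (hb : PB b) : PB (fun m => a m + b m) := by
  obtain ⟨K, R, hK, hR, h⟩ := ha
  obtain ⟨K', R', hK', hR', h'⟩ := hb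
  refine ⟨K + K', max R R', by positivity, le_max_of_le_left hR, fun m => ?_⟩
  refine (abs_add_le _ _).trans ?_
  rw [add_mul]
  apply add_le_add
  · refine (h m).trans ?_
    gcongr
    exact le_max_left _ _
  · refine (h' m).trans ?_
    gcongr
    exact le_max_right _ _

lemma fR_add {a b : ℕ → ℝ} (ha : PB a) (hb : PB b) (t : ℝ) :
    fR (fun m => a m + b m) t = fR a t + fR b t := by
  unfold fR
  rw [← (ha.summableR t).tsum_add (hb.summableR t)]
  congr 1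
  ext m
  ring

lemma fR_const_mul (b : ℕ → ℝ) (c t : ℝ) : fR (fun m => c * b m) t = c * fR b t := by
  unfold fR
  rw [← tsum_mul_left]
  congr 1
  ext m
  ring

lemma hasDerivAt_K (ν : ℝ) (hν : -1 < ν) (x : ℝ) (hx : 0 < x) :
    HasDerivAt (Kf ν) ((ν ^ 2 - x ^ 2) * besselJ ν x / x) x := by
  have hpb := pb_bb ν hν
  have h := hasDeriv_pow_mul (hpb.mulLin ν) ν x hx
  refine h.congr_deriv ?_
  have hpb2 := (hpb.mulLin ν).mulLin ν
  have hdec : fR (fun m => (ν + 2 * m) * ((ν + 2 * m) * bb ν m)) (x ^ 2) =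
      (ν ^ 2 - x ^ 2) * fR (bb ν) (x ^ 2) := by
    have hpa : PB (fun m : ℕ => (ν + 2 * m) * ((ν + 2 * m) * bb ν m) + (-ν ^ 2) * bb ν m) :=
      pb_add hpb2 (pb_cm hpb _)
    have h1 := fR_shift (pb_neg hpb) hpa (by simp; ring) (fun m => by
      have := bb_succ ν hν m
      rw [← this]
      push_cast
      ring) (x ^ 2)
    rw [fR_add hpb2 (pb_cm hpb _), fR_const_mul] at h1
    have h2 : fR (fun m => - bb ν m) (x ^ 2) = - fR (bb ν) (x ^ 2) := by
      have := fR_const_mul (bb ν) (-1) (x ^ 2)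
      simpa using this
    rw [h2] at h1
    linarith
  rw [hdec, rpow_sub_one' ν x hx, J_eq ν x hx]
  ring

lemma rec_minus (ν : ℝ) (hν : 0 < ν) (x : ℝ) (hx : 0 < x) :
    x * besselJ (ν - 1) x = Kf ν x + ν * besselJ ν x := by
  have hpb := pb_bb ν (by linarith)
  have h1 : bb (ν - 1) = fun m : ℕ => (ν + 2 * m) * bb ν m + ν * bb ν m := by
    ext m
    unfold bb
    have hm : (0:ℝ) ≤ m := Nat.cast_nonneg m
    have e : ((m : ℝ) + (ν - 1) + 1) = m + ν := by ring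
    have e2 : (m : ℝ) + ν + 1 = (m + ν) + 1 := by ring
    rw [e, e2, Real.Gamma_add_one (by intro h; linarith), rpow_sub_one' ν (1 / 2) (by norm_num)]
    have h2 : Real.Gamma ((m : ℝ) + ν) ≠ 0 := (Real.Gamma_pos_of_pos (by linarith)).ne'
    have h3 : (m : ℝ) + ν ≠ 0 := by intro h; linarith
    have h5 : (m.factorial : ℝ) ≠ 0 := by positivity
    field_simp
    ring
  rw [J_eq _ _ hx, J_eq _ _ hx, h1, fR_add (hpb.mulLin ν) (pb_cm hpb ν), fR_const_mul,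
    rpow_sub_one' ν x hx]
  unfold Kf
  field_simp

lemma rec_plus (ν : ℝ) (hν : 0 < ν) (x : ℝ) (hx : 0 < x) :
    x * besselJ (ν + 1) x = ν * besselJ ν x - Kf ν x := by
  have hpb := pb_bb ν (by linarith)
  have hpb1 := pb_bb (ν + 1) (by linarith)
  have hpa : PB (fun m : ℕ => ν * bb ν m + (-1) * ((ν + 2 * m) * bb ν m)) :=
    pb_add (pb_cm hpb ν) (pb_cm (hpb.mulLin ν) (-1))
  have h1 := fR_shift hpb1 hpa (by simp) (fun m => by
    unfold bb
    have hm : (0:ℝ) ≤ m := Nat.cast_nonneg m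
    have e : (((m + 1 : ℕ) : ℝ) + ν + 1) = (m : ℝ) + (ν + 1) + 1 := by push_cast; ring
    rw [e, Nat.factorial_succ, Real.rpow_add_one (by norm_num) ν, pow_succ]
    have h2 : Real.Gamma ((m : ℝ) + (ν + 1) + 1) ≠ 0 := (Real.Gamma_pos_of_pos (by linarith)).ne'
    have h4 : (m : ℝ) + 1 ≠ 0 := by positivity
    have h5 : (m.factorial : ℝ) ≠ 0 := by positivity
    push_cast
    field_simp
    ring) (x ^ 2)
  rw [fR_add (pb_cm hpb ν) (pb_cm (hpb.mulLin ν) (-1)), fR_const_mul, fR_const_mul] at h1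
  rw [J_eq _ _ hx, J_eq _ _ hx, Real.rpow_add_one hx.ne' ν]
  unfold Kf
  linear_combination -(x ^ ν) * h1

end

end Pool.Agent.V11287.BG
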