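import Pool.Agent.V11287.BG1

open Filter Topology Set

namespace Pool.Agent.V11287.BG

open Pool.Agent.V11287.BF

noncomputable section

lemma contJ (ν : ℝ) (hν : 0 < ν) : ContinuousOn (besselJ ν) (Ioi 0) := fun x hx =>
  (hasDerivAt_J ν (by linarith) x hx).continuousAt.continuousWithinAt

lemma contK (ν : ℝ) (hν : 0 < ν) : ContinuousOn (Kf ν) (Ioi 0) := fun x hx =>
  (hasDerivAt_K ν (by linarith) x hx).continuousAt.continuousWithinAt

/-- `J > 0` for `x² < 4(ν+1)` -/
lemma J_pos (ν : ℝ) (hν : 0 < ν) (x : ℝ) (hx : 0 < x) (hx2 : x ^ 2 < 4 * (ν + 1)) :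
    0 < besselJ ν x := by
  rw [J_eq ν x hx]
  apply mul_pos (Real.rpow_pos_of_pos hx ν)
  set c : ℕ → ℝ := fun m => (x ^ 2 / 4) ^ m * (1 / (m.factorial * Real.Gamma (m + ν + 1))) with hc
  have hG : ∀ m : ℕ, 0 < Real.Gamma ((m : ℝ) + ν + 1) := fun m =>
    Real.Gamma_pos_of_pos (by have : (0:ℝ) ≤ m := Nat.cast_nonneg m; linarith)
  have hanti : Antitone c := by
    apply antitone_nat_of_succ_le
    intro m
    have hm : (0:ℝ) ≤ m := Nat.cast_nonneg m
    have e : (((m + 1 : ℕ) : ℝ) + ν + 1) = ((m : ℝ) + ν + 1) + 1 := by push_cast; ring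
    have h3 : 0 < (m : ℝ) + ν + 1 := by linarith
    rw [hc]
    simp only
    rw [e, Real.Gamma_add_one h3.ne', Nat.factorial_succ, pow_succ]
    have h1 := hG m
    have h2 : (0:ℝ) < (m.factorial : ℝ) := by positivity
    have e2 : (x ^ 2 / 4) ^ m * (x ^ 2 / 4) * (1 / (((m + 1) * m.factorial : ℕ) *
        (((m : ℝ) + ν + 1) * Real.Gamma ((m : ℝ) + ν + 1)))) =
        ((x ^ 2 / 4) ^ m * (1 / (m.factorial * Real.Gamma (m + ν + 1)))) *
          ((x ^ 2 / 4) / (((m : ℝ) + 1) * ((m : ℝ) + ν + 1))) := by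
      push_cast
      field_simp
    rw [e2]
    apply mul_le_of_le_one_right (by positivity)
    rw [div_le_one (by positivity)]
    nlinarith
  have hsum := (pb_bb ν (by linarith)).summableR (x ^ 2)
  have hs2 : HasSum (fun m : ℕ => (-1 : ℝ) ^ m * c m) (fR (bb ν) (x ^ 2) / (1 / 2) ^ ν) := by
    have h1 := hsum.hasSum.div_const ((1 / 2 : ℝ) ^ ν)
    have e : (fun m : ℕ => bb ν m * (x ^ 2) ^ m / (1 / 2) ^ ν) = fun m : ℕ => (-1 : ℝ) ^ m * c m := by
      ext m
      rw [hc]
      unfold bb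
      have h2 : (0:ℝ) < (1 / 2) ^ ν := by positivity
      have e3 : (-1 / 4 : ℝ) ^ m * (x ^ 2) ^ m = (-1) ^ m * (x ^ 2 / 4) ^ m := by
        rw [← mul_pow, ← mul_pow]
        congr 1
        ring
      calc _ = ((1 / 2 : ℝ) ^ ν / (1 / 2) ^ ν) * (1 / (m.factorial * Real.Gamma (m + ν + 1))) *
            ((-1 / 4 : ℝ) ^ m * (x ^ 2) ^ m) := by ring
        _ = _ := by rw [e3, div_self h2.ne']; ring
    rw [e] at h1
    exact h1
  have h1 := hanti.alternating_series_le_tendsto hs2.tendsto_sum_nat 1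
  have h2 : 0 < ∑ i ∈ Finset.range (2 * 1), (-1 : ℝ) ^ i * c i := by
    have e : ∑ i ∈ Finset.range (2 * 1), (-1 : ℝ) ^ i * c i = c 0 - c 1 := by
      simp [Finset.sum_range_succ]; ring
    rw [e, hc]
    simp only [pow_zero, Nat.factorial_zero, Nat.cast_one, one_mul, pow_one, Nat.factorial_one,
      Nat.cast_zero, zero_add]
    have h3 : Real.Gamma (1 + ν + 1) = (ν + 1) * Real.Gamma (ν + 1) := by
      have : (1 + ν + 1) = (ν + 1) + 1 := by ring
      rw [this, Real.Gamma_add_one (by linarith)]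
    rw [h3]
    have h4 : 0 < Real.Gamma (ν + 1) := Real.Gamma_pos_of_pos (by linarith)
    have h5 : 1 / Real.Gamma (ν + 1) - x ^ 2 / 4 * (1 / ((ν + 1) * Real.Gamma (ν + 1))) =
        (1 / Real.Gamma (ν + 1)) * ((4 * (ν + 1) - x ^ 2) / (4 * (ν + 1))) := by
      field_simp
    rw [h5]
    apply mul_pos (by positivity)
    apply div_pos (by linarith) (by linarith)
  have h3 : 0 < fR (bb ν) (x ^ 2) / (1 / 2) ^ ν := lt_of_lt_of_le h2 h1
  have h4 : (0:ℝ) < (1 / 2) ^ ν := by positivity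
  exact (div_pos_iff_of_pos_right h4).mp h3

lemma K_pos_small (ν : ℝ) (hν : 0 < ν) : ∃ ε : ℝ, 0 < ε ∧ ∀ x, 0 < x → x < ε → 0 < Kf ν x := by
  have hpb := (pb_bb ν (by linarith)).mulLin ν
  have hc : ContinuousAt (fun x : ℝ => fR (fun m => (ν + 2 * m) * bb ν m) (x ^ 2)) 0 := by
    have h1 : ContinuousAt (fR (fun m => (ν + 2 * m) * bb ν m)) ((0:ℝ) ^ 2) :=
      (hpb.hasDerivAtR _).continuousAt
    exact ContinuousAt.comp (g := fR (fun m => (ν + 2 * m) * bb ν m)) h1
      (continuous_pow 2).continuousAt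
  have h0 : 0 < fR (fun m => (ν + 2 * m) * bb ν m) ((0:ℝ) ^ 2) := by
    have e : fR (fun m => (ν + 2 * m) * bb ν m) ((0:ℝ) ^ 2) = ν * bb ν 0 := by
      unfold fR
      rw [tsum_eq_single 0]
      · simp
      · intro m hm
        rw [← pow_mul, zero_pow (by omega), mul_zero]
    rw [e]
    have : 0 < Real.Gamma (ν + 1) := Real.Gamma_pos_of_pos (by linarith)
    unfold bb
    simp only [pow_zero, Nat.factorial_zero, Nat.cast_one, one_mul, Nat.cast_zero, zero_add]
    positivity
  have h1 := hc.eventually (lt_mem_nhds h0)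
  obtain ⟨ε, hε, hball⟩ := Metric.eventually_nhds_iff.mp h1
  refine ⟨ε, hε, fun x hx hxε => ?_⟩
  unfold Kf
  apply mul_pos (Real.rpow_pos_of_pos hx ν)
  apply hball
  rw [Real.dist_eq, sub_zero, abs_of_pos hx]
  exact hxε

/-- no zeros in `(0,ν]` -/
lemma zero_gt (ν : ℝ) (hν : 0 < ν) (x : ℝ) (hx : 0 < x) (h : besselJ ν x = 0) : ν < x := by
  by_contra hcon
  push Not at hcon
  obtain ⟨ε, hε, hK⟩ := K_pos_small ν hν
  set e : ℝ := min (min (ε / 2) (x / 2)) 1 with he
  have he0 : 0 < e := lt_min (lt_min (by positivity) (by positivity)) one_pos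
  have he1 : e < ε := lt_of_le_of_lt ((min_le_left _ _).trans (min_le_left _ _)) (by linarith)
  have he2 : e < x := lt_of_le_of_lt ((min_le_left _ _).trans (min_le_right _ _)) (by linarith)
  have he3 : e ≤ 1 := min_le_right _ _
  have hKe := hK e he0 he1
  have hJe := J_pos ν hν e he0 (by nlinarith)
  have hd : ∀ t, 0 < t → HasDerivAt (fun t => besselJ ν t * Kf ν t)
      ((Kf ν t ^ 2 + (ν ^ 2 - t ^ 2) * besselJ ν t ^ 2) / t) t := by
    intro t ht
    refine ((hasDerivAt_J ν (by linarith) t ht).mul (hasDerivAt_K ν (by linarith) t ht)).congr_deriv ?_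
    field_simp
  have hmono : MonotoneOn (fun t => besselJ ν t * Kf ν t) (Icc e x) := by
    apply monotoneOn_of_deriv_nonneg (convex_Icc e x)
    · intro t ht
      exact (hd t (by linarith [ht.1])).continuousAt.continuousWithinAt
    · intro t ht
      rw [interior_Icc] at ht
      exact (hd t (by linarith [ht.1])).differentiableAt.differentiableWithinAt
    · intro t ht
      rw [interior_Icc] at ht
      have ht0 : 0 < t := by linarith [ht.1]
      rw [(hd t ht0).deriv]
      apply div_nonneg _ ht0.le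
      have h1 : t < ν := by linarith [ht.2]
      have h2 : 0 ≤ ν ^ 2 - t ^ 2 := by nlinarith
      positivity
  have h1 := hmono (left_mem_Icc.mpr he2.le) (right_mem_Icc.mpr he2.le) he2.le
  simp only [h, zero_mul] at h1
  have := mul_pos hJe hKe
  linarith

lemma zero_sq_ge (ν : ℝ) (hν : 0 < ν) (x : ℝ) (hx : 0 < x) (h : besselJ ν x = 0) :
    4 * (ν + 1) ≤ x ^ 2 := by
  by_contra hcon
  push Not at hcon
  have := J_pos ν hν x hx hcon
  linarith

/-- zeros are simple -/
lemma K_ne (ν : ℝ) (hν : 0 < ν) (x : ℝ) (hx : 0 < x) (h : besselJ ν x = 0) : Kf ν x ≠ 0 := by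
  intro hK
  set e : ℝ := min (x / 2) 1 with he
  have he0 : 0 < e := lt_min (by positivity) one_pos
  have he1 : e < x := lt_of_le_of_lt (min_le_left _ _) (by linarith)
  have he2 : e ≤ 1 := min_le_right _ _
  have hJe := J_pos ν hν e he0 (by nlinarith)
  set C : ℝ := (1 + ν ^ 2 + x ^ 2) / e with hC
  have hd : ∀ t, 0 < t → HasDerivAt (fun t => (besselJ ν t ^ 2 + Kf ν t ^ 2) * Real.exp (C * t))
      ((2 * besselJ ν t * Kf ν t * ((1 + ν ^ 2 - t ^ 2) / t) +
        C * (besselJ ν t ^ 2 + Kf ν t ^ 2)) * Real.exp (C * t)) t := by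
    intro t ht
    have h1 := ((hasDerivAt_J ν (by linarith) t ht).pow 2).add
      ((hasDerivAt_K ν (by linarith) t ht).pow 2)
    have h2 : HasDerivAt (fun t : ℝ => Real.exp (C * t)) (Real.exp (C * t) * (C * 1)) t :=
      ((hasDerivAt_id t).const_mul C).exp
    refine (h1.mul h2).congr_deriv ?_
    simp only [Pi.add_apply, Pi.pow_apply]
    push_cast
    field_simp
    ring
  have hmono : MonotoneOn (fun t => (besselJ ν t ^ 2 + Kf ν t ^ 2) * Real.exp (C * t))
      (Icc e x) := by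
    apply monotoneOn_of_deriv_nonneg (convex_Icc e x)
    · intro t ht
      exact (hd t (by linarith [ht.1])).continuousAt.continuousWithinAt
    · intro t ht
      rw [interior_Icc] at ht
      exact (hd t (by linarith [ht.1])).differentiableAt.differentiableWithinAt
    · intro t ht
      rw [interior_Icc] at ht
      have ht0 : 0 < t := by linarith [ht.1]
      rw [(hd t ht0).deriv]
      apply mul_nonneg _ (Real.exp_pos _).le
      have h1 : |(1 + ν ^ 2 - t ^ 2) / t| ≤ C := by
        rw [abs_div, abs_of_pos ht0, hC]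
        apply div_le_div₀ (by positivity) _ he0 ht.1.le
        rw [abs_le]
        constructor
        · nlinarith [ht.2]
        · nlinarith [ht.2]
      have h2 := abs_le.mp h1
      have h3 : 0 ≤ (besselJ ν t + Kf ν t) ^ 2 := sq_nonneg _
      have h4 : 0 ≤ (besselJ ν t - Kf ν t) ^ 2 := sq_nonneg _
      set r := (1 + ν ^ 2 - t ^ 2) / t
      set p := besselJ ν t
      set q := Kf ν t
      have e1 : 2 * p * q * r + C * (p ^ 2 + q ^ 2) =
          ((C + r) * (p + q) ^ 2 + (C - r) * (p - q) ^ 2) / 2 := by ring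
      rw [e1]
      have : 0 ≤ C + r := by linarith
      have : 0 ≤ C - r := by linarith
      positivity
  have h1 := hmono (left_mem_Icc.mpr he1.le) (right_mem_Icc.mpr he1.le) he1.le
  simp only [h, hK] at h1
  have h2 : 0 < (besselJ ν e ^ 2 + Kf ν e ^ 2) * Real.exp (C * e) := by
    apply mul_pos _ (Real.exp_pos _)
    have := sq_nonneg (Kf ν e)
    positivity
  simp only [ne_eq, OfNat.ofNat_ne_zero, not_false_eq_true, zero_pow, add_zero, zero_mul] at h1
  linarith

/-- `y = K/J` -/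
def yf (ν x : ℝ) : ℝ := Kf ν x / besselJ ν x

lemma hasDerivAt_y (ν : ℝ) (hν : 0 < ν) (x : ℝ) (hx : 0 < x) (h : besselJ ν x ≠ 0) :
    HasDerivAt (yf ν) (-(x ^ 2 - ν ^ 2 + yf ν x ^ 2) / x) x := by
  refine ((hasDerivAt_K ν (by linarith) x hx).div (hasDerivAt_J ν (by linarith) x hx) h).congr_deriv ?_
  unfold yf
  field_simp
  ring

/-- there are arbitrarily large zeros -/
lemma zeros_unbounded (ν : ℝ) (hν : 0 < ν) (R : ℝ) : ∃ x, R < x ∧ 0 < x ∧ besselJ ν x = 0 := by
  by_contra hcon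
  push Not at hcon
  set R1 : ℝ := max R (2 * ν + 2) with hR1
  have hR1R : R ≤ R1 := le_max_left _ _
  have hR1ν : 2 * ν + 2 ≤ R1 := le_max_right _ _
  have hne : ∀ x, R1 < x → besselJ ν x ≠ 0 := fun x hx => hcon x (by linarith) (by linarith)
  -- `y' ≤ -1`
  have hanti : AntitoneOn (fun x => yf ν x + x) (Ioi R1) := by
    apply antitoneOn_of_deriv_nonpos (convex_Ioi R1)
    · intro t ht
      have ht' : R1 < t := ht
      exact ((hasDerivAt_y ν hν t (by linarith) (hne t ht)).add
        (hasDerivAt_id t)).continuousAt.continuousWithinAt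
    · intro t ht
      rw [interior_Ioi] at ht
      have ht' : R1 < t := ht
      exact ((hasDerivAt_y ν hν t (by linarith) (hne t ht)).add
        (hasDerivAt_id t)).differentiableAt.differentiableWithinAt
    · intro t ht
      rw [interior_Ioi] at ht
      have ht' : R1 < t := ht
      have ht0 : 0 < t := by linarith
      have h1 := ((hasDerivAt_y ν hν t ht0 (hne t ht)).add (hasDerivAt_id t)).deriv
      have h2 : deriv (fun x => yf ν x + x) t = -(t ^ 2 - ν ^ 2 + yf ν t ^ 2) / t + 1 := h1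
      rw [h2]
      have h3 : t ≤ t ^ 2 - ν ^ 2 + yf ν t ^ 2 := by nlinarith [sq_nonneg (yf ν t)]
      rw [neg_div]
      have h4 : 1 ≤ (t ^ 2 - ν ^ 2 + yf ν t ^ 2) / t := by rwa [one_le_div ht0]
      linarith
  set x0 : ℝ := R1 + 1 with hx0
  set x1 : ℝ := x0 + |yf ν x0| + 1 with hx1
  have hneg : ∀ x, x1 ≤ x → yf ν x < 0 := by
    intro x hx
    have h0 := abs_nonneg (yf ν x0)
    have h1 := hanti (show x0 ∈ Ioi R1 from by simp [hx0]) (show x ∈ Ioi R1 from by
      show R1 < x; linarith) (by linarith)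
    simp only at h1
    have := le_abs_self (yf ν x0)
    linarith
  have habs0 := abs_nonneg (yf ν x0)
  have hx1R : R1 < x1 := by linarith
  have hx1pos : 0 < x1 := by linarith
  have hd : ∀ t, x1 ≤ t → HasDerivAt (fun t => (yf ν t)⁻¹ - Real.log t)
      ((t ^ 2 - ν ^ 2 + yf ν t ^ 2) / t / yf ν t ^ 2 - 1 / t) t := by
    intro t ht
    have ht0 : 0 < t := by linarith
    have hy := hneg t ht
    refine (((hasDerivAt_y ν hν t ht0 (hne t (by linarith))).inv hy.ne).sub
      (Real.hasDerivAt_log ht0.ne')).congr_deriv ?_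
    have := hy.ne
    field_simp
  have hmono : MonotoneOn (fun t => (yf ν t)⁻¹ - Real.log t) (Ici x1) := by
    apply monotoneOn_of_deriv_nonneg (convex_Ici x1)
    · intro t ht
      exact (hd t ht).continuousAt.continuousWithinAt
    · intro t ht
      rw [interior_Ici] at ht
      exact (hd t ht.le).differentiableAt.differentiableWithinAt
    · intro t ht
      rw [interior_Ici] at ht
      have ht' : x1 < t := ht
      have ht0 : 0 < t := by linarith
      have hy := hneg t ht'.le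
      rw [(hd t ht'.le).deriv]
      have e : (t ^ 2 - ν ^ 2 + yf ν t ^ 2) / t / yf ν t ^ 2 - 1 / t =
          (t ^ 2 - ν ^ 2) / t / yf ν t ^ 2 := by
        have := hy.ne
        field_simp
        ring
      rw [e]
      have : 0 ≤ t ^ 2 - ν ^ 2 := by nlinarith
      positivity
  set x2 : ℝ := x1 * Real.exp (-(yf ν x1)⁻¹) with hx2
  have hy1 := hneg x1 le_rfl
  have hinv : 0 < -(yf ν x1)⁻¹ := by
    rw [neg_pos]; exact inv_lt_zero.mpr hy1
  have hx12 : x1 ≤ x2 := by
    rw [hx2]
    exact le_mul_of_one_le_right hx1pos.le (Real.one_le_exp hinv.le)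
  have h1 := hmono (show x1 ∈ Ici x1 from le_refl x1) (show x2 ∈ Ici x1 from hx12) hx12
  simp only at h1
  have h2 : Real.log x2 = Real.log x1 + -(yf ν x1)⁻¹ := by
    rw [hx2, Real.log_mul hx1pos.ne' (Real.exp_pos _).ne', Real.log_exp]
  rw [h2] at h1
  have h3 : (yf ν x2)⁻¹ < 0 := inv_lt_zero.mpr (hneg x2 hx12)
  linarith

end

end Pool.Agent.V11287.BG
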