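import Pool.Agent.V11287.BG2

open Filter Topology Set

namespace Pool.Agent.V11287.BG

open Pool.Agent.V11287.BF

noncomputable section

/-- the Turan ratio -/
def turan (ν x : ℝ) : ℝ :=
  (besselJ ν x ^ 2 - besselJ (ν - 1) x * besselJ (ν + 1) x) / besselJ ν x ^ 2

lemma turan_eq (ν : ℝ) (hν : 0 < ν) (x : ℝ) (hx : 0 < x) (h : besselJ ν x ≠ 0) :
    turan ν x = (x ^ 2 - ν ^ 2 + yf ν x ^ 2) / x ^ 2 := by
  have h1 := rec_minus ν hν x hx
  have h2 := rec_plus ν hν x hx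
  have e1 : besselJ (ν - 1) x = (Kf ν x + ν * besselJ ν x) / x := by
    rw [eq_div_iff hx.ne']; linarith
  have e2 : besselJ (ν + 1) x = (ν * besselJ ν x - Kf ν x) / x := by
    rw [eq_div_iff hx.ne']; linarith
  unfold turan yf
  rw [e1, e2]
  field_simp
  ring

/-- the cubic whose zeros are the critical points -/
def cub (ν x : ℝ) : ℝ := yf ν x ^ 3 + yf ν x ^ 2 + (x ^ 2 - ν ^ 2) * yf ν x - ν ^ 2

lemma hasDerivAt_turan (ν : ℝ) (hν : 0 < ν) (x : ℝ) (hx : 0 < x) (h : besselJ ν x ≠ 0) :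
    HasDerivAt (turan ν) (-(2 / x ^ 3) * cub ν x) x := by
  have hJc : ContinuousAt (besselJ ν) x := (hasDerivAt_J ν (by linarith) x hx).continuousAt
  have e : turan ν =ᶠ[𝓝 x] fun t => (t ^ 2 - ν ^ 2 + yf ν t ^ 2) / t ^ 2 := by
    filter_upwards [Ioi_mem_nhds hx, hJc.eventually_ne h] with t ht htJ
    exact turan_eq ν hν t ht htJ
  have hy := hasDerivAt_y ν hν x hx h
  have h1 : HasDerivAt (fun t : ℝ => t ^ 2) (2 * x) x := by simpa using hasDerivAt_pow 2 x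
  have h2 := ((h1.sub_const (ν ^ 2)).add (hy.pow 2)).div h1 (pow_ne_zero 2 hx.ne')
  refine (h2.congr_of_eventuallyEq e).congr_deriv ?_
  unfold cub
  simp only [Pi.add_apply, Pi.pow_apply]
  push_cast
  field_simp
  ring

lemma cub_alg {ν x y : ℝ} (hν : 0 < ν) (h1 : ν < x) (h2 : 4 * (ν + 1) ≤ x ^ 2)
    (h : y ^ 3 + y ^ 2 + (x ^ 2 - ν ^ 2) * y - ν ^ 2 = 0) :
    0 < y ∧ y < ν ∧ x ^ 2 * y = (1 + y) * (ν ^ 2 - y ^ 2) := by
  have hx2 : ν ^ 2 < x ^ 2 := by nlinarith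
  have hy : 0 < y := by
    by_contra hcon
    push Not at hcon
    rcases le_or_gt (ν ^ 2 + 1 / 4) (x ^ 2) with h3 | h3
    · have h4 : y * (y + 1 / 2) ^ 2 ≤ 0 := mul_nonpos_of_nonpos_of_nonneg hcon (sq_nonneg _)
      have h5 : 0 ≤ (x ^ 2 - ν ^ 2 - 1 / 4) * (-y) := mul_nonneg (by linarith) (by linarith)
      nlinarith [sq_nonneg ν, mul_pos hν hν]
    · have h4 : 4 < ν := by nlinarith
      have h5 : 0 ≤ (x ^ 2 - ν ^ 2) * (-y) := mul_nonneg (by linarith) (by linarith)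
      have h6 : y ^ 3 + y ^ 2 ≤ 1 := by
        rcases le_or_gt (-1) y with h7 | h7
        · nlinarith [sq_nonneg y, mul_nonneg (sq_nonneg y) (by linarith : (0:ℝ) ≤ -y)]
        · have : y ^ 2 * (y + 1) ≤ 0 :=
            mul_nonpos_of_nonneg_of_nonpos (sq_nonneg y) (by linarith)
          nlinarith
      nlinarith
  have hid : x ^ 2 * y = (1 + y) * (ν ^ 2 - y ^ 2) := by nlinarith
  refine ⟨hy, ?_, hid⟩
  have hxpos : 0 < x := by linarith
  have h3 : 0 < (1 + y) * (ν ^ 2 - y ^ 2) := by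
    rw [← hid]; positivity
  have h4 : 0 < ν ^ 2 - y ^ 2 := (mul_pos_iff_of_pos_left (by linarith)).mp h3
  nlinarith

lemma hasDerivAt_cub (ν : ℝ) (hν : 0 < ν) (x : ℝ) (hx : 0 < x) (h : besselJ ν x ≠ 0) :
    HasDerivAt (cub ν) (2 * x * yf ν x + (3 * yf ν x ^ 2 + 2 * yf ν x + (x ^ 2 - ν ^ 2)) *
      (-(x ^ 2 - ν ^ 2 + yf ν x ^ 2) / x)) x := by
  have hy := hasDerivAt_y ν hν x hx h
  have h1 : HasDerivAt (fun t : ℝ => t ^ 2) (2 * x) x := by simpa using hasDerivAt_pow 2 x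
  have h2 := (((hy.pow 3).add (hy.pow 2)).add ((h1.sub_const (ν ^ 2)).mul hy)).sub_const (ν ^ 2)
  refine h2.congr_deriv ?_
  push_cast
  ring

lemma cub_deriv_neg {ν x y : ℝ} (hx : 0 < x) (hy : 0 < y) (hyν : y < ν)
    (hid : x ^ 2 * y = (1 + y) * (ν ^ 2 - y ^ 2)) :
    2 * x * y + (3 * y ^ 2 + 2 * y + (x ^ 2 - ν ^ 2)) * (-(x ^ 2 - ν ^ 2 + y ^ 2) / x) < 0 := by
  have hx2 : x ^ 2 = (1 + y) * (ν ^ 2 - y ^ 2) / y := by
    rw [eq_div_iff hy.ne']; exact hid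
  have e : 2 * x * y + (3 * y ^ 2 + 2 * y + (x ^ 2 - ν ^ 2)) * (-(x ^ 2 - ν ^ 2 + y ^ 2) / x) =
      -((ν ^ 2 - y ^ 2) ^ 2 / y ^ 2) / x := by
    rw [eq_div_iff hx.ne']
    have e2 : (2 * x * y + (3 * y ^ 2 + 2 * y + (x ^ 2 - ν ^ 2)) *
        (-(x ^ 2 - ν ^ 2 + y ^ 2) / x)) * x =
        2 * x ^ 2 * y + (3 * y ^ 2 + 2 * y + (x ^ 2 - ν ^ 2)) * (-(x ^ 2 - ν ^ 2 + y ^ 2)) := by
      field_simp
    rw [e2, hx2]
    field_simp
    ring
  rw [e]
  have h1 : 0 < ν ^ 2 - y ^ 2 := by nlinarith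
  have h2 : 0 < (ν ^ 2 - y ^ 2) ^ 2 / y ^ 2 := by positivity
  apply div_neg_of_neg_of_pos (by linarith) hx

/-- Critical point between consecutive zeros. -/
theorem crit_exists_unique (ν : ℝ) (hν : 0 < ν) (a b : ℝ) (ha : 0 < a) (hab : a < b)
    (hJa : besselJ ν a = 0) (hJb : besselJ ν b = 0) (hne : ∀ x ∈ Ioo a b, besselJ ν x ≠ 0) :
    ∃ c ∈ Ioo a b, (0 < yf ν c ∧ yf ν c < ν ∧
      c ^ 2 * yf ν c = (1 + yf ν c) * (ν ^ 2 - yf ν c ^ 2)) ∧
      ∀ x ∈ Ioo a b, (cub ν x = 0 ↔ x = c) := by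
  have haν := zero_gt ν hν a ha hJa
  have hasq := zero_sq_ge ν hν a ha hJa
  have hpos : ∀ x ∈ Icc a b, 0 < x := fun x hx => lt_of_lt_of_le ha hx.1
  have hcJ : ContinuousOn (besselJ ν) (Icc a b) := (contJ ν hν).mono fun x hx => hpos x hx
  have hcK : ContinuousOn (Kf ν) (Icc a b) := (contK ν hν).mono fun x hx => hpos x hx
  have hchar : ∀ x ∈ Ioo a b, cub ν x = 0 → (0 < yf ν x ∧ yf ν x < ν ∧
      x ^ 2 * yf ν x = (1 + yf ν x) * (ν ^ 2 - yf ν x ^ 2)) := by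
    intro x hx h
    apply cub_alg hν (by linarith [hx.1]) _ h
    nlinarith [hx.1]
  -- Rolle
  obtain ⟨c0, hc0, hc0d⟩ := exists_deriv_eq_zero hab hcJ (hJa.trans hJb.symm)
  have hc0pos : 0 < c0 := hpos c0 (Ioo_subset_Icc_self hc0)
  have hKc0 : Kf ν c0 = 0 := by
    rw [(hasDerivAt_J ν (by linarith) c0 hc0pos).deriv] at hc0d
    rcases div_eq_zero_iff.mp hc0d with h | h
    · exact h
    · linarith
  -- constant sign of J
  have hsign : (∀ x ∈ Ioo a b, 0 < besselJ ν x) ∨ (∀ x ∈ Ioo a b, besselJ ν x < 0) := by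
    by_contra hcon
    push Not at hcon
    obtain ⟨⟨u, hu, hu0⟩, ⟨v, hv, hv0⟩⟩ := hcon
    have hcIoo : ContinuousOn (besselJ ν) (Ioo a b) := hcJ.mono Ioo_subset_Icc_self
    have h1 := (isPreconnected_Ioo (a := a) (b := b)).intermediate_value hu hv hcIoo
    obtain ⟨w, hw, hw0⟩ := h1 (show (0:ℝ) ∈ Icc (besselJ ν u) (besselJ ν v) from ⟨hu0, hv0⟩)
    exact hne w hw hw0
  -- K changes sign
  have hKK : Kf ν a * Kf ν b < 0 := by
    rcases hsign with hs | hs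
    · have hanti : StrictAntiOn (Kf ν) (Icc a b) := by
        apply strictAntiOn_of_deriv_neg (convex_Icc a b) hcK
        intro t ht
        rw [interior_Icc] at ht
        have ht0 : 0 < t := by linarith [ht.1]
        rw [(hasDerivAt_K ν (by linarith) t ht0).deriv]
        apply div_neg_of_neg_of_pos _ ht0
        apply mul_neg_of_neg_of_pos _ (hs t ht)
        nlinarith [ht.1]
      have h1 := hanti (left_mem_Icc.mpr hab.le) (Ioo_subset_Icc_self hc0) hc0.1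
      have h2 := hanti (Ioo_subset_Icc_self hc0) (right_mem_Icc.mpr hab.le) hc0.2
      rw [hKc0] at h1 h2
      exact mul_neg_of_pos_of_neg h1 h2
    · have hmono : StrictMonoOn (Kf ν) (Icc a b) := by
        apply strictMonoOn_of_deriv_pos (convex_Icc a b) hcK
        intro t ht
        rw [interior_Icc] at ht
        have ht0 : 0 < t := by linarith [ht.1]
        rw [(hasDerivAt_K ν (by linarith) t ht0).deriv]
        apply div_pos _ ht0
        apply mul_pos_of_neg_of_neg _ (hs t ht)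
        nlinarith [ht.1]
      have h1 := hmono (left_mem_Icc.mpr hab.le) (Ioo_subset_Icc_self hc0) hc0.1
      have h2 := hmono (Ioo_subset_Icc_self hc0) (right_mem_Icc.mpr hab.le) hc0.2
      rw [hKc0] at h1 h2
      exact mul_neg_of_neg_of_pos h1 h2
  -- existence
  set ψ : ℝ → ℝ := fun x => Kf ν x ^ 3 + Kf ν x ^ 2 * besselJ ν x +
    (x ^ 2 - ν ^ 2) * Kf ν x * besselJ ν x ^ 2 - ν ^ 2 * besselJ ν x ^ 3 with hψ
  have hψc : ContinuousOn ψ (Icc a b) := by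
    apply ContinuousOn.sub
    · apply ContinuousOn.add
      · exact (hcK.pow 3).add ((hcK.pow 2).mul hcJ)
      · exact (((continuous_pow 2).continuousOn.sub continuousOn_const).mul hcK).mul (hcJ.pow 2)
    · exact continuousOn_const.mul (hcJ.pow 3)
  have hψa : ψ a = Kf ν a ^ 3 := by simp [hψ, hJa]
  have hψb : ψ b = Kf ν b ^ 3 := by simp [hψ, hJb]
  have hψab : ψ a * ψ b < 0 := by
    rw [hψa, hψb, ← mul_pow]
    exact Odd.pow_neg (by decide) hKK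
  obtain ⟨c, hcI, hψc0⟩ : ∃ c ∈ Icc a b, ψ c = 0 := by
    rcases mul_neg_iff.mp hψab with ⟨h1, h2⟩ | ⟨h1, h2⟩
    · obtain ⟨c, hc, h⟩ := intermediate_value_Icc' hab.le hψc (show (0:ℝ) ∈ Icc (ψ b) (ψ a) from
        ⟨h2.le, h1.le⟩)
      exact ⟨c, hc, h⟩
    · obtain ⟨c, hc, h⟩ := intermediate_value_Icc hab.le hψc (show (0:ℝ) ∈ Icc (ψ a) (ψ b) from
        ⟨h1.le, h2.le⟩)
      exact ⟨c, hc, h⟩
  have hca : c ≠ a := by
    rintro rfl
    rw [hψc0, zero_mul] at hψab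
    exact lt_irrefl _ hψab
  have hcb : c ≠ b := by
    rintro rfl
    rw [hψc0, mul_zero] at hψab
    exact lt_irrefl _ hψab
  have hc : c ∈ Ioo a b := ⟨lt_of_le_of_ne hcI.1 (Ne.symm hca), lt_of_le_of_ne hcI.2 hcb⟩
  have hcub : cub ν c = 0 := by
    have hJc := hne c hc
    have e : cub ν c = ψ c / besselJ ν c ^ 3 := by
      unfold cub yf
      rw [hψ]
      field_simp
    rw [e, hψc0, zero_div]
  refine ⟨c, hc, hchar c hc hcub, fun x hx => ⟨fun h => ?_, fun h => by rw [h]; exact hcub⟩⟩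
  -- uniqueness
  have key : ∀ u ∈ Ioo a b, ∀ v ∈ Ioo a b, u < v → cub ν u = 0 → cub ν v = 0 → False := by
    intro u hu v hv huv hu0 hv0
    have hder : ∀ t ∈ Icc u v, HasDerivAt (cub ν) (2 * t * yf ν t +
        (3 * yf ν t ^ 2 + 2 * yf ν t + (t ^ 2 - ν ^ 2)) *
        (-(t ^ 2 - ν ^ 2 + yf ν t ^ 2) / t)) t := by
      intro t ht
      have htI : t ∈ Ioo a b := ⟨by linarith [ht.1, hu.1], by linarith [ht.2, hv.2]⟩
      exact hasDerivAt_cub ν hν t (by linarith [htI.1]) (hne t htI)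
    have hle : ∀ t ∈ Icc u v, cub ν t ≤ 0 := by
      have := image_le_of_deriv_right_lt_deriv_boundary (f := cub ν) (a := u) (b := v)
        (f' := fun t => 2 * t * yf ν t +
        (3 * yf ν t ^ 2 + 2 * yf ν t + (t ^ 2 - ν ^ 2)) *
        (-(t ^ 2 - ν ^ 2 + yf ν t ^ 2) / t)) (B := fun _ => 0) (B' := fun _ => 0)
        (fun t ht => (hder t ht).continuousAt.continuousWithinAt)
        (fun t ht => (hder t (Ico_subset_Icc_self ht)).hasDerivWithinAt) hu0.le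
        (fun t => hasDerivAt_const t 0) ?_
      · intro t ht; exact this ht
      · intro t ht h0
        have htI : t ∈ Ioo a b := ⟨by linarith [ht.1, hu.1], by linarith [ht.2, hv.2]⟩
        obtain ⟨q1, q2, q3⟩ := hchar t htI h0
        exact cub_deriv_neg (by linarith [htI.1]) q1 q2 q3
    -- contradiction at v
    obtain ⟨q1, q2, q3⟩ := hchar v hv hv0
    have hneg := cub_deriv_neg (x := v) (by linarith [hv.1]) q1 q2 q3
    have hdv := hder v (right_mem_Icc.mpr huv.le)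
    have hslope := hasDerivAt_iff_tendsto_slope.mp hdv
    have h1 : ∀ᶠ t in 𝓝[≠] v, slope (cub ν) v t < 0 := hslope.eventually (gt_mem_nhds hneg)
    have h2 : ∀ᶠ t in 𝓝[<] v, slope (cub ν) v t < 0 :=
      h1.filter_mono (nhdsWithin_mono v fun t ht => ne_of_lt ht)
    have h3 : ∀ᶠ t in 𝓝[<] v, t ∈ Ioo u v := Ioo_mem_nhdsLT huv
    obtain ⟨t, ht1, ht2⟩ := (h2.and h3).exists
    have h4 := hle t ⟨ht2.1.le, ht2.2.le⟩
    rw [slope_def_field, hv0, sub_zero] at ht1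
    have h5 : 0 ≤ cub ν t / (t - v) := div_nonneg_of_nonpos h4 (by linarith [ht2.2])
    linarith
  by_contra hxc
  rcases lt_or_gt_of_ne hxc with h1 | h1
  · exact key x hx c hc h1 h hcub
  · exact key c hc x hx h1 hcub h

/-- monotonicity of the critical values -/
lemma y_anti {ν x x' y y' : ℝ} (hx : 0 < x) (hxx : x < x') (hy : 0 < y) (hyν : y < ν)
    (hy' : 0 < y') (hyν' : y' < ν)
    (h : x ^ 2 * y = (1 + y) * (ν ^ 2 - y ^ 2)) (h' : x' ^ 2 * y' = (1 + y') * (ν ^ 2 - y' ^ 2)) :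
    y' < y := by
  by_contra hcon
  push Not at hcon
  have h1 : x ^ 2 < x' ^ 2 := by nlinarith
  -- x'^2 = (1+1/y')(ν²-y'²) ≤ (1+1/y)(ν²-y²) = x²
  have h2 : x' ^ 2 * y' * y ≤ x ^ 2 * y * y' := by
    rw [h, h']
    have e1 : 0 < ν ^ 2 - y' ^ 2 := by nlinarith
    have e2 : ν ^ 2 - y' ^ 2 ≤ ν ^ 2 - y ^ 2 := by nlinarith
    calc (1 + y') * (ν ^ 2 - y' ^ 2) * y = (y + y' * y) * (ν ^ 2 - y' ^ 2) := by ring
      _ ≤ (y' + y' * y) * (ν ^ 2 - y' ^ 2) := by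
          apply mul_le_mul_of_nonneg_right _ e1.le; linarith
      _ ≤ (y' + y' * y) * (ν ^ 2 - y ^ 2) := by
          apply mul_le_mul_of_nonneg_left e2; positivity
      _ = (1 + y) * (ν ^ 2 - y ^ 2) * y' := by ring
  have h3 : 0 < y * y' := by positivity
  nlinarith

lemma turan_crit (ν : ℝ) (hν : 0 < ν) (x : ℝ) (hx : 0 < x) (h : besselJ ν x ≠ 0)
    (hy : 0 < yf ν x) (hyν : yf ν x < ν)
    (hid : x ^ 2 * yf ν x = (1 + yf ν x) * (ν ^ 2 - yf ν x ^ 2)) :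
    turan ν x = 1 / (1 + yf ν x) := by
  rw [turan_eq ν hν x hx h]
  set y := yf ν x
  have hx2 : ν ^ 2 - y ^ 2 = x ^ 2 * y / (1 + y) := by
    rw [eq_div_iff (by positivity)]; linarith
  have e : x ^ 2 - ν ^ 2 + y ^ 2 = x ^ 2 - (ν ^ 2 - y ^ 2) := by ring
  rw [e, hx2]
  field_simp
  ring

end

end Pool.Agent.V11287.BG
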