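import Mathlib

open Filter Topology Set

namespace Pool.Agent.V11287.BH

noncomputable section

/-- sums of products -/
lemma summable_pi_prod {ι α : Type*} [Fintype ι] [DecidableEq ι] {g : α → ℝ} (hg : ∀ k, 0 ≤ g k)
    (hs : Summable g) : Summable (fun k : ι → α => ∏ i, g (k i)) := by
  classical
  refine summable_of_sum_le (c := ∏ _i : ι, ∑' k, g k) (fun k => Finset.prod_nonneg fun i _ => hg _)
    fun S => ?_
  set T : ι → Finset α := fun i => S.image (fun x => x i) with hT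
  calc ∑ x ∈ S, ∏ i, g (x i) ≤ ∑ x ∈ Fintype.piFinset T, ∏ i, g (x i) := by
        apply Finset.sum_le_sum_of_subset_of_nonneg
        · intro x hx
          rw [Fintype.mem_piFinset]
          intro i
          exact Finset.mem_image_of_mem _ hx
        · intro x _ _
          exact Finset.prod_nonneg fun i _ => hg _
    _ = ∏ i, ∑ k ∈ T i, g k := (Finset.prod_univ_sum T (fun _ k => g k)).symm
    _ ≤ ∏ _i : ι, ∑' k, g k := by
        apply Finset.prod_le_prod
        · intro i _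
          exact Finset.sum_nonneg fun k _ => hg k
        · intro i _
          exact hs.sum_le_tsum _ fun k _ => hg k

lemma summable_int {r : ℝ} (hr : 1 < r) : Summable (fun k : ℤ => (1 + |(k:ℝ)|) ^ (-r)) := by
  have h1 := Real.summable_abs_int_rpow hr
  have h2 : Summable (fun k : ℤ => if k = 0 then (1:ℝ) else 0) := by
    apply summable_of_ne_finset_zero (s := {0})
    intro k hk
    rw [Finset.mem_singleton] at hk
    simp [hk]
  refine Summable.of_nonneg_of_le (fun k => by positivity) (fun k => ?_) (h1.add h2)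
  by_cases hk : k = 0
  · subst hk
    simp only [Int.cast_zero, abs_zero, add_zero, if_true, Real.one_rpow]
    have : (0:ℝ) ≤ (0:ℝ) ^ (-r) := Real.rpow_nonneg le_rfl _
    linarith
  · simp only [hk, if_false, add_zero]
    have hk0 : 0 < |(k:ℝ)| := abs_pos.mpr (by exact_mod_cast hk)
    apply Real.rpow_le_rpow_of_nonpos hk0 (by linarith) (by linarith)

/-- Euclidean norm of an integer vector -/
def eN {n : ℕ} (k : Fin n → ℤ) : ℝ := Real.sqrt (∑ i, (k i : ℝ) ^ 2)

lemma eN_nonneg {n : ℕ} (k : Fin n → ℤ) : 0 ≤ eN k := Real.sqrt_nonneg _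

lemma eN_sq {n : ℕ} (k : Fin n → ℤ) : eN k ^ 2 = ∑ i, (k i : ℝ) ^ 2 :=
  Real.sq_sqrt (Finset.sum_nonneg fun i _ => sq_nonneg _)

lemma abs_le_eN {n : ℕ} (k : Fin n → ℤ) (i : Fin n) : |(k i : ℝ)| ≤ eN k := by
  apply Real.le_sqrt_of_sq_le
  rw [sq_abs]
  exact Finset.single_le_sum (f := fun i => (k i : ℝ) ^ 2) (fun i _ => sq_nonneg _)
    (Finset.mem_univ i)

lemma one_le_eN {n : ℕ} {k : Fin n → ℤ} (hk : k ≠ 0) : 1 ≤ eN k := by
  obtain ⟨i, hi⟩ := Function.ne_iff.mp hk
  have h1 : (1:ℝ) ≤ |(k i : ℝ)| := by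
    have : 1 ≤ |k i| := Int.one_le_abs hi
    exact_mod_cast this
  exact h1.trans (abs_le_eN k i)

/-- sharp summability over the lattice -/
lemma summable_lattice {n : ℕ} (hn : 1 ≤ n) {σ : ℝ} (hσ : (n:ℝ) < σ) :
    Summable (fun k : Fin n → ℤ => (1 + eN k) ^ (-σ)) := by
  have hn0 : (0:ℝ) < n := by exact_mod_cast hn
  have h1 : 1 < σ / n := by rw [lt_div_iff₀ hn0]; linarith
  have h2 := summable_pi_prod (ι := Fin n) (g := fun k : ℤ => (1 + |(k:ℝ)|) ^ (-(σ / n)))
    (fun k => by positivity) (summable_int h1)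
  refine Summable.of_nonneg_of_le (fun k => ?_) (fun k => ?_) h2
  · have := eN_nonneg k
    positivity
  · have hk := eN_nonneg k
    have e : (1 + eN k) ^ (-σ) = ∏ _i : Fin n, (1 + eN k) ^ (-(σ / n)) := by
      rw [Finset.prod_const, Finset.card_univ, Fintype.card_fin, ← Real.rpow_natCast,
        ← Real.rpow_mul (by linarith)]
      congr 1
      field_simp
    rw [e]
    apply Finset.prod_le_prod
    · intro i _; positivity
    · intro i _
      apply Real.rpow_le_rpow_of_nonpos (by positivity)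
      · have := abs_le_eN k i
        linarith
      · have : 0 < σ / n := by linarith
        linarith

/-- the `ℓ¹` size of a tuple of integer vectors, in product form -/
def pN {q n : ℕ} (l : Fin q → Fin n → ℤ) : ℝ := ∏ p : Fin q × Fin n, (1 + |(l p.1 p.2 : ℝ)|)

lemma one_le_pN {q n : ℕ} (l : Fin q → Fin n → ℤ) : 1 ≤ pN l := by
  unfold pN
  calc (1:ℝ) = ∏ _p : Fin q × Fin n, (1:ℝ) := by simp
    _ ≤ _ := by
      apply Finset.prod_le_prod (fun _ _ => zero_le_one)
      intro p _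
      have := abs_nonneg (l p.1 p.2 : ℝ)
      linarith

/-- rapidly decreasing families -/
def Rapid {q n : ℕ} (b : (Fin q → Fin n → ℤ) → ℂ) : Prop :=
  ∀ m : Fin q × Fin n → ℕ, ∃ C : ℝ, ∀ l, (∏ p, |(l p.1 p.2 : ℝ)| ^ m p) * ‖b l‖ ≤ C

lemma Rapid.bound {q n : ℕ} {b : (Fin q → Fin n → ℤ) → ℂ} (hb : Rapid b) (M : ℕ) :
    ∃ C : ℝ, 0 ≤ C ∧ ∀ l, pN l ^ M * ‖b l‖ ≤ C := by
  classical
  choose C hC using hb
  set T : Finset (Fin q × Fin n) := Finset.univ with hT
  refine ⟨∑ A ∈ T.powerset, (2:ℝ) ^ (M * T.card) * |C (fun p => if p ∈ A then M else 0)|,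
    Finset.sum_nonneg fun A _ => by positivity, fun l => ?_⟩
  have h1 : pN l ^ M ≤ (2:ℝ) ^ (M * T.card) * ∏ p ∈ T, (1 + |(l p.1 p.2 : ℝ)| ^ M) := by
    unfold pN
    rw [← Finset.prod_pow, pow_mul, ← Finset.prod_const, ← Finset.prod_mul_distrib]
    apply Finset.prod_le_prod
    · intro p _; positivity
    · intro p _
      have hx := abs_nonneg (l p.1 p.2 : ℝ)
      set x := |(l p.1 p.2 : ℝ)|
      rcases le_total x 1 with h | h
      · calc (1 + x) ^ M ≤ 2 ^ M := by gcongr; linarith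
          _ ≤ 2 ^ M * (1 + x ^ M) := by
            apply le_mul_of_one_le_right (by positivity)
            have : 0 ≤ x ^ M := by positivity
            linarith
      · calc (1 + x) ^ M ≤ (2 * x) ^ M := by gcongr; linarith
          _ = 2 ^ M * x ^ M := mul_pow _ _ _
          _ ≤ 2 ^ M * (1 + x ^ M) := by gcongr; linarith
  calc pN l ^ M * ‖b l‖ ≤ ((2:ℝ) ^ (M * T.card) * ∏ p ∈ T, (1 + |(l p.1 p.2 : ℝ)| ^ M)) * ‖b l‖ := by
        gcongr
    _ = ∑ A ∈ T.powerset, (2:ℝ) ^ (M * T.card) * ((∏ p ∈ A, |(l p.1 p.2 : ℝ)| ^ M) * ‖b l‖) := by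
        rw [Finset.prod_one_add, Finset.mul_sum, Finset.sum_mul]
        apply Finset.sum_congr rfl
        intro A _
        ring
    _ ≤ _ := by
        apply Finset.sum_le_sum
        intro A _
        apply mul_le_mul_of_nonneg_left _ (by positivity)
        refine le_trans (le_of_eq ?_) ((hC (fun p => if p ∈ A then M else 0) l).trans (le_abs_self _))
        congr 1
        have h2 : ∀ p : Fin q × Fin n, |(l p.1 p.2 : ℝ)| ^ (if p ∈ A then M else 0) =
            if p ∈ A then |(l p.1 p.2 : ℝ)| ^ M else 1 := by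
          intro p
          split_ifs <;> simp
        rw [Finset.prod_congr rfl (fun p _ => h2 p), Finset.prod_ite_mem, Finset.univ_inter]

lemma pN_eq {q n : ℕ} (l : Fin q → Fin n → ℤ) : pN l = ∏ i, ∏ j, (1 + |(l i j : ℝ)|) :=
  Fintype.prod_prod_type' (f := fun i j => (1 + |(l i j : ℝ)|))

lemma inv_sq_eq {q n : ℕ} (l : Fin q → Fin n → ℤ) :
    ∏ i, ∏ j, (1 + |(l i j : ℝ)|) ^ (-2 : ℝ) = (pN l ^ 2)⁻¹ := by
  have e2 : ∀ x : ℝ, (1 + |x|) ^ (-2 : ℝ) = ((1 + |x|) ^ 2)⁻¹ := by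
    intro x
    rw [Real.rpow_neg (by positivity)]
    norm_num
  rw [pN_eq, ← Finset.prod_pow, ← Finset.prod_inv_distrib]
  apply Finset.prod_congr rfl
  intro i _
  rw [← Finset.prod_pow, ← Finset.prod_inv_distrib]
  apply Finset.prod_congr rfl
  intro j _
  exact e2 _

lemma summable_inv_sq {q n : ℕ} : Summable (fun l : Fin q → Fin n → ℤ => (pN l ^ 2)⁻¹) := by
  have h1 : Summable (fun k : Fin n → ℤ => ∏ j, (1 + |(k j : ℝ)|) ^ (-2 : ℝ)) :=
    summable_pi_prod (g := fun k : ℤ => (1 + |(k : ℝ)|) ^ (-2 : ℝ)) (fun k => by positivity)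
      (summable_int (by norm_num))
  have h2 : Summable (fun l : Fin q → Fin n → ℤ => ∏ i, ∏ j, (1 + |(l i j : ℝ)|) ^ (-2 : ℝ)) :=
    summable_pi_prod (g := fun k : Fin n → ℤ => ∏ j, (1 + |(k j : ℝ)|) ^ (-2 : ℝ))
      (fun k => Finset.prod_nonneg fun j _ => by positivity) h1
  exact h2.congr fun l => inv_sq_eq l

lemma Rapid.summable {q n : ℕ} {b : (Fin q → Fin n → ℤ) → ℂ} (hb : Rapid b) (M : ℕ) :
    Summable (fun l => pN l ^ M * ‖b l‖) := by
  obtain ⟨C, hC, hbd⟩ := hb.bound (M + 2)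
  refine Summable.of_nonneg_of_le (fun l => ?_) (fun l => ?_) (summable_inv_sq.mul_left C)
  · have := one_le_pN l
    positivity
  · have hp := one_le_pN l
    have hp0 : 0 < pN l := by linarith
    have h3 := hbd l
    rw [← div_eq_mul_inv, le_div_iff₀ (by positivity)]
    calc pN l ^ M * ‖b l‖ * pN l ^ 2 = pN l ^ (M + 2) * ‖b l‖ := by ring
      _ ≤ C := h3

end

end Pool.Agent.V11287.BH
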