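import Pool.Agent.V11287.BH1

open Filter Topology Set Metric

namespace Pool.Agent.V11287.BH

noncomputable section

/-- backward difference of a function of a complex variable -/
def dl (g : ℂ → ℂ) : ℂ → ℂ := fun z => g z - g (z - 1)

lemma dl_bound {g : ℂ → ℂ} {R M : ℝ} (hg : DifferentiableOn ℂ g (ball 0 R))
    (hM : ∀ z ∈ ball (0:ℂ) R, ‖g z‖ ≤ M) {δ : ℝ} (hδ : 2 ≤ δ) :
    DifferentiableOn ℂ (dl g) (ball 0 (R - δ)) ∧
      ∀ z ∈ ball (0:ℂ) (R - δ), ‖dl g z‖ ≤ M * (2 / δ) := by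
  have hsub : ∀ z ∈ ball (0:ℂ) (R - δ), z ∈ ball (0:ℂ) (R - δ + 1) ∧
      z - 1 ∈ ball (0:ℂ) (R - δ + 1) := by
    intro z hz
    rw [mem_ball_zero_iff] at hz
    constructor
    · rw [mem_ball_zero_iff]; linarith
    · rw [mem_ball_zero_iff]
      calc ‖z - 1‖ ≤ ‖z‖ + ‖(1:ℂ)‖ := norm_sub_le _ _
        _ < R - δ + 1 := by rw [norm_one]; linarith
  have hmem : ∀ w ∈ ball (0:ℂ) (R - δ + 1), w ∈ ball (0:ℂ) R := by
    intro w hw
    rw [mem_ball_zero_iff] at hw ⊢
    linarith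
  constructor
  · intro z hz
    obtain ⟨h1, h2⟩ := hsub z hz
    have d1 := hg.differentiableAt (isOpen_ball.mem_nhds (hmem z h1))
    have d2 := hg.differentiableAt (isOpen_ball.mem_nhds (hmem (z - 1) h2))
    apply DifferentiableAt.differentiableWithinAt
    exact d1.sub (d2.comp z ((differentiableAt_id).sub_const 1))
  · intro z hz
    obtain ⟨h1, h2⟩ := hsub z hz
    have hder : ∀ w ∈ ball (0:ℂ) (R - δ + 1), ‖deriv g w‖ ≤ M * (2 / δ) := by
      intro w hw
      rw [mem_ball_zero_iff] at hw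
      have hcl : closedBall w (δ - 1) ⊆ ball (0:ℂ) R := by
        intro v hv
        rw [mem_closedBall, dist_eq_norm] at hv
        rw [mem_ball_zero_iff]
        calc ‖v‖ = ‖(v - w) + w‖ := by ring_nf
          _ ≤ ‖v - w‖ + ‖w‖ := norm_add_le _ _
          _ < R := by linarith
      have hM0 : 0 ≤ M := (norm_nonneg _).trans (hM w (hmem w (by rw [mem_ball_zero_iff]; exact hw)))
      have h3 := Complex.norm_deriv_le_of_forall_mem_sphere_norm_le (c := w) (R := δ - 1) (C := M)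
        (f := g) (by linarith) (hg.diffContOnCl_ball hcl)
        (fun v hv => hM v (hcl (sphere_subset_closedBall hv)))
      refine h3.trans ?_
      rw [div_eq_mul_inv]
      apply mul_le_mul_of_nonneg_left _ hM0
      rw [inv_eq_one_div]
      rw [div_le_div_iff₀ (by linarith) (by linarith)]
      linarith
    have h3 := (convex_ball (0:ℂ) (R - δ + 1)).norm_image_sub_le_of_norm_deriv_le
      (f := g) (C := M * (2 / δ))
      (fun w hw => hg.differentiableAt (isOpen_ball.mem_nhds (hmem w hw))) hder h2 h1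
    have e : z - (z - 1) = 1 := by ring
    rw [e, norm_one, mul_one] at h3
    exact h3

lemma dl_iter_bound {g : ℂ → ℂ} {R M : ℝ} (hg : DifferentiableOn ℂ g (ball 0 R))
    (hM : ∀ z ∈ ball (0:ℂ) R, ‖g z‖ ≤ M) {δ : ℝ} (hδ : 2 ≤ δ) (N : ℕ) :
    DifferentiableOn ℂ (dl^[N] g) (ball 0 (R - N * δ)) ∧
      ∀ z ∈ ball (0:ℂ) (R - N * δ), ‖dl^[N] g z‖ ≤ M * (2 / δ) ^ N := by
  induction N with
  | zero =>
    simp only [Function.iterate_zero, id, Nat.cast_zero, zero_mul, sub_zero, pow_zero, mul_one]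
    exact ⟨hg, hM⟩
  | succ N ih =>
    rw [Function.iterate_succ_apply']
    have h := dl_bound ih.1 ih.2 hδ
    have e : R - ((N + 1 : ℕ) : ℝ) * δ = R - N * δ - δ := by push_cast; ring
    rw [e]
    refine ⟨h.1, fun z hz => ?_⟩
    rw [pow_succ, ← mul_assoc]
    exact h.2 z hz

variable {n : ℕ}

/-- backward difference of a function on the lattice -/
def nab (e : Fin n → ℤ) (φ : (Fin n → ℤ) → ℂ) : (Fin n → ℤ) → ℂ := fun k => φ k - φ (k - e)

lemma nab_eq_dl {e : Fin n → ℤ} {φ : (Fin n → ℤ) → ℂ} {k : Fin n → ℤ} {g : ℂ → ℂ} {M : ℕ}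
    (h : ∀ i : ℕ, i ≤ M → φ (k - i • e) = g (-i)) (N : ℕ) :
    N ≤ M → ∀ i : ℕ, i ≤ M - N → (nab e)^[N] φ (k - i • e) = (dl^[N] g) (-i) := by
  induction N with
  | zero => intro _ i hi; exact h i (by omega)
  | succ N ih =>
    intro hN i hi
    rw [Function.iterate_succ_apply', Function.iterate_succ_apply']
    unfold nab dl
    have h1 := ih (by omega) i (by omega)
    have h2 := ih (by omega) (i + 1) (by omega)
    have e1 : k - i • e - e = k - (i + 1) • e := by rw [add_smul, one_smul]; abel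
    have e2 : (-(i : ℂ) - 1) = -((i + 1 : ℕ) : ℂ) := by push_cast; ring
    unfold nab at h1 h2
    rw [e1, e2]
    unfold dl at h1 h2
    rw [h1, h2]

lemma nab_iter_le {e : Fin n → ℤ} {φ : (Fin n → ℤ) → ℂ} {B : ℝ} {k : Fin n → ℤ} (N : ℕ) :
    ∀ M : ℕ, (∀ i : ℕ, i ≤ N + M → ‖φ (k - i • e)‖ ≤ B) → ∀ i : ℕ, i ≤ M →
      ‖(nab e)^[N] φ (k - i • e)‖ ≤ 2 ^ N * B := by
  induction N with
  | zero => intro M h i hi; simpa using h i (by omega)
  | succ N ih =>
    intro M h i hi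
    rw [Function.iterate_succ_apply']
    unfold nab
    have h1 := ih (M + 1) (fun i hi => h i (by omega)) i (by omega)
    have h2 := ih (M + 1) (fun i hi => h i (by omega)) (i + 1) (by omega)
    have e1 : k - i • e - e = k - (i + 1) • e := by rw [add_smul, one_smul]; abel
    rw [e1]
    unfold nab at h1 h2
    refine (norm_sub_le _ _).trans ?_
    rw [pow_succ]
    linarith

/-- bound for a homogeneous polynomial -/
lemma poly_bound (P : MvPolynomial (Fin n) ℂ) {d : ℕ} (hP : P.IsHomogeneous d) :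
    ∃ C : ℝ, 0 ≤ C ∧ ∀ (x : Fin n → ℂ) (X : ℝ), 0 ≤ X → (∀ i, ‖x i‖ ≤ X) →
      ‖MvPolynomial.eval x P‖ ≤ C * X ^ d := by
  refine ⟨∑ m ∈ P.support, ‖P.coeff m‖, Finset.sum_nonneg fun _ _ => norm_nonneg _,
    fun x X hX hx => ?_⟩
  rw [MvPolynomial.eval_eq', Finset.sum_mul]
  refine (norm_sum_le _ _).trans ?_
  apply Finset.sum_le_sum
  intro m hm
  rw [norm_mul]
  apply mul_le_mul_of_nonneg_left _ (norm_nonneg _)
  rw [norm_prod]
  have hd : ∑ i, m i = d := by
    have h1 := hP (MvPolynomial.mem_support_iff.mp hm)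
    rw [← h1]
    simp [Finsupp.weight_apply, Finsupp.sum_fintype]
  rw [← hd, ← Finset.prod_pow_eq_pow_sum]
  apply Finset.prod_le_prod
  · intro i _; exact norm_nonneg _
  · intro i _
    rw [norm_pow]
    exact pow_le_pow_left₀ (norm_nonneg _) (hx i) _

/-- the summand `P(k) ‖k‖^{-s}` -/
def ph (P : MvPolynomial (Fin n) ℂ) (s : ℂ) (k : Fin n → ℤ) : ℂ :=
  if k = 0 then 0 else MvPolynomial.eval (fun i => (k i : ℂ)) P * (eN k : ℂ) ^ (-s)

/-- its holomorphic extension in the direction `j` -/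
def vec (k : Fin n → ℤ) (j : Fin n) (z : ℂ) : Fin n → ℂ := fun i => (k i : ℂ) + if i = j then z else 0

def gk (P : MvPolynomial (Fin n) ℂ) (s : ℂ) (k : Fin n → ℤ) (j : Fin n) (z : ℂ) : ℂ :=
  MvPolynomial.eval (vec k j z) P * (∑ i, vec k j z i ^ 2) ^ (-s / 2)

lemma sum_vec_sq (k : Fin n → ℤ) (j : Fin n) (z : ℂ) :
    ∑ i, vec k j z i ^ 2 = ((eN k ^ 2 : ℝ) : ℂ) + 2 * (k j : ℂ) * z + z ^ 2 := by
  have h1 : ∀ i, vec k j z i ^ 2 = (k i : ℂ) ^ 2 + (if i = j then 2 * (k i : ℂ) * z + z ^ 2 else 0) := by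
    intro i
    unfold vec
    split_ifs
    · ring
    · ring
  simp_rw [h1]
  rw [Finset.sum_add_distrib, Finset.sum_ite_eq' Finset.univ j, if_pos (Finset.mem_univ j), eN_sq]
  push_cast
  ring

lemma cpow_eN {k : Fin n → ℤ} (hk : k ≠ 0) (s : ℂ) :
    (eN k : ℂ) ^ (-s) = ((eN k ^ 2 : ℝ) : ℂ) ^ (-s / 2) := by
  have h1 : 0 < eN k := lt_of_lt_of_le one_pos (one_le_eN hk)
  rw [Complex.cpow_def_of_ne_zero (by exact_mod_cast h1.ne'),
    Complex.cpow_def_of_ne_zero (by exact_mod_cast (by positivity : eN k ^ 2 ≠ 0)),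
    ← Complex.ofReal_log h1.le, ← Complex.ofReal_log (by positivity), Real.log_pow]
  congr 1
  push_cast
  ring

/-- unit vector -/
def ej (j : Fin n) : Fin n → ℤ := Pi.single j 1

lemma ph_eq_gk (P : MvPolynomial (Fin n) ℂ) (s : ℂ) (k : Fin n → ℤ) (j : Fin n) (i : ℕ)
    (h : k - i • ej j ≠ 0) :
    ph P s (k - i • ej j) = gk P s k j (-i) := by
  unfold ph gk
  rw [if_neg h]
  have hv : (fun t => (((k - i • ej j) t : ℤ) : ℂ)) = vec k j (-i) := by
    ext t
    unfold vec ej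
    by_cases ht : t = j
    · subst ht; simp; ring
    · simp [ht]
  rw [cpow_eN h, eN_sq, hv]
  congr 2
  push_cast
  apply Finset.sum_congr rfl
  intro t _
  rw [← congrFun hv t]

end

end Pool.Agent.V11287.BH
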