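import Pool.Agent.V11287.BH2

open Filter Topology Set Metric

namespace Pool.Agent.V11287.BH

noncomputable section

variable {n : ℕ}

lemma rpow_between {x p S : ℝ} (h1 : 1 / 3 ≤ x) (h3 : x ≤ 3) (hp : |p| ≤ S) : x ^ p ≤ 3 ^ S := by
  have hx : 0 < x := by linarith
  have hp' := abs_le.mp hp
  rcases le_total 0 p with h | h
  · calc x ^ p ≤ 3 ^ p := Real.rpow_le_rpow hx.le h3 h
      _ ≤ 3 ^ S := Real.rpow_le_rpow_of_exponent_le (by norm_num) hp'.2
  · have e : x ^ p = (x⁻¹) ^ (-p) := by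
      rw [Real.inv_rpow hx.le, Real.rpow_neg hx.le, inv_inv]
    rw [e]
    have h4 : x⁻¹ ≤ 3 := by
      rw [inv_le_comm₀ hx (by norm_num)]; linarith
    calc (x⁻¹) ^ (-p) ≤ 3 ^ (-p) := Real.rpow_le_rpow (by positivity) h4 (by linarith)
      _ ≤ 3 ^ S := Real.rpow_le_rpow_of_exponent_le (by norm_num) (by linarith)

/-- the base of the power on the ball of radius `T/4` -/
lemma base_bounds {k : Fin n → ℤ} (hk : k ≠ 0) (j : Fin n) {z : ℂ} (hz : ‖z‖ < eN k / 4) :
    (∑ i, vec k j z i ^ 2) ∈ Complex.slitPlane ∧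
      1 / 3 * eN k ^ 2 ≤ ‖∑ i, vec k j z i ^ 2‖ ∧ ‖∑ i, vec k j z i ^ 2‖ ≤ 3 * eN k ^ 2 := by
  set T := eN k with hT
  have hT1 : 1 ≤ T := one_le_eN hk
  rw [sum_vec_sq]
  set w : ℂ := 2 * (k j : ℂ) * z + z ^ 2 with hw
  have hwn : ‖w‖ ≤ 9 / 16 * T ^ 2 := by
    have h1 : ‖w‖ ≤ 2 * T * ‖z‖ + ‖z‖ ^ 2 := by
      rw [hw]
      refine (norm_add_le _ _).trans ?_
      rw [norm_mul, norm_mul, norm_pow]
      have h2 : ‖(k j : ℂ)‖ ≤ T := by
        have := abs_le_eN k j
        rw [Complex.norm_intCast]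
        exact this
      have h3 : ‖(2:ℂ)‖ = 2 := by norm_num
      rw [h3]
      gcongr
    nlinarith [norm_nonneg z]
  have e : ((T ^ 2 : ℝ) : ℂ) + 2 * (k j : ℂ) * z + z ^ 2 = ((T ^ 2 : ℝ) : ℂ) + w := by
    rw [hw]; ring
  rw [e]
  have hre : |w.re| ≤ ‖w‖ := Complex.abs_re_le_norm w
  have hTn : ‖((T ^ 2 : ℝ) : ℂ)‖ = T ^ 2 := by
    rw [Complex.norm_real, Real.norm_eq_abs, abs_of_nonneg (by positivity)]
  have hT2 : 0 < T ^ 2 := by positivity
  refine ⟨?_, ?_, ?_⟩
  · rw [Complex.mem_slitPlane_iff]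
    left
    rw [Complex.add_re, Complex.ofReal_re]
    have := (abs_le.mp hre).1
    linarith
  · have h1 : ‖((T ^ 2 : ℝ) : ℂ)‖ - ‖w‖ ≤ ‖((T ^ 2 : ℝ) : ℂ) + w‖ := by
      have := norm_sub_norm_le ((T ^ 2 : ℝ) : ℂ) (-w)
      rwa [norm_neg, sub_neg_eq_add] at this
    rw [hTn] at h1
    linarith
  · refine (norm_add_le _ _).trans ?_
    rw [hTn]
    linarith

lemma gk_bound (P : MvPolynomial (Fin n) ℂ) {d : ℕ} (hP : P.IsHomogeneous d) :
    ∃ C : ℝ, 0 ≤ C ∧ ∀ (S : ℝ), 0 ≤ S → ∀ (s : ℂ), ‖s‖ ≤ S → ∀ (k : Fin n → ℤ), k ≠ 0 → ∀ j : Fin n,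
      DifferentiableOn ℂ (gk P s k j) (ball 0 (eN k / 4)) ∧
      ∀ z ∈ ball (0:ℂ) (eN k / 4),
        ‖gk P s k j z‖ ≤ (C * 2 ^ d * 3 ^ S * Real.exp (2 * S)) * eN k ^ ((d : ℝ) - s.re) := by
  obtain ⟨C, hC, hCb⟩ := poly_bound P hP
  refine ⟨C, hC, fun S hS s hs k hk j => ⟨?_, fun z hz => ?_⟩⟩
  · intro z hz
    rw [mem_ball_zero_iff] at hz
    obtain ⟨h1, -, -⟩ := base_bounds hk j hz
    apply DifferentiableAt.differentiableWithinAt
    have hv : ∀ i, DifferentiableAt ℂ (fun z => vec k j z i) z := by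
      intro i
      unfold vec
      by_cases hij : i = j
      · simp only [hij, if_true]; fun_prop
      · simp only [hij, if_false]; fun_prop
    unfold gk
    apply DifferentiableAt.mul
    · have : (fun z => MvPolynomial.eval (vec k j z) P) = fun z =>
          ∑ m ∈ P.support, P.coeff m * ∏ i, vec k j z i ^ m i := by
        ext z
        rw [MvPolynomial.eval_eq']
      rw [this]
      apply DifferentiableAt.fun_sum
      intro m _
      apply DifferentiableAt.const_mul
      exact DifferentiableAt.fun_finset_prod fun i _ => (hv i).pow _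
    · refine DifferentiableAt.cpow (f := fun z => ∑ i, vec k j z i ^ 2) (g := fun _ => -s / 2)
        ?_ (differentiableAt_const _) h1
      exact DifferentiableAt.fun_sum fun i _ => (hv i).pow _
  · rw [mem_ball_zero_iff] at hz
    set T := eN k with hT
    have hT1 : 1 ≤ T := one_le_eN hk
    have hT0 : 0 < T := by linarith
    obtain ⟨h1, h2, h3⟩ := base_bounds hk j hz
    set W : ℂ := ∑ i, vec k j z i ^ 2 with hW
    have hWne : W ≠ 0 := Complex.slitPlane_ne_zero h1
    have hW0 : 0 < ‖W‖ := norm_pos_iff.mpr hWne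
    have hpoly : ‖MvPolynomial.eval (vec k j z) P‖ ≤ C * (2 * T) ^ d := by
      apply hCb _ _ (by positivity)
      intro i
      unfold vec
      refine (norm_add_le _ _).trans ?_
      have h4 : ‖(k i : ℂ)‖ ≤ T := by
        rw [Complex.norm_intCast]
        exact abs_le_eN k i
      have h5 : ‖(if i = j then z else 0 : ℂ)‖ ≤ T := by
        split_ifs
        · linarith
        · rw [norm_zero]; exact hT0.le
      linarith
    have hsre : |s.re| ≤ S := (Complex.abs_re_le_norm s).trans hs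
    have hsim : |s.im| ≤ S := (Complex.abs_im_le_norm s).trans hs
    have hpow : ‖W ^ (-s / 2)‖ ≤ T ^ (-s.re) * 3 ^ S * Real.exp (2 * S) := by
      rw [Complex.norm_cpow_of_ne_zero hWne]
      have hre2 : (-s / 2).re = -s.re / 2 := by simp
      have him2 : (-s / 2).im = -s.im / 2 := by simp
      rw [hre2, him2, div_eq_mul_inv, ← Real.exp_neg]
      apply mul_le_mul _ _ (Real.exp_pos _).le (by positivity)
      · set x : ℝ := ‖W‖ / T ^ 2 with hx
        have hWx : ‖W‖ = T ^ 2 * x := by rw [hx]; field_simp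
        have hx1 : 1 / 3 ≤ x := by rw [hx, le_div_iff₀ (by positivity)]; exact h2
        have hx3 : x ≤ 3 := by rw [hx, div_le_iff₀ (by positivity)]; exact h3
        rw [hWx, Real.mul_rpow (by positivity) (by linarith)]
        have e1 : (T ^ 2) ^ (-s.re / 2) = T ^ (-s.re) := by
          rw [← Real.rpow_natCast, ← Real.rpow_mul hT0.le]
          congr 1
          push_cast
          ring
        rw [e1]
        apply mul_le_mul_of_nonneg_left _ (by positivity)
        apply rpow_between hx1 hx3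
        rw [abs_div, abs_neg, abs_of_pos (by norm_num : (0:ℝ) < 2)]
        linarith [abs_nonneg s.re]
      · apply Real.exp_le_exp.mpr
        have h6 : |W.arg * (-s.im / 2)| ≤ 2 * S := by
          rw [abs_mul, abs_div, abs_neg, abs_of_pos (by norm_num : (0:ℝ) < 2)]
          have h7 : |W.arg| ≤ Real.pi := Complex.abs_arg_le_pi W
          have h8 := Real.pi_lt_four
          calc |W.arg| * (|s.im| / 2) ≤ 4 * (S / 2) := by
                apply mul_le_mul (by linarith) (by linarith) (by positivity) (by norm_num)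
            _ = 2 * S := by ring
        have := (abs_le.mp h6).1
        linarith
    unfold gk
    rw [norm_mul]
    calc ‖MvPolynomial.eval (vec k j z) P‖ * ‖W ^ (-s / 2)‖ ≤
        (C * (2 * T) ^ d) * (T ^ (-s.re) * 3 ^ S * Real.exp (2 * S)) :=
          mul_le_mul hpoly hpow (norm_nonneg _) (by positivity)
      _ = (C * 2 ^ d * 3 ^ S * Real.exp (2 * S)) * T ^ ((d : ℝ) - s.re) := by
          rw [mul_pow, sub_eq_add_neg, Real.rpow_add hT0, Real.rpow_natCast]
          ring

lemma eN_le_sum (k : Fin n → ℤ) : eN k ≤ ∑ i, |(k i : ℝ)| := by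
  apply Real.sqrt_le_iff.mpr
  refine ⟨Finset.sum_nonneg fun i _ => abs_nonneg _, ?_⟩
  set S : ℝ := ∑ i, |(k i : ℝ)| with hS
  calc ∑ i, (k i : ℝ) ^ 2 = ∑ i, |(k i : ℝ)| * |(k i : ℝ)| := by
        apply Finset.sum_congr rfl
        intro i _
        rw [abs_mul_abs_self, sq]
    _ ≤ ∑ i, S * |(k i : ℝ)| := by
        apply Finset.sum_le_sum
        intro i _
        apply mul_le_mul_of_nonneg_right _ (abs_nonneg _)
        exact Finset.single_le_sum (f := fun i => |(k i : ℝ)|) (fun i _ => abs_nonneg _)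
          (Finset.mem_univ i)
    _ = S ^ 2 := by rw [← Finset.mul_sum, sq]

lemma eN_sub_le (k : Fin n → ℤ) (j : Fin n) (i : ℕ) : eN (k - i • ej j) ≤ n * eN k + i := by
  refine (eN_le_sum _).trans ?_
  have h1 : ∀ t : Fin n, |(((k - i • ej j) t : ℤ) : ℝ)| ≤ eN k + if t = j then (i:ℝ) else 0 := by
    intro t
    have h2 := abs_le_eN k t
    unfold ej
    by_cases ht : t = j
    · subst ht
      simp only [Pi.sub_apply, Pi.smul_apply, Pi.single_eq_same, if_true]
      push_cast
      simp only [nsmul_eq_mul, mul_one]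
      refine (abs_sub _ _).trans ?_
      have hi : |((i : ℤ) : ℝ)| = i := by
        rw [Int.cast_natCast]
        exact abs_of_nonneg (Nat.cast_nonneg i)
      rw [hi]
      linarith
    · simp only [Pi.sub_apply, Pi.smul_apply, ht, if_false, ne_eq, not_false_eq_true,
        Pi.single_eq_of_ne, smul_zero, sub_zero, add_zero]
      exact h2
  calc ∑ t, |(((k - i • ej j) t : ℤ) : ℝ)| ≤ ∑ t : Fin n, (eN k + if t = j then (i:ℝ) else 0) :=
        Finset.sum_le_sum fun t _ => h1 t
    _ = n * eN k + i := by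
        rw [Finset.sum_add_distrib, Finset.sum_const, Finset.card_univ, Fintype.card_fin,
          nsmul_eq_mul, Finset.sum_ite_eq' Finset.univ j, if_pos (Finset.mem_univ j)]

/-- **Main bound.** -/
theorem nab_bound (P : MvPolynomial (Fin n) ℂ) {d : ℕ} (hP : P.IsHomogeneous d) (S : ℝ)
    (hS : 0 ≤ S) (N : ℕ) : ∃ C : ℝ, 0 ≤ C ∧ ∀ (s : ℂ), ‖s‖ ≤ S → ∀ (j : Fin n) (k : Fin n → ℤ),
      ‖(nab (ej j))^[N] (ph P s) k‖ ≤ C * (1 + eN k) ^ ((d : ℝ) - s.re - N) := by
  obtain ⟨C, hC, hCb⟩ := gk_bound P hP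
  set T0 : ℝ := 8 * (N + 1) with hT0
  have hN0 : (0:ℝ) ≤ N := Nat.cast_nonneg N
  set A : ℝ := C * 2 ^ d * 3 ^ S * Real.exp (2 * S) with hA
  have hA0 : 0 ≤ A := by positivity
  set C1 : ℝ := A * (8 * (N + 1)) ^ N * 2 ^ (S + N) with hC1
  set C2 : ℝ := 2 ^ N * (A * (n * T0 + N + 1) ^ ((d : ℝ) + S)) * (1 + T0) ^ (S + N) with hC2
  have hC10 : 0 ≤ C1 := by positivity
  have hC20 : 0 ≤ C2 := by positivity
  refine ⟨C1 + C2, by positivity, fun s hs j k => ?_⟩
  have hsre : |s.re| ≤ S := (Complex.abs_re_le_norm s).trans hs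
  have hsre' := abs_le.mp hsre
  set T := eN k with hT
  have hTn : 0 ≤ T := eN_nonneg k
  set e : ℝ := (d : ℝ) - s.re - N with he
  have hd0 : (0:ℝ) ≤ d := Nat.cast_nonneg d
  have he1 : -(S + N) ≤ e := by rw [he]; linarith
  rcases le_or_gt T0 T with hTT | hTT
  · -- large `k`
    have hT8 : 8 ≤ T := by linarith
    have hk : k ≠ 0 := by
      rintro rfl
      have : eN (0 : Fin n → ℤ) = 0 := by simp [eN]
      rw [hT, this] at hT8
      linarith
    obtain ⟨g1, g2⟩ := hCb S hS s hs k hk j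
    set δ : ℝ := T / (4 * (N + 1)) with hδ
    have hδ2 : 2 ≤ δ := by
      rw [hδ, le_div_iff₀ (by positivity)]
      linarith
    have h1 := (dl_iter_bound g1 g2 hδ2 N).2 0 (by
      rw [mem_ball_zero_iff, norm_zero]
      have : (N:ℝ) * δ = T / 4 * (N / (N + 1)) := by rw [hδ]; field_simp
      rw [this]
      have h2 : (N:ℝ) / (N + 1) < 1 := by rw [div_lt_one (by positivity)]; linarith
      nlinarith)
    have hne : ∀ i : ℕ, i ≤ N → k - i • ej j ≠ 0 := by
      intro i hi h0
      have h2 : k = i • ej j := sub_eq_zero.mp h0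
      have h3 : T ≤ i := by
        rw [hT, h2]
        refine (eN_le_sum _).trans (le_of_eq ?_)
        have : ∀ t : Fin n, |(((i • ej j) t : ℤ) : ℝ)| = if t = j then (i:ℝ) else 0 := by
          intro t
          unfold ej
          by_cases ht : t = j
          · subst ht; simp
          · simp [ht]
        simp_rw [this]
        rw [Finset.sum_ite_eq' Finset.univ j, if_pos (Finset.mem_univ j)]
      have h4 : (i:ℝ) ≤ N := by exact_mod_cast hi
      linarith
    have h2 := nab_eq_dl (e := ej j) (φ := ph P s) (k := k) (g := gk P s k j) (M := N)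
      (fun i hi => ph_eq_gk P s k j i (hne i hi)) N le_rfl 0 (by omega)
    simp only [zero_smul, sub_zero, Nat.cast_zero, neg_zero] at h2
    rw [h2]
    refine h1.trans ?_
    have hTpos : 0 < T := by linarith
    have e1 : (2 / δ) ^ N = (8 * (N + 1)) ^ N * T ^ (-(N:ℝ)) := by
      rw [Real.rpow_neg hTpos.le, Real.rpow_natCast, ← div_eq_mul_inv, ← div_pow]
      congr 1
      rw [hδ]
      field_simp
      norm_num
    have e2 : A * T ^ ((d : ℝ) - s.re) * (2 / δ) ^ N = A * (8 * (N + 1)) ^ N * T ^ e := by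
      rw [e1, he, sub_eq_add_neg _ (N : ℝ), Real.rpow_add hTpos]
      ring
    rw [e2]
    have e3 : T ^ e ≤ 2 ^ (S + N) * (1 + T) ^ e := by
      rcases le_total 0 e with h | h
      · calc T ^ e ≤ (1 + T) ^ e := Real.rpow_le_rpow hTn (by linarith) h
          _ ≤ 2 ^ (S + N) * (1 + T) ^ e := by
            apply le_mul_of_one_le_left (by positivity)
            exact Real.one_le_rpow (by norm_num) (by positivity)
      · calc T ^ e ≤ ((1 + T) / 2) ^ e :=
              Real.rpow_le_rpow_of_nonpos (by positivity) (by linarith) h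
          _ = 2 ^ (-e) * (1 + T) ^ e := by
              rw [Real.div_rpow (by positivity) (by norm_num), Real.rpow_neg (by norm_num)]
              ring
          _ ≤ 2 ^ (S + N) * (1 + T) ^ e := by
              apply mul_le_mul_of_nonneg_right _ (by positivity)
              exact Real.rpow_le_rpow_of_exponent_le (by norm_num) (by linarith)
    calc A * (8 * (N + 1)) ^ N * T ^ e ≤ A * (8 * (N + 1)) ^ N * (2 ^ (S + N) * (1 + T) ^ e) := by
          gcongr
      _ = C1 * (1 + T) ^ e := by rw [hC1]; ring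
      _ ≤ (C1 + C2) * (1 + T) ^ e := by
          apply mul_le_mul_of_nonneg_right _ (by positivity)
          linarith
  · -- small `k`
    have hB : ∀ i : ℕ, i ≤ N + 0 → ‖ph P s (k - i • ej j)‖ ≤
        A * (n * T0 + N + 1) ^ ((d : ℝ) + S) := by
      intro i hi
      by_cases h0 : k - i • ej j = 0
      · unfold ph
        rw [if_pos h0, norm_zero]
        positivity
      · have h1 := ph_eq_gk P s (k - i • ej j) j 0 (by simpa using h0)
        simp only [zero_smul, sub_zero, Nat.cast_zero, neg_zero] at h1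
        rw [h1]
        have h1' := one_le_eN h0
        refine ((hCb S hS s hs _ h0 j).2 0 (by
          rw [mem_ball_zero_iff, norm_zero]; linarith)).trans ?_
        apply mul_le_mul_of_nonneg_left _ hA0
        have h2 := eN_sub_le k j i
        have h3 : (i:ℝ) ≤ N := by exact_mod_cast (by omega : i ≤ N)
        have h4 : (n:ℝ) * eN k ≤ n * T0 := mul_le_mul_of_nonneg_left hTT.le (Nat.cast_nonneg n)
        calc eN (k - i • ej j) ^ ((d:ℝ) - s.re) ≤ eN (k - i • ej j) ^ ((d:ℝ) + S) :=
              Real.rpow_le_rpow_of_exponent_le h1' (by linarith)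
          _ ≤ (n * T0 + N + 1) ^ ((d : ℝ) + S) :=
              Real.rpow_le_rpow (by linarith) (by linarith) (by linarith)
    have h1 := nab_iter_le (e := ej j) (φ := ph P s) (k := k) N 0 hB 0 le_rfl
    simp only [zero_smul, sub_zero] at h1
    refine h1.trans ?_
    have e1 : 1 ≤ (1 + T0) ^ (S + N) * (1 + T) ^ e := by
      rcases le_total 0 e with h | h
      · have a1 : 1 ≤ (1 + T0) ^ (S + N) := Real.one_le_rpow (by linarith) (by positivity)
        have a2 : 1 ≤ (1 + T) ^ e := Real.one_le_rpow (by linarith) h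
        nlinarith
      · have a1 : (1 + T0) ^ e ≤ (1 + T) ^ e :=
          Real.rpow_le_rpow_of_nonpos (by linarith) (by linarith) h
        have a2 : (1 + T0) ^ (-(S + N)) ≤ (1 + T0) ^ e :=
          Real.rpow_le_rpow_of_exponent_le (by linarith) he1
        calc (1:ℝ) = (1 + T0) ^ (S + N) * (1 + T0) ^ (-(S + N)) := by
              rw [← Real.rpow_add (by linarith), add_neg_cancel, Real.rpow_zero]
          _ ≤ _ := by
              apply mul_le_mul_of_nonneg_left (a2.trans a1)
              positivity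
    have hB0 : 0 ≤ 2 ^ N * (A * (n * T0 + N + 1) ^ ((d : ℝ) + S)) := by positivity
    calc 2 ^ N * (A * (n * T0 + N + 1) ^ ((d : ℝ) + S)) ≤
        2 ^ N * (A * (n * T0 + N + 1) ^ ((d : ℝ) + S)) * ((1 + T0) ^ (S + N) * (1 + T) ^ e) :=
          le_mul_of_one_le_right hB0 e1
      _ = C2 * (1 + T) ^ e := by rw [hC2]; ring
      _ ≤ (C1 + C2) * (1 + T) ^ e := by
          apply mul_le_mul_of_nonneg_right _ (by positivity)
          linarith

end

end Pool.Agent.V11287.BH
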