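import Pool.Agent.V11287.BH3

open Filter Topology Set Metric

namespace Pool.Agent.V11287.BH

noncomputable section

variable {n : ℕ}

/-- the character `e^{2πi k·a}` -/
def ex (a : Fin n → ℝ) (k : Fin n → ℤ) : ℂ :=
  Complex.exp (2 * Real.pi * Complex.I * ((∑ i, (k i : ℝ) * a i : ℝ) : ℂ))

lemma norm_ex (a : Fin n → ℝ) (k : Fin n → ℤ) : ‖ex a k‖ = 1 := by
  unfold ex
  rw [Complex.norm_exp]
  simp

/-- `e^{2πi a_j}` -/
def uu (a : Fin n → ℝ) (j : Fin n) : ℂ := Complex.exp (2 * Real.pi * Complex.I * (a j : ℂ))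

lemma ex_add (a : Fin n → ℝ) (k : Fin n → ℤ) (j : Fin n) : ex a (k + ej j) = uu a j * ex a k := by
  unfold ex uu
  rw [← Complex.exp_add]
  congr 1
  have h : ∑ i, (((k + ej j) i : ℤ) : ℝ) * a i = a j + ∑ i, (k i : ℝ) * a i := by
    have h1 : ∀ i, (((k + ej j) i : ℤ) : ℝ) * a i = (if i = j then a i else 0) + (k i : ℝ) * a i := by
      intro i
      unfold ej
      by_cases hi : i = j
      · subst hi; simp; ring
      · simp [hi]
    simp_rw [h1]
    rw [Finset.sum_add_distrib, Finset.sum_ite_eq' Finset.univ j, if_pos (Finset.mem_univ j)]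
  rw [h]
  push_cast
  ring

lemma sbp {φ : (Fin n → ℤ) → ℂ} (hφ : Summable fun k => ‖φ k‖) (a : Fin n → ℝ) (j : Fin n) :
    ∑' k, nab (ej j) φ k * ex a k = (1 - uu a j) * ∑' k, φ k * ex a k := by
  have hs : Summable fun k => φ k * ex a k := by
    apply Summable.of_norm
    refine hφ.congr fun k => ?_
    rw [norm_mul, norm_ex, mul_one]
  have h1 : ∑' k, φ (k - ej j) * ex a k = uu a j * ∑' k, φ k * ex a k := by
    rw [← (Equiv.addRight (ej j)).tsum_eq (fun k => φ (k - ej j) * ex a k), ← tsum_mul_left]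
    congr 1
    ext k
    simp only [Equiv.coe_addRight, add_sub_cancel_right]
    rw [ex_add]
    ring
  have hs2 : Summable fun k => φ (k - ej j) * ex a k := by
    rw [← (Equiv.addRight (ej j)).summable_iff]
    refine (hs.mul_left (uu a j)).congr fun k => ?_
    simp only [Function.comp, Equiv.coe_addRight, add_sub_cancel_right]
    rw [ex_add]
    ring
  have h2 : ∀ k, nab (ej j) φ k * ex a k = φ k * ex a k - φ (k - ej j) * ex a k := by
    intro k; unfold nab; ring
  simp_rw [h2]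
  rw [hs.tsum_sub hs2, h1]
  ring

variable (P : MvPolynomial (Fin n) ℂ)

lemma nab_summable (hn : 1 ≤ n) {d : ℕ} (hP : P.IsHomogeneous d) (s : ℂ) (N : ℕ)
    (h : (d : ℝ) - s.re + n < N) (j : Fin n) :
    Summable fun k => ‖(nab (ej j))^[N] (ph P s) k‖ := by
  obtain ⟨C, hC, hb⟩ := nab_bound P hP ‖s‖ (norm_nonneg s) N
  refine Summable.of_nonneg_of_le (fun k => norm_nonneg _) (fun k => hb s le_rfl j k) ?_
  have h1 := summable_lattice hn (σ := -((d : ℝ) - s.re - N)) (by linarith)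
  simp only [neg_neg] at h1
  exact h1.mul_left C

/-- the regularised sums -/
def TN (N : ℕ) (a : Fin n → ℝ) (j : Fin n) (s : ℂ) : ℂ :=
  ∑' k, (nab (ej j))^[N] (ph P s) k * ex a k

lemma TN_succ (hn : 1 ≤ n) {d : ℕ} (hP : P.IsHomogeneous d) (s : ℂ) (N : ℕ)
    (h : (d : ℝ) - s.re + n < N) (a : Fin n → ℝ) (j : Fin n) :
    TN P (N + 1) a j s = (1 - uu a j) * TN P N a j s := by
  unfold TN
  rw [← sbp (nab_summable P hn hP s N h j) a j]
  congr 1
  ext k
  rw [Function.iterate_succ_apply']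

lemma ph_diff (k : Fin n → ℤ) : Differentiable ℂ fun s => ph P s k := by
  unfold ph
  by_cases hk : k = 0
  · simp only [hk, if_true]
    exact differentiable_const _
  · simp only [hk, if_false]
    have h1 : (eN k : ℂ) ≠ 0 := by
      have := one_le_eN hk
      exact_mod_cast (by linarith : eN k ≠ 0)
    apply Differentiable.const_mul
    intro s
    exact (differentiableAt_id.neg).const_cpow (Or.inl h1)

lemma nab_diff (e : Fin n → ℤ) (N : ℕ) : ∀ k : Fin n → ℤ,
    Differentiable ℂ fun s => (nab e)^[N] (ph P s) k := by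
  induction N with
  | zero => exact fun k => ph_diff P k
  | succ N ih =>
    intro k
    simp only [Function.iterate_succ_apply']
    unfold nab
    exact (ih k).sub (ih (k - e))

lemma TN_bound (hn : 1 ≤ n) {d : ℕ} (hP : P.IsHomogeneous d) (S : ℝ) (hS : 0 ≤ S) (N : ℕ)
    (hN : (d : ℝ) + S + n < N) : ∃ B : ℝ, 0 ≤ B ∧ ∀ (a : Fin n → ℝ) (j : Fin n),
      DifferentiableOn ℂ (TN P N a j) (ball 0 S) ∧ ∀ s ∈ ball (0:ℂ) S, ‖TN P N a j s‖ ≤ B := by
  obtain ⟨C, hC, hb⟩ := nab_bound P hP S hS N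
  have hsum := (summable_lattice hn (σ := (N : ℝ) - d - S) (by linarith)).mul_left C
  have hbd : ∀ s ∈ ball (0:ℂ) S, ∀ (j : Fin n) (k : Fin n → ℤ),
      ‖(nab (ej j))^[N] (ph P s) k‖ ≤ C * (1 + eN k) ^ (-((N : ℝ) - d - S)) := by
    intro s hs j k
    rw [mem_ball_zero_iff] at hs
    refine (hb s hs.le j k).trans ?_
    apply mul_le_mul_of_nonneg_left _ hC
    have h1 := eN_nonneg k
    apply Real.rpow_le_rpow_of_exponent_le (by linarith)
    have := (abs_le.mp ((Complex.abs_re_le_norm s).trans hs.le)).1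
    linarith
  refine ⟨∑' k : Fin n → ℤ, C * (1 + eN k) ^ (-((N : ℝ) - d - S)),
    tsum_nonneg fun k => ?_, fun a j => ⟨?_, fun s hs => ?_⟩⟩
  · have := eN_nonneg k
    positivity
  · unfold TN
    refine Complex.differentiableOn_tsum_of_summable_norm hsum (fun k => ?_) isOpen_ball ?_
    · exact ((nab_diff P (ej j) N k).mul_const _).differentiableOn
    · intro k s hs
      rw [norm_mul, norm_ex, mul_one]
      exact hbd s hs j k
  · unfold TN
    refine tsum_of_norm_bounded hsum.hasSum fun k => ?_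
    rw [norm_mul, norm_ex, mul_one]
    exact hbd s hs j k

/-- `ℓ¹` bound for products -/
lemma sum_le_pN {q : ℕ} (l : Fin q → Fin n → ℤ) : ∑ p : Fin q × Fin n, |(l p.1 p.2 : ℝ)| ≤ pN l := by
  unfold pN
  have h : ∀ T : Finset (Fin q × Fin n),
      ∑ p ∈ T, |(l p.1 p.2 : ℝ)| + 1 ≤ ∏ p ∈ T, (1 + |(l p.1 p.2 : ℝ)|) := by
    intro T
    classical
    induction T using Finset.induction_on with
    | empty => simp
    | insert a T ha ih =>
      rw [Finset.sum_insert ha, Finset.prod_insert ha]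
      have h1 := abs_nonneg (l a.1 a.2 : ℝ)
      have h2 : 0 ≤ ∑ p ∈ T, |(l p.1 p.2 : ℝ)| := Finset.sum_nonneg fun p _ => abs_nonneg _
      nlinarith
  have := h Finset.univ
  linarith

/-- the integer vector `∑ ε_i l_i` -/
def sg {q : ℕ} (ε : Fin q → ℤ) (l : Fin q → Fin n → ℤ) : Fin n → ℤ := ∑ i, ε i • l i

lemma eN_sg_le {q : ℕ} {ε : Fin q → ℤ} (hε : ∀ i, |ε i| ≤ 1) (l : Fin q → Fin n → ℤ) :
    eN (sg ε l) ≤ pN l := by
  refine (eN_le_sum _).trans (le_trans ?_ (sum_le_pN l))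
  have e : ∑ p : Fin q × Fin n, |(l p.1 p.2 : ℝ)| = ∑ j, ∑ i, |(l i j : ℝ)| := by
    rw [Fintype.sum_prod_type, Finset.sum_comm]
  rw [e]
  apply Finset.sum_le_sum
  intro j _
  unfold sg
  rw [Finset.sum_apply]
  push_cast
  refine (Finset.abs_sum_le_sum_abs _ _).trans ?_
  apply Finset.sum_le_sum
  intro i _
  simp only [Pi.smul_apply, smul_eq_mul, Int.cast_mul, abs_mul]
  have h1 : |(ε i : ℝ)| ≤ 1 := by exact_mod_cast hε i
  have h2 := abs_nonneg (l i j : ℝ)
  nlinarith

/-- lower bound for `|1 - e^{2πi t}|` -/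
lemma one_sub_exp_ge (t c : ℝ) (h : ∀ m : ℤ, c ≤ |t - m|) :
    4 * c ≤ ‖1 - Complex.exp (2 * Real.pi * Complex.I * (t : ℂ))‖ := by
  set m : ℤ := round t with hm
  set r : ℝ := t - m with hr
  have hr2 : |r| ≤ 1 / 2 := by rw [hr, hm]; exact abs_sub_round t
  have h1 : Complex.exp (2 * Real.pi * Complex.I * (t : ℂ)) =
      Complex.exp (((2 * Real.pi * r : ℝ) : ℂ) * Complex.I) := by
    have e : (2 * Real.pi * Complex.I * (t : ℂ)) = ((2 * Real.pi * r : ℝ) : ℂ) * Complex.I +
        m * (2 * Real.pi * Complex.I) := by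
      have : (t : ℂ) = (r : ℂ) + (m : ℂ) := by rw [hr]; push_cast; ring
      rw [this]
      push_cast
      ring
    rw [e, Complex.exp_add, Complex.exp_int_mul_two_pi_mul_I, mul_one]
  rw [h1]
  have h2 : ‖1 - Complex.exp (((2 * Real.pi * r : ℝ) : ℂ) * Complex.I)‖ = 2 * |Real.sin (Real.pi * r)| := by
    have e3 : ‖1 - Complex.exp (((2 * Real.pi * r : ℝ) : ℂ) * Complex.I)‖ ^ 2 =
        (2 * |Real.sin (Real.pi * r)|) ^ 2 := by
      rw [← Complex.normSq_eq_norm_sq, Complex.exp_mul_I, ← Complex.ofReal_cos,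
        ← Complex.ofReal_sin, Complex.normSq_apply]
      simp only [Complex.sub_re, Complex.one_re, Complex.add_re, Complex.ofReal_re,
        Complex.mul_re, Complex.I_re, mul_zero, Complex.ofReal_im, Complex.I_im, mul_one,
        Complex.sub_im, Complex.one_im, Complex.add_im, Complex.mul_im]
      have h5 : 2 * Real.pi * r = 2 * (Real.pi * r) := by ring
      rw [h5, Real.cos_two_mul, Real.sin_two_mul, mul_pow, sq_abs]
      have h6 := Real.sin_sq_add_cos_sq (Real.pi * r)
      set c' := Real.cos (Real.pi * r)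
      set s' := Real.sin (Real.pi * r)
      have : c' ^ 2 = 1 - s' ^ 2 := by linarith
      ring_nf
      have e4 : c' ^ 4 = (1 - s' ^ 2) ^ 2 := by rw [← this]; ring
      rw [e4, this]
      ring
    exact (sq_eq_sq₀ (norm_nonneg _) (by positivity)).mp e3
  rw [h2]
  have h3 : 2 / Real.pi * (Real.pi * |r|) ≤ |Real.sin (Real.pi * r)| := by
    have h4 : |Real.sin (Real.pi * r)| = |Real.sin (Real.pi * |r|)| := by
      rcases le_total 0 r with h | h
      · rw [abs_of_nonneg h]
      · rw [abs_of_nonpos h, mul_neg, Real.sin_neg, abs_neg]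
    rw [h4]
    refine (Real.mul_le_sin (by positivity) ?_).trans (le_abs_self _)
    have := Real.pi_pos
    nlinarith
  have h4 : 2 / Real.pi * (Real.pi * |r|) = 2 * |r| := by
    have := Real.pi_ne_zero
    field_simp
  rw [h4] at h3
  have h5 := h m
  linarith

end

end Pool.Agent.V11287.BH
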