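import Pool.Agent.V11287.BH4

open Filter Topology Set Metric

namespace Pool.Agent.V11287.BH

noncomputable section

variable {n q : ℕ} (P : MvPolynomial (Fin n) ℂ)

open Classical in
/-- the regularised outer sum -/
def FN (b : (Fin q → Fin n → ℤ) → ℂ) (Z : Set (Fin q → Fin n → ℤ))
    (a : (Fin q → Fin n → ℤ) → Fin n → ℝ)
    (J : (Fin q → Fin n → ℤ) → Fin n) (N : ℕ) (s : ℂ) : ℂ :=
  ∑' l, if l ∈ Z then 0 else b l * (((1 - uu (a l) (J l))⁻¹) ^ N * TN P N (a l) (J l) s)

theorem entire (hn : 1 ≤ n) {d : ℕ} (hP : P.IsHomogeneous d)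
    {b : (Fin q → Fin n → ℤ) → ℂ} (hb : Rapid b) (Z : Set (Fin q → Fin n → ℤ))
    (a : (Fin q → Fin n → ℤ) → Fin n → ℝ) (J : (Fin q → Fin n → ℤ) → Fin n) (K : ℝ) (hK : 0 ≤ K)
    (D : ℕ) (hu : ∀ l, l ∉ Z → uu (a l) (J l) ≠ 1 ∧ ‖(1 - uu (a l) (J l))⁻¹‖ ≤ K * pN l ^ D) :
    ∃ F : ℂ → ℂ, Differentiable ℂ F ∧ ∀ s : ℂ, (n : ℝ) + d < s.re → F s = FN P b Z a J 0 s := by
  classical
  -- change of level
  have hlev : ∀ (s : ℂ) (N : ℕ), (d : ℝ) - s.re + n < N → FN P b Z a J (N + 1) s = FN P b Z a J N s := by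
    intro s N hN
    unfold FN
    congr 1
    ext l
    by_cases hl : l ∈ Z
    · rw [if_pos hl, if_pos hl]
    · rw [if_neg hl, if_neg hl, TN_succ P hn hP s N hN]
      have h1 : 1 - uu (a l) (J l) ≠ 0 := sub_ne_zero.mpr (Ne.symm (hu l hl).1)
      rw [pow_succ]
      field_simp
  have hlev2 : ∀ (s : ℂ) (N : ℕ), (d : ℝ) - s.re + n < N → ∀ M, FN P b Z a J (N + M) s =
      FN P b Z a J N s := by
    intro s N hN M
    induction M with
    | zero => rfl
    | succ M ih =>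
      rw [← ih, ← add_assoc]
      apply hlev
      push_cast
      have : (0:ℝ) ≤ M := Nat.cast_nonneg M
      linarith
  have hlev3 : ∀ (s : ℂ) (N N' : ℕ), (d : ℝ) - s.re + n < N → N ≤ N' →
      FN P b Z a J N' s = FN P b Z a J N s := by
    intro s N N' hN hNN'
    obtain ⟨M, rfl⟩ := Nat.exists_eq_add_of_le hNN'
    exact hlev2 s N hN M
  -- analyticity
  have hdiff : ∀ (S : ℝ), 0 ≤ S → ∀ N : ℕ, (d : ℝ) + S + n < N →
      DifferentiableOn ℂ (FN P b Z a J N) (ball 0 S) := by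
    intro S hS N hN
    obtain ⟨B, hB, hTN⟩ := TN_bound P hn hP S hS N hN
    have hsum := (hb.summable (D * N)).mul_left (K ^ N * B)
    unfold FN
    refine Complex.differentiableOn_tsum_of_summable_norm hsum (fun l => ?_) isOpen_ball ?_
    · by_cases hl : l ∈ Z
      · simp only [hl, if_true]
        exact differentiableOn_const _
      · simp only [hl, if_false]
        exact (((hTN (a l) (J l)).1).const_mul _).const_mul _
    · intro l s hs
      have hp := one_le_pN l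
      by_cases hl : l ∈ Z
      · simp only [hl, if_true, norm_zero]
        positivity
      · simp only [hl, if_false]
        rw [norm_mul, norm_mul, norm_pow]
        have h1 := (hTN (a l) (J l)).2 s hs
        have h2 := pow_le_pow_left₀ (norm_nonneg _) (hu l hl).2 N
        calc ‖b l‖ * (‖(1 - uu (a l) (J l))⁻¹‖ ^ N * ‖TN P N (a l) (J l) s‖) ≤
            ‖b l‖ * ((K * pN l ^ D) ^ N * B) := by gcongr
          _ = K ^ N * B * (pN l ^ (D * N) * ‖b l‖) := by rw [mul_pow, ← pow_mul]; ring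
  set Nf : ℂ → ℕ := fun s => ⌈(d : ℝ) + n + ‖s‖⌉₊ + 1 with hNf
  have hNf1 : ∀ s : ℂ, (d : ℝ) + n + ‖s‖ < Nf s := by
    intro s
    have h1 := Nat.le_ceil ((d : ℝ) + n + ‖s‖)
    rw [hNf]
    push_cast
    linarith
  have hNf2 : ∀ s : ℂ, (d : ℝ) - s.re + n < Nf s := by
    intro s
    have h1 := hNf1 s
    have h2 := (abs_le.mp (Complex.abs_re_le_norm s)).1
    linarith
  refine ⟨fun s => FN P b Z a J (Nf s) s, fun s0 => ?_, fun s hs => ?_⟩
  · set S : ℝ := ‖s0‖ + 1 with hS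
    have hS0 : 0 ≤ S := by positivity
    set N1 : ℕ := ⌈(d : ℝ) + n + S⌉₊ + 1 with hN1
    have hN1' : (d : ℝ) + S + n < N1 := by
      have h1 := Nat.le_ceil ((d : ℝ) + n + S)
      rw [hN1]
      push_cast
      linarith
    have heq : (fun s => FN P b Z a J (Nf s) s) =ᶠ[𝓝 s0] FN P b Z a J N1 := by
      filter_upwards [isOpen_ball.mem_nhds (show s0 ∈ ball (0:ℂ) S by
        rw [mem_ball_zero_iff]; linarith)] with s hs
      rw [mem_ball_zero_iff] at hs
      apply (hlev3 s (Nf s) N1 (hNf2 s) _).symm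
      rw [hNf, hN1]
      simp only [add_le_add_iff_right]
      exact Nat.ceil_le_ceil (by linarith)
    apply DifferentiableAt.congr_of_eventuallyEq _ heq
    exact (hdiff S hS0 N1 hN1').differentiableAt (isOpen_ball.mem_nhds (by
      rw [mem_ball_zero_iff]; linarith))
  · exact hlev3 s 0 (Nf s) (by push_cast; linarith) (Nat.zero_le _)

end

end Pool.Agent.V11287.BH
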