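import Mathlib

open Polynomial Filter Topology Bornology Set Metric

namespace Pool.Agent.V11287.NP

noncomputable section

lemma eventually_ne_zero_cobounded : ∀ᶠ z : ℂ in cobounded ℂ, z ≠ 0 := by
  have := (hasBasis_cobounded_norm (E := ℂ)).mem_of_mem (i := (1:ℝ)) trivial
  filter_upwards [this] with z hz
  intro h0
  simp [h0] at hz
  linarith

lemma tendsto_eval_div_pow (p : ℂ[X]) (m : ℕ) (hm : p.natDegree ≤ m) :
    Tendsto (fun z : ℂ => p.eval z / z ^ m) (cobounded ℂ) (𝓝 (p.coeff m)) := by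
  have h1 : Tendsto (fun z : ℂ => (p.reflect m).eval z⁻¹) (cobounded ℂ)
      (𝓝 ((p.reflect m).eval 0)) :=
    ((p.reflect m).continuous.tendsto 0).comp tendsto_inv₀_cobounded
  have h2 : (p.reflect m).eval 0 = p.coeff m := by
    rw [← coeff_zero_eq_eval_zero, coeff_reflect]
    simp [revAt_le]
  rw [h2] at h1
  refine h1.congr' ?_
  filter_upwards [eventually_ne_zero_cobounded] with z hz
  let _ : Invertible z := invertibleOfNonzero hz
  have := eval₂_reflect_mul_pow (RingHom.id ℂ) z m p hm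
  rw [eval₂_id, eval₂_id, invOf_eq_inv] at this
  rw [← this]
  field_simp

/-- denominator -/
def D (P Q : ℂ[X]) : ℂ[X] := Q * P + derivative P

/-- the map `z - P/(QP+P')` -/
def N (P Q : ℂ[X]) (z : ℂ) : ℂ := z - P.eval z / (D P Q).eval z

/-- the coordinate at infinity -/
def S (Q : ℂ[X]) (z : ℂ) : ℂ := z ^ (Q.natDegree + 1) * Q.leadingCoeff / (Q.natDegree + 1)

/-- standing hypotheses -/
structure Hyp (P Q : ℂ[X]) : Prop where
  simple : ∀ z, P.eval z = 0 → (derivative P).eval z ≠ 0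
  zero : P.eval 0 = 0
  qne : Q ≠ 0
  crit : ∀ z, (Q * D P Q + derivative (D P Q)).eval z = 0 → P.eval z = 0 ∨ (D P Q).eval z = 0

variable {P Q : ℂ[X]}

lemma Hyp.P_ne (h : Hyp P Q) : P ≠ 0 := by
  rintro rfl
  exact h.simple 0 (by simp) (by simp)

lemma Hyp.D_ne_of_P (h : Hyp P Q) {z : ℂ} (hz : P.eval z = 0) : (D P Q).eval z ≠ 0 := by
  simp [D, hz, h.simple z hz]

lemma Hyp.natDegree_P_pos (h : Hyp P Q) : 0 < P.natDegree := by
  by_contra hc
  have : P.natDegree = 0 := by omega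
  rw [natDegree_eq_zero] at this
  obtain ⟨c, rfl⟩ := this
  have := h.zero
  simp at this
  exact h.P_ne (by simp [this])

lemma Hyp.natDegree_QP (h : Hyp P Q) : (Q * P).natDegree = Q.natDegree + P.natDegree :=
  natDegree_mul h.qne h.P_ne

lemma Hyp.derivative_lt (h : Hyp P Q) : (derivative P).natDegree < P.natDegree :=
  natDegree_derivative_lt h.natDegree_P_pos.ne'

lemma Hyp.natDegree_D (h : Hyp P Q) : (D P Q).natDegree = Q.natDegree + P.natDegree := by
  unfold D
  rw [natDegree_add_eq_left_of_natDegree_lt, h.natDegree_QP]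
  rw [h.natDegree_QP]
  have := h.derivative_lt
  omega

lemma Hyp.coeff_D (h : Hyp P Q) :
    (D P Q).coeff (Q.natDegree + P.natDegree) = Q.leadingCoeff * P.leadingCoeff := by
  unfold D
  rw [coeff_add, coeff_mul_degree_add_degree, coeff_eq_zero_of_natDegree_lt, add_zero]
  have := h.derivative_lt
  omega

lemma Hyp.D_ne (h : Hyp P Q) : D P Q ≠ 0 := by
  intro h0
  have := h.coeff_D
  rw [h0] at this
  simp at this
  rcases this with h1 | h1
  · exact h.qne h1
  · exact h.P_ne h1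

/-- `W(z) z^d → 1/q`. -/
lemma Hyp.tendsto_W (h : Hyp P Q) :
    Tendsto (fun z : ℂ => P.eval z / (D P Q).eval z * z ^ Q.natDegree) (cobounded ℂ)
      (𝓝 (1 / Q.leadingCoeff)) := by
  have h1 := tendsto_eval_div_pow P P.natDegree le_rfl
  have h2 := tendsto_eval_div_pow (D P Q) (Q.natDegree + P.natDegree) h.natDegree_D.le
  rw [h.coeff_D] at h2
  have hq : Q.leadingCoeff ≠ 0 := leadingCoeff_ne_zero.mpr h.qne
  have hp : P.leadingCoeff ≠ 0 := leadingCoeff_ne_zero.mpr h.P_ne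
  have h3 := h1.div h2 (mul_ne_zero hq hp)
  have h4 : P.coeff P.natDegree / (Q.leadingCoeff * P.leadingCoeff) = 1 / Q.leadingCoeff := by
    rw [coeff_natDegree]
    field_simp
  rw [h4] at h3
  refine h3.congr' ?_
  filter_upwards [eventually_ne_zero_cobounded] with z hz
  simp only [Pi.div_apply]
  rw [pow_add]
  by_cases hD : (D P Q).eval z = 0
  · simp [hD]
  · field_simp

lemma Hyp.tendsto_S (h : Hyp P Q) :
    Tendsto (fun z : ℂ => S Q (N P Q z) - S Q z) (cobounded ℂ) (𝓝 (-1)) := by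
  have hq : Q.leadingCoeff ≠ 0 := leadingCoeff_ne_zero.mpr h.qne
  have hd : ((Q.natDegree : ℂ) + 1) ≠ 0 := Nat.cast_add_one_ne_zero _
  have hW := h.tendsto_W
  -- x = W / z → 0
  have hinv : Tendsto (fun z : ℂ => (z⁻¹) ^ (Q.natDegree + 1)) (cobounded ℂ) (𝓝 0) := by
    have := (tendsto_inv₀_cobounded (α := ℂ)).pow (Q.natDegree + 1)
    simpa using this
  have hx : Tendsto (fun z : ℂ => P.eval z / (D P Q).eval z / z) (cobounded ℂ) (𝓝 0) := by
    have := hW.mul hinv
    rw [mul_zero] at this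
    refine this.congr' ?_
    filter_upwards [eventually_ne_zero_cobounded] with z hz
    rw [inv_pow, pow_succ]
    field_simp
  have hT : Tendsto (fun z : ℂ => ∑ i ∈ Finset.range (Q.natDegree + 1),
      (1 - P.eval z / (D P Q).eval z / z) ^ i) (cobounded ℂ) (𝓝 (Q.natDegree + 1)) := by
    have : Tendsto (fun z : ℂ => ∑ i ∈ Finset.range (Q.natDegree + 1),
      (1 - P.eval z / (D P Q).eval z / z) ^ i) (cobounded ℂ)
        (𝓝 (∑ i ∈ Finset.range (Q.natDegree + 1), (1 - (0:ℂ)) ^ i)) :=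
      tendsto_finsetSum _ fun i _ => (tendsto_const_nhds.sub hx).pow i
    simpa using this
  have key := ((hW.mul hT).mul_const (Q.leadingCoeff / (Q.natDegree + 1))).neg
  have e : -(1 / Q.leadingCoeff * (Q.natDegree + 1) * (Q.leadingCoeff / (Q.natDegree + 1)))
      = (-1 : ℂ) := by
    field_simp
  rw [e] at key
  refine key.congr' ?_
  filter_upwards [eventually_ne_zero_cobounded] with z hz
  set x := P.eval z / (D P Q).eval z / z with hxdef
  have hN : N P Q z = z * (1 - x) := by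
    rw [N, hxdef]; field_simp
  have hg := mul_geom_sum (1 - x) (Q.natDegree + 1)
  have hW' : P.eval z / (D P Q).eval z = z * x := by rw [hxdef]; field_simp
  rw [hW', S, S, hN, mul_pow]
  have hg' : (1 - x) ^ (Q.natDegree + 1) = 1 - x * ∑ i ∈ Finset.range (Q.natDegree + 1),
      (1 - x) ^ i := by
    linear_combination -hg
  rw [hg', pow_succ]
  ring

lemma norm_S (z : ℂ) : ‖S Q z‖ = ‖z‖ ^ (Q.natDegree + 1) * (‖Q.leadingCoeff‖ / (Q.natDegree + 1)) := by
  unfold S
  rw [norm_div, norm_mul, norm_pow]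
  have : ‖((Q.natDegree : ℂ) + 1)‖ = (Q.natDegree : ℝ) + 1 := by
    have : ((Q.natDegree : ℂ) + 1) = ((Q.natDegree + 1 : ℕ) : ℂ) := by push_cast; rfl
    rw [this, Complex.norm_natCast]; push_cast; rfl
  rw [this, mul_div_assoc]

/-- Everything is good when `|S z|` is large. -/
lemma Hyp.exists_good (h : Hyp P Q) (ε : ℝ) (hε : 0 < ε) :
    ∃ M C : ℝ, 0 < M ∧ 0 < C ∧ ∀ z : ℂ, M ≤ ‖S Q z‖ → (D P Q).eval z ≠ 0 ∧ P.eval z ≠ 0 ∧
      ‖P.eval z / (D P Q).eval z‖ ≤ C ∧ ‖S Q (N P Q z) - S Q z + 1‖ ≤ ε := by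
  have hq : Q.leadingCoeff ≠ 0 := leadingCoeff_ne_zero.mpr h.qne
  have hp : P.leadingCoeff ≠ 0 := leadingCoeff_ne_zero.mpr h.P_ne
  -- eventually D ≠ 0
  have e1 : ∀ᶠ z : ℂ in cobounded ℂ, (D P Q).eval z ≠ 0 := by
    have h2 := tendsto_eval_div_pow (D P Q) (Q.natDegree + P.natDegree) h.natDegree_D.le
    rw [h.coeff_D] at h2
    filter_upwards [h2.eventually_ne (mul_ne_zero hq hp)] with z hz h0
    rw [h0] at hz
    simp at hz
  have e2 : ∀ᶠ z : ℂ in cobounded ℂ, P.eval z ≠ 0 := by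
    have h2 := tendsto_eval_div_pow P P.natDegree le_rfl
    rw [coeff_natDegree] at h2
    filter_upwards [h2.eventually_ne hp] with z hz h0
    rw [h0] at hz
    simp at hz
  have e3 : ∀ᶠ z : ℂ in cobounded ℂ, ‖S Q (N P Q z) - S Q z + 1‖ ≤ ε := by
    have := h.tendsto_S
    rw [Metric.tendsto_nhds] at this
    filter_upwards [this ε hε] with z hz
    rw [dist_eq_norm, sub_neg_eq_add] at hz
    exact hz.le
  have e4 : ∀ᶠ z : ℂ in cobounded ℂ, ‖P.eval z / (D P Q).eval z‖ ≤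
      ‖(1 / Q.leadingCoeff : ℂ)‖ + 1 := by
    have := h.tendsto_W.norm
    have h5 := this.eventually_le_const (show ‖(1 / Q.leadingCoeff : ℂ)‖ <
      ‖(1 / Q.leadingCoeff : ℂ)‖ + 1 by linarith)
    have h6 := (hasBasis_cobounded_norm (E := ℂ)).mem_of_mem (i := (1:ℝ)) trivial
    filter_upwards [h5, h6] with z hz hz1
    refine le_trans ?_ hz
    rw [norm_mul, norm_pow]
    have : (1:ℝ) ≤ ‖z‖ ^ Q.natDegree := one_le_pow₀ hz1
    nlinarith [norm_nonneg (P.eval z / (D P Q).eval z)]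
  obtain ⟨R, -, hR⟩ := (hasBasis_cobounded_norm (E := ℂ)).eventually_iff.mp
    (e1.and (e2.and (e4.and e3)))
  set R' := max R 1 with hR'
  have hR'1 : 1 ≤ R' := le_max_right _ _
  set c : ℝ := ‖Q.leadingCoeff‖ / (Q.natDegree + 1) with hc
  have hcpos : 0 < c := by
    have : 0 < ‖Q.leadingCoeff‖ := norm_pos_iff.mpr hq
    positivity
  refine ⟨R' ^ (Q.natDegree + 1) * c, ‖(1 / Q.leadingCoeff : ℂ)‖ + 1, by positivity, by positivity,
    fun z hz => ?_⟩
  rw [norm_S, ← hc] at hz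
  have h7 : R' ^ (Q.natDegree + 1) ≤ ‖z‖ ^ (Q.natDegree + 1) := le_of_mul_le_mul_right hz hcpos
  have h8 : R' ≤ ‖z‖ := by
    by_contra hlt
    push Not at hlt
    have := pow_lt_pow_left₀ hlt (norm_nonneg z) (n := Q.natDegree + 1) (by omega)
    linarith
  obtain ⟨a, b, c', d⟩ := hR (show R ≤ ‖z‖ from le_trans (le_max_left _ _) h8)
  exact ⟨a, b, c', d⟩

/-- derivative of `N` -/
lemma hasDerivAt_N {z : ℂ} (hz : (D P Q).eval z ≠ 0) :
    HasDerivAt (N P Q) (P.eval z * (Q * D P Q + derivative (D P Q)).eval z /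
      (D P Q).eval z ^ 2) z := by
  have h1 := (hasDerivAt_id z).sub ((P.hasDerivAt z).div ((D P Q).hasDerivAt z) hz)
  refine h1.congr_deriv ?_
  have h2 : (derivative P).eval z = (D P Q).eval z - Q.eval z * P.eval z := by
    simp [D]
  rw [h2]
  simp only [eval_add, eval_mul]
  field_simp
  ring

lemma Hyp.deriv_ne (h : Hyp P Q) {z : ℂ} (hz : (D P Q).eval z ≠ 0) (hP : P.eval z ≠ 0) :
    P.eval z * (Q * D P Q + derivative (D P Q)).eval z / (D P Q).eval z ^ 2 ≠ 0 := by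
  have : (Q * D P Q + derivative (D P Q)).eval z ≠ 0 := by
    intro h0
    rcases h.crit z h0 with h1 | h1
    · exact hP h1
    · exact hz h1
  exact div_ne_zero (mul_ne_zero hP this) (pow_ne_zero _ hz)

end

end Pool.Agent.V11287.NP
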