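import Pool.Agent.V11287.NP1

open Polynomial Filter Topology Bornology Set Metric

namespace Pool.Agent.V11287.NP

noncomputable section

variable {P Q : ℂ[X]}

lemma hasStrictDerivAt_N {z : ℂ} (hz : (D P Q).eval z ≠ 0) :
    HasStrictDerivAt (N P Q) (P.eval z * (Q * D P Q + derivative (D P Q)).eval z /
      (D P Q).eval z ^ 2) z := by
  have h1 := (hasStrictDerivAt_id z).sub
    ((P.hasStrictDerivAt z).div ((D P Q).hasStrictDerivAt z) hz)
  refine h1.congr_deriv ?_
  have h2 : (derivative P).eval z = (D P Q).eval z - Q.eval z * P.eval z := by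
    simp [D]
  rw [h2]
  simp only [eval_add, eval_mul]
  field_simp
  ring

lemma Hyp.cpos (h : Hyp P Q) : 0 < ‖Q.leadingCoeff‖ / ((Q.natDegree : ℝ) + 1) := by
  have hq : Q.leadingCoeff ≠ 0 := leadingCoeff_ne_zero.mpr h.qne
  have : 0 < ‖Q.leadingCoeff‖ := norm_pos_iff.mpr hq
  positivity

lemma Hyp.S_large (h : Hyp P Q) (R : ℝ) : ∃ Y : ℝ, ∀ z : ℂ, Y ≤ ‖S Q z‖ → R ≤ ‖z‖ := by
  refine ⟨(max R 0) ^ (Q.natDegree + 1) * (‖Q.leadingCoeff‖ / ((Q.natDegree : ℝ) + 1)),
    fun z hz => ?_⟩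
  rw [norm_S] at hz
  have h7 := le_of_mul_le_mul_right hz h.cpos
  have h8 : max R 0 ≤ ‖z‖ := by
    by_contra hlt
    push Not at hlt
    have := pow_lt_pow_left₀ hlt (norm_nonneg z) (n := Q.natDegree + 1) (by omega)
    linarith
  exact le_trans (le_max_left _ _) h8

lemma Hyp.large_S (h : Hyp P Q) (M : ℝ) : ∃ R : ℝ, ∀ z : ℂ, R ≤ ‖z‖ → M ≤ ‖S Q z‖ := by
  set c : ℝ := ‖Q.leadingCoeff‖ / ((Q.natDegree : ℝ) + 1) with hc
  have hcp : 0 < c := h.cpos
  refine ⟨max 1 (M / c), fun z hz => ?_⟩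
  rw [norm_S, ← hc]
  have h1 : 1 ≤ ‖z‖ := le_trans (le_max_left _ _) hz
  have h2 : M / c ≤ ‖z‖ := le_trans (le_max_right _ _) hz
  rw [div_le_iff₀ hcp] at h2
  have h3 : ‖z‖ ≤ ‖z‖ ^ (Q.natDegree + 1) := by
    rw [pow_succ]
    have := one_le_pow₀ h1 (n := Q.natDegree)
    nlinarith
  nlinarith

lemma continuous_S : Continuous (S Q) := by
  unfold S
  fun_prop

lemma differentiable_S : Differentiable ℂ (S Q) := by
  unfold S
  fun_prop

/-- the data provided by `exists_good` -/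
structure Good (P Q : ℂ[X]) (ε M C : ℝ) : Prop where
  hM : 0 < M
  hC : 0 < C
  good : ∀ z : ℂ, M ≤ ‖S Q z‖ → (D P Q).eval z ≠ 0 ∧ P.eval z ≠ 0 ∧
      ‖P.eval z / (D P Q).eval z‖ ≤ C ∧ ‖S Q (N P Q z) - S Q z + 1‖ ≤ ε

lemma Good.growth {ε M C : ℝ} (g : Good P Q ε M C) (z : ℂ) :
    ‖S Q z‖ ≤ max M (‖S Q (N P Q z)‖ + 1 + ε) := by
  by_cases hz : M ≤ ‖S Q z‖
  · have := (g.good z hz).2.2.2
    refine le_trans ?_ (le_max_right _ _)
    have e : S Q z = S Q (N P Q z) + 1 - (S Q (N P Q z) - S Q z + 1) := by ring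
    calc ‖S Q z‖ = ‖S Q (N P Q z) + 1 - (S Q (N P Q z) - S Q z + 1)‖ := by rw [← e]
      _ ≤ ‖S Q (N P Q z) + 1‖ + ‖S Q (N P Q z) - S Q z + 1‖ := norm_sub_le _ _
      _ ≤ ‖S Q (N P Q z)‖ + ‖(1:ℂ)‖ + ε := add_le_add (norm_add_le _ _) this
      _ = _ := by simp
  · push Not at hz
    exact le_trans hz.le (le_max_left _ _)

/-- existence of a large preimage -/
lemma Hyp.exists_large_preimage (h : Hyp P Q) {ε M C : ℝ} (g : Good P Q ε M C) :
    ∃ Y : ℝ, ∀ y : ℂ, Y ≤ ‖S Q y‖ → ∃ z, M < ‖S Q z‖ ∧ N P Q z = y := by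
  obtain ⟨R, hR⟩ := h.large_S (M + 1)
  set ρ : ℝ := 4 * C + 1 with hρ
  have hCp := g.hC
  have hρ0 : 0 < ρ := by positivity
  obtain ⟨Y, hY⟩ := h.S_large (R + ρ)
  refine ⟨Y, fun y hy => ?_⟩
  have hyn := hY y hy
  have hball : ∀ z ∈ closedBall y ρ, M + 1 ≤ ‖S Q z‖ := by
    intro z hz
    apply hR
    rw [mem_closedBall, dist_eq_norm] at hz
    have : ‖y‖ ≤ ‖z‖ + ‖z - y‖ := by
      calc ‖y‖ = ‖z - (z - y)‖ := by ring_nf
        _ ≤ _ := norm_sub_le _ _
    linarith
  have hgood : ∀ z ∈ closedBall y ρ, M ≤ ‖S Q z‖ := fun z hz => by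
    linarith [hball z hz]
  have hyb : y ∈ closedBall y ρ := mem_closedBall_self hρ0.le
  obtain ⟨hy1, hy2, hy3, -⟩ := g.good y (hgood y hyb)
  have hdiff : DiffContOnCl ℂ (N P Q) (ball y ρ) := by
    apply DifferentiableOn.diffContOnCl
    rw [closure_ball y hρ0.ne']
    intro z hz
    exact ((hasStrictDerivAt_N (g.good z (hgood z hz)).1).hasDerivAt.differentiableAt).differentiableWithinAt
  have hsph : ∀ z ∈ sphere y ρ, (2 * C + 1) ≤ ‖N P Q z - N P Q y‖ := by
    intro z hz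
    have hz' := sphere_subset_closedBall hz
    have h3 := (g.good z (hgood z hz')).2.2.1
    rw [mem_sphere, dist_eq_norm] at hz
    have e : z - y = (N P Q z - N P Q y) + P.eval z / (D P Q).eval z
        - P.eval y / (D P Q).eval y := by
      unfold N; ring
    have : ‖z - y‖ ≤ ‖N P Q z - N P Q y‖ + ‖P.eval z / (D P Q).eval z‖ +
        ‖P.eval y / (D P Q).eval y‖ := by
      rw [e]
      exact le_trans (norm_sub_le _ _) (add_le_add (norm_add_le _ _) le_rfl)
    linarith
  have hne : ∃ᶠ z in 𝓝 y, N P Q z ≠ N P Q y := by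
    have hev := (hasStrictDerivAt_N hy1).hasDerivAt.eventually_ne (c := N P Q y)
      (h.deriv_ne hy1 hy2)
    exact (hev.frequently).filter_mono nhdsWithin_le_nhds
  have hsub := hdiff.ball_subset_image_closedBall hρ0 hsph hne
  have hmem : y ∈ ball (N P Q y) ((2 * C + 1) / 2) := by
    rw [mem_ball, dist_eq_norm]
    have : y - N P Q y = P.eval y / (D P Q).eval y := by unfold N; ring
    rw [this]
    linarith
  obtain ⟨z, hz, hzy⟩ := hsub hmem
  exact ⟨z, by linarith [hball z hz], hzy⟩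

/-- The domain of the covering. -/
abbrev E (P Q : ℂ[X]) : Type := {z : ℂ // (D P Q).eval z ≠ 0}

/-- `N` as a map on `E`. -/
def p (P Q : ℂ[X]) (z : E P Q) : ℂ := N P Q z.1

lemma continuous_p : Continuous (p P Q) := by
  rw [continuous_iff_continuousAt]
  intro z
  have := (hasStrictDerivAt_N z.2).hasDerivAt.continuousAt
  exact this.comp continuous_subtype_val.continuousAt

lemma Hyp.isProper (h : Hyp P Q) {ε M C : ℝ} (g : Good P Q ε M C) : IsProperMap (p P Q) := by
  rw [isProperMap_iff_isCompact_preimage]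
  refine ⟨continuous_p, fun K hK => ?_⟩
  rw [Subtype.isCompact_iff]
  -- bound
  obtain ⟨B0, hB0⟩ : ∃ B0 : ℝ, ∀ y ∈ K, ‖S Q y‖ ≤ B0 := by
    have := (hK.image (continuous_S (Q := Q))).isBounded.exists_norm_le
    obtain ⟨B0, hB0⟩ := this
    exact ⟨B0, fun y hy => hB0 _ ⟨y, hy, rfl⟩⟩
  obtain ⟨B, hB⟩ := h.large_S (max M (B0 + 1 + ε) + 1)
  have himg : (Subtype.val '' (p P Q ⁻¹' K) : Set ℂ) =
      Prod.fst '' ({w : ℂ × ℂ | (w.1 - w.2) * (D P Q).eval w.1 = P.eval w.1} ∩
        (closedBall (0:ℂ) B ×ˢ K)) := by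
    ext z
    constructor
    · rintro ⟨⟨z, hz⟩, hzK, rfl⟩
      refine ⟨(z, N P Q z), ⟨?_, ?_, hzK⟩, rfl⟩
      · change (z - N P Q z) * _ = _
        unfold N
        field_simp
        ring
      · change z ∈ closedBall (0:ℂ) B
        rw [mem_closedBall, dist_zero_right]
        by_contra hlt
        push Not at hlt
        have h1 := hB z hlt.le
        have h2 := g.growth z
        have h3 := hB0 _ hzK
        have h4 : max M (‖S Q (N P Q z)‖ + 1 + ε) ≤ max M (B0 + 1 + ε) := by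
          apply max_le_max le_rfl
          change ‖S Q (N P Q z)‖ ≤ B0 at h3
          linarith
        linarith
    · rintro ⟨⟨z, y⟩, ⟨h1, h2, h3⟩, rfl⟩
      simp only [Set.mem_ofPred_eq] at h1
      have hD : (D P Q).eval z ≠ 0 := by
        intro h0
        rw [h0, mul_zero] at h1
        exact h.D_ne_of_P h1.symm h0
      refine ⟨⟨z, hD⟩, ?_, rfl⟩
      change N P Q z ∈ K
      have : N P Q z = y := by
        unfold N
        rw [← h1]
        field_simp
        ring
      rw [this]; exact h3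
  rw [himg]
  apply IsCompact.image _ continuous_fst
  apply IsCompact.inter_left ((isCompact_closedBall _ _).prod hK)
  apply isClosed_eq
  · exact (continuous_fst.sub continuous_snd).mul ((D P Q).continuous.comp continuous_fst)
  · exact P.continuous.comp continuous_fst

lemma Hyp.isCoveringMapOn (h : Hyp P Q) {ε M C : ℝ} (g : Good P Q ε M C) :
    IsCoveringMapOn (p P Q) {y | P.eval y ≠ 0} := by
  apply (h.isProper g).isClosedMap.isCoveringMapOn_of_isLocalHomeomorphOn
  · intro y hy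
    -- finite fibres
    have : (Subtype.val '' (p P Q ⁻¹' {y}) : Set ℂ).Finite := by
      apply Set.Finite.subset (((X - Polynomial.C y) * D P Q - P).rootSet_finite ℂ)
      rintro z ⟨⟨z, hz⟩, hzy, rfl⟩
      rw [mem_rootSet]
      constructor
      · intro h0
        have h1 : ((X - Polynomial.C y) * D P Q).natDegree = P.natDegree := by
          rw [sub_eq_zero.mp h0]
        rw [natDegree_mul (X_sub_C_ne_zero y) h.D_ne, natDegree_X_sub_C, h.natDegree_D] at h1
        omega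
      · have hzy' : N P Q z = y := hzy
        simp only [map_sub, map_mul, aeval_X, aeval_C, coe_aeval_eq_eval]
        rw [← hzy']
        simp only [Algebra.algebraMap_self, RingHom.id_apply]
        unfold N
        field_simp
        ring
    exact this.of_finite_image Subtype.val_injective.injOn
  · have h1 : IsLocalHomeomorphOn (N P Q) {z | (D P Q).eval z ≠ 0 ∧ P.eval z ≠ 0} := by
      rintro z ⟨hz1, hz2⟩
      exact ⟨_, ((hasStrictDerivAt_N hz1).hasStrictFDerivAt_equiv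
        (h.deriv_ne hz1 hz2)).mem_toOpenPartialHomeomorph_source, by simp⟩
    have hopen : IsOpen {z : ℂ | (D P Q).eval z ≠ 0} :=
      isOpen_ne_fun (D P Q).continuous continuous_const
    have h2 : IsLocalHomeomorph (Subtype.val : E P Q → ℂ) :=
      (hopen.isOpenEmbedding_subtypeVal).isLocalHomeomorph
    have h3 := h1.comp (h2.isLocalHomeomorphOn (s := p P Q ⁻¹' {y | P.eval y ≠ 0})) (by
      intro z hz
      refine ⟨z.2, fun h0 => hz ?_⟩
      change P.eval (N P Q z.1) = 0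
      unfold N
      rw [h0]
      simp [h0])
    exact h3

end

end Pool.Agent.V11287.NP
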