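import Pool.Agent.V11287.NP2

open Polynomial Filter Topology Bornology Set Metric

namespace Pool.Agent.V11287.NP

noncomputable section

variable {P Q : ℂ[X]}

/-- lifting lemma -/
lemma Hyp.lift (h : Hyp P Q) {ε M C : ℝ} (g : Good P Q ε M C) {V : Set ℂ} (hVo : IsOpen V)
    (hVc : Convex ℝ V) (G : ℂ → ℂ) (hG : DifferentiableOn ℂ G V)
    (hGP : ∀ ζ ∈ V, P.eval (G ζ) ≠ 0) (ζ₀ : ℂ) (hζ₀ : ζ₀ ∈ V) (z₀ : ℂ)
    (hz₀ : (D P Q).eval z₀ ≠ 0) (hN : N P Q z₀ = G ζ₀) :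
    ∃ H : ℂ → ℂ, DifferentiableOn ℂ H V ∧ H ζ₀ = z₀ ∧
      ∀ ζ ∈ V, (D P Q).eval (H ζ) ≠ 0 ∧ N P Q (H ζ) = G ζ := by
  have : ContractibleSpace V := hVc.contractibleSpace ⟨ζ₀, hζ₀⟩
  have : LocallyPathConnectedSpace V := hVo.locallyPathConnectedSpace
  let f : C(V, ℂ) := ⟨fun v => G v, by
    have := continuousOn_iff_continuous_domRestrict.mp hG.continuousOn
    exact this⟩
  obtain ⟨F, ⟨hF0, hF⟩, -⟩ := (h.isCoveringMapOn g).existsUnique_continuousMap_lifts f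
    (a₀ := ⟨ζ₀, hζ₀⟩) (e₀ := ⟨z₀, hz₀⟩) hN (fun a => hGP a a.2)
  classical
  let H : ℂ → ℂ := fun ζ => if hζ : ζ ∈ V then (F ⟨ζ, hζ⟩).1 else 0
  have hHV : ∀ ζ (hζ : ζ ∈ V), H ζ = (F ⟨ζ, hζ⟩).1 := fun ζ hζ => by
    simp only [H, dif_pos hζ]
  have hHN : ∀ ζ ∈ V, (D P Q).eval (H ζ) ≠ 0 ∧ N P Q (H ζ) = G ζ := by
    intro ζ hζ
    rw [hHV ζ hζ]
    refine ⟨(F ⟨ζ, hζ⟩).2, ?_⟩
    exact congrFun hF ⟨ζ, hζ⟩
  have hHc : ContinuousOn H V := by
    rw [continuousOn_iff_continuous_domRestrict]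
    have : V.domRestrict H = fun v => (F v).1 := by
      ext v
      simp only [domRestrict_apply]
      exact hHV v.1 v.2
    rw [this]
    exact continuous_subtype_val.comp F.continuous
  refine ⟨H, ?_, ?_, hHN⟩
  · intro ζ hζ
    have hD := (hHN ζ hζ).1
    have hPne : P.eval (H ζ) ≠ 0 := by
      intro h0
      have h1 := (hHN ζ hζ).2
      unfold N at h1
      rw [h0] at h1
      simp only [zero_div, sub_zero] at h1
      exact hGP ζ hζ (h1 ▸ h0)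
    have hs := hasStrictDerivAt_N hD
    have hne := h.deriv_ne hD hPne
    have hev := hs.eventually_left_inverse hne
    have hloc := (hs.to_localInverse hne).hasDerivAt.differentiableAt
    have hct : ContinuousAt H ζ := hHc.continuousAt (hVo.mem_nhds hζ)
    have hev2 : ∀ᶠ ξ in 𝓝 ζ, hs.localInverse _ _ _ hne (N P Q (H ξ)) = H ξ :=
      hct.eventually hev
    have hev3 : ∀ᶠ ξ in 𝓝 ζ, H ξ = hs.localInverse _ _ _ hne (G ξ) := by
      filter_upwards [hev2, hVo.mem_nhds hζ] with ξ h1 h2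
      rw [← (hHN ξ h2).2]
      exact h1.symm
    have hGd : DifferentiableAt ℂ G ζ := (hG ζ hζ).differentiableAt (hVo.mem_nhds hζ)
    have hcomp : DifferentiableAt ℂ (fun ξ => hs.localInverse _ _ _ hne (G ξ)) ζ := by
      apply DifferentiableAt.comp (g := hs.localInverse _ _ _ hne) ζ _ hGd
      rw [← (hHN ζ hζ).2]
      exact hloc
    exact (hcomp.congr_of_eventuallyEq hev3).differentiableWithinAt
  · rw [hHV ζ₀ hζ₀, hF0]

/-- The half planes. -/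
def A (a : ℝ) : Set ℂ := {ζ | ζ.re < -a}

lemma isOpen_A (a : ℝ) : IsOpen (A a) := isOpen_lt Complex.continuous_re continuous_const

lemma convex_A (a : ℝ) : Convex ℝ (A a) := convex_halfSpace_re_lt _

lemma norm_gt_of_mem_A {a : ℝ} {ζ : ℂ} (h : ζ ∈ A a) : a < ‖ζ‖ := by
  have h1 : ζ.re < -a := h
  have := Complex.abs_re_le_norm ζ
  have := neg_abs_le ζ.re
  linarith

/-- One step of the induction. -/
lemma Hyp.step (h : Hyp P Q) {ε M C : ℝ} (g : Good P Q ε M C) (hε0 : 0 ≤ ε) (hε : ε ≤ 1) (k : ℕ)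
    (hG : ∃ G : ℂ → ℂ, DifferentiableOn ℂ G (A (M + 3)) ∧ (∀ ζ ∈ A (M + 3), P.eval (G ζ) ≠ 0) ∧
      (∀ ζ ∈ A (M + 3), ‖S Q (G ζ)‖ ≤ ‖ζ‖ + 2 * k) ∧
      (∀ ζ ∈ A (M + 3 + (1 + ε) * k), ‖S Q (G ζ) - ζ - k‖ ≤ ε * k)) :
    ∃ G : ℂ → ℂ, DifferentiableOn ℂ G (A (M + 3)) ∧ (∀ ζ ∈ A (M + 3), P.eval (G ζ) ≠ 0) ∧
      (∀ ζ ∈ A (M + 3), ‖S Q (G ζ)‖ ≤ ‖ζ‖ + 2 * (k + 1 : ℕ)) ∧
      (∀ ζ ∈ A (M + 3 + (1 + ε) * (k + 1 : ℕ)), ‖S Q (G ζ) - ζ - (k + 1 : ℕ)‖ ≤ ε * (k + 1 : ℕ)) := by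
  obtain ⟨G, hGd, hGP, hGb, hGA⟩ := hG
  obtain ⟨Y, hY⟩ := h.exists_large_preimage g
  have hM := g.hM
  have hk0 : (0:ℝ) ≤ k := Nat.cast_nonneg k
  -- base point
  set t : ℝ := (M + 3 + (1 + ε) * k) + |Y| + (1 + ε) * k + 1 with ht
  have hAk : A (M + 3 + (1 + ε) * k) ⊆ A (M + 3) := by
    intro ζ hζ
    have h1 : ζ.re < -(M + 3 + (1 + ε) * k) := hζ
    change ζ.re < -(M + 3)
    have : 0 ≤ (1 + ε) * k := by positivity
    linarith
  have ht0 : 0 ≤ t := by positivity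
  have hζ₀A : ((-t : ℝ) : ℂ) ∈ A (M + 3 + (1 + ε) * k) := by
    change ((-t : ℝ) : ℂ).re < _
    rw [Complex.ofReal_re, ht]
    have : 0 ≤ (1 + ε) * k := by positivity
    have := abs_nonneg Y
    linarith
  set ζ₀ : ℂ := ((-t : ℝ) : ℂ) with hζ₀
  have hnζ : ‖ζ₀‖ = t := by
    rw [hζ₀, Complex.norm_real, norm_neg, Real.norm_of_nonneg ht0]
  have hSG : Y ≤ ‖S Q (G ζ₀)‖ := by
    have h1 := hGA ζ₀ hζ₀A
    have h2 : ‖ζ₀‖ ≤ ‖S Q (G ζ₀)‖ + ‖S Q (G ζ₀) - ζ₀ - k‖ + ‖(k:ℂ)‖ := by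
      have e : ζ₀ = S Q (G ζ₀) - (S Q (G ζ₀) - ζ₀ - k) - k := by ring
      calc ‖ζ₀‖ = ‖S Q (G ζ₀) - (S Q (G ζ₀) - ζ₀ - k) - k‖ := by rw [← e]
        _ ≤ ‖S Q (G ζ₀) - (S Q (G ζ₀) - ζ₀ - k)‖ + ‖(k:ℂ)‖ := norm_sub_le _ _
        _ ≤ _ := by gcongr; exact norm_sub_le _ _
    rw [hnζ, Complex.norm_natCast] at h2
    have := le_abs_self Y
    have : 0 ≤ (1 + ε) * k := by positivity
    rw [ht] at h2
    linarith
  obtain ⟨z₀, hz₀M, hz₀N⟩ := hY _ hSG
  obtain ⟨H, hHd, hH0, hHN⟩ := h.lift g (isOpen_A _) (convex_A _) G hGd hGP ζ₀ (hAk hζ₀A) z₀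
    (g.good z₀ hz₀M.le).1 hz₀N
  have hgr : ∀ ζ ∈ A (M + 3), ‖S Q (H ζ)‖ ≤ max M (‖S Q (G ζ)‖ + 1 + ε) := by
    intro ζ hζ
    have := g.growth (H ζ)
    rwa [(hHN ζ hζ).2] at this
  refine ⟨H, hHd, ?_, ?_, ?_⟩
  · intro ζ hζ h0
    have h1 := (hHN ζ hζ).2
    unfold N at h1
    rw [h0] at h1
    simp only [zero_div, sub_zero] at h1
    exact hGP ζ hζ (h1 ▸ h0)
  · intro ζ hζ
    refine le_trans (hgr ζ hζ) ?_
    have h1 := hGb ζ hζ
    have h2 := norm_gt_of_mem_A hζ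
    push_cast
    apply max_le
    · linarith
    · linarith
  · -- on A_k, |S H| > M
    have hlarge : ∀ ζ ∈ A (M + 3 + (1 + ε) * k), M < ‖S Q (H ζ)‖ := by
      have hpre : IsPreconnected (A (M + 3 + (1 + ε) * k)) := (convex_A _).isPreconnected
      have hcont : ContinuousOn (fun ζ => ‖S Q (H ζ)‖) (A (M + 3 + (1 + ε) * k)) :=
        (continuous_S.comp_continuousOn (hHd.continuousOn.mono hAk)).norm
      have hnever : ∀ ζ ∈ A (M + 3 + (1 + ε) * k), ‖S Q (H ζ)‖ ≠ M := by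
        intro ζ hζ heq
        have h1 := (g.good (H ζ) heq.ge).2.2.2
        rw [(hHN ζ (hAk hζ)).2] at h1
        have h2 := hGA ζ hζ
        have h3 : ζ.re < -(M + 3 + (1 + ε) * k) := hζ
        -- ‖S G‖ ≥ - Re (S G) ≥ -Re ζ - k - ε k > M + 3
        have h4 : |(S Q (G ζ) - ζ - k).re| ≤ ε * k := le_trans (Complex.abs_re_le_norm _) h2
        have h5 : (S Q (G ζ) - ζ - k).re = (S Q (G ζ)).re - ζ.re - k := by simp
        rw [h5] at h4
        have h6 := (abs_le.mp h4).2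
        have h7 : |(S Q (G ζ)).re| ≤ ‖S Q (G ζ)‖ := Complex.abs_re_le_norm _
        have h8 := neg_abs_le (S Q (G ζ)).re
        have h9 : ‖S Q (G ζ)‖ ≤ M + 1 + ε := by
          have e : S Q (G ζ) = (S Q (G ζ) - S Q (H ζ) + 1) + (S Q (H ζ) - 1) := by ring
          calc ‖S Q (G ζ)‖ = ‖(S Q (G ζ) - S Q (H ζ) + 1) + (S Q (H ζ) - 1)‖ := by rw [← e]
            _ ≤ ‖S Q (G ζ) - S Q (H ζ) + 1‖ + ‖S Q (H ζ) - 1‖ := norm_add_le _ _
            _ ≤ ε + (‖S Q (H ζ)‖ + ‖(1:ℂ)‖) := add_le_add h1 (norm_sub_le _ _)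
            _ = M + 1 + ε := by rw [heq, norm_one]; ring
        linarith
      intro ζ hζ
      by_contra hlt
      push Not at hlt
      have hb : M < ‖S Q (H ζ₀)‖ := by rw [hH0]; exact hz₀M
      have := hpre.intermediate_value hζ hζ₀A hcont
      obtain ⟨ξ, hξ, hξM⟩ := this ⟨hlt, hb.le⟩
      exact hnever ξ hξ hξM
    intro ζ hζ
    have hζk : ζ ∈ A (M + 3 + (1 + ε) * k) := by
      have h1 : ζ.re < -(M + 3 + (1 + ε) * (k + 1 : ℕ)) := hζ
      change ζ.re < -(M + 3 + (1 + ε) * k)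
      push_cast at h1
      nlinarith
    have h1 := (g.good (H ζ) (hlarge ζ hζk).le).2.2.2
    rw [(hHN ζ (hAk hζk)).2] at h1
    have h2 := hGA ζ hζk
    have e : S Q (H ζ) - ζ - (k + 1 : ℕ) = (S Q (G ζ) - ζ - k) - (S Q (G ζ) - S Q (H ζ) + 1) := by
      push_cast; ring
    rw [e]
    refine le_trans (norm_sub_le _ _) ?_
    push_cast
    linarith

/-- The base case. -/
lemma Hyp.base (h : Hyp P Q) {ε M C : ℝ} (g : Good P Q ε M C) :
    ∃ G : ℂ → ℂ, DifferentiableOn ℂ G (A (M + 3)) ∧ (∀ ζ ∈ A (M + 3), P.eval (G ζ) ≠ 0) ∧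
      (∀ ζ ∈ A (M + 3), ‖S Q (G ζ)‖ ≤ ‖ζ‖ + 2 * (0 : ℕ)) ∧
      (∀ ζ ∈ A (M + 3 + (1 + ε) * (0 : ℕ)), ‖S Q (G ζ) - ζ - (0 : ℕ)‖ ≤ ε * (0 : ℕ)) := by
  have hq : Q.leadingCoeff ≠ 0 := leadingCoeff_ne_zero.mpr h.qne
  have hd : ((Q.natDegree : ℂ) + 1) ≠ 0 := Nat.cast_add_one_ne_zero _
  obtain ⟨μ, hμ⟩ := IsAlgClosed.exists_pow_nat_eq (-((Q.natDegree : ℂ) + 1) / Q.leadingCoeff)
    (Nat.succ_pos Q.natDegree)
  have hS : ∀ ζ : ℂ, S Q (μ * (-ζ) ^ (((Q.natDegree + 1 : ℕ) : ℂ)⁻¹)) = ζ := by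
    intro ζ
    unfold S
    rw [mul_pow, Complex.cpow_nat_inv_pow _ (Nat.succ_ne_zero _), hμ]
    field_simp
  refine ⟨fun ζ => μ * (-ζ) ^ (((Q.natDegree + 1 : ℕ) : ℂ)⁻¹), ?_, ?_, ?_, ?_⟩
  · intro ζ hζ
    have h1 : ζ.re < -(M + 3) := hζ
    have hsl : -ζ ∈ Complex.slitPlane := by
      left
      rw [Complex.neg_re]
      have := g.hM
      linarith
    exact ((differentiableAt_id.neg.cpow (differentiableAt_const _) hsl).const_mul
      μ).differentiableWithinAt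
  · intro ζ hζ
    have := norm_gt_of_mem_A hζ
    have h2 := g.good (μ * (-ζ) ^ (((Q.natDegree + 1 : ℕ) : ℂ)⁻¹)) (by rw [hS]; linarith)
    exact h2.2.1
  · intro ζ hζ
    simp only
    rw [hS]
    simp
  · intro ζ hζ
    simp only
    rw [hS]
    simp

/-- The covering argument. -/
lemma covering (F : ℂ → ℂ) (a K : ℝ) (ha : 0 < a) (haK : 10000 * a ≤ K)
    (hF : DifferentiableOn ℂ F (A a)) (h1 : ∀ ζ ∈ A a, ‖F ζ‖ ≤ ‖ζ‖ + 2 * K)
    (h2 : ∀ ζ ∈ A (a + (1 + 1 / 80000) * K), ‖F ζ - ζ - K‖ ≤ 1 / 80000 * K) :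
    ∃ ζ ∈ A a, F ζ = 0 := by
  have hK : 0 < K := by linarith
  set t : ℝ := a + (1 + 1 / 80000) * K + 1 / 10000 * K with ht
  have ht0 : 0 < t := by positivity
  set x : ℂ := ((-t : ℝ) : ℂ) with hx
  have hxre : x.re = -t := by rw [hx, Complex.ofReal_re]
  have hxn : ‖x‖ = t := by
    rw [hx, Complex.norm_real, norm_neg, Real.norm_of_nonneg ht0.le]
  have hre : ∀ ζ : ℂ, ζ.re ≤ -t + ‖ζ - x‖ := by
    intro ζ
    have := Complex.re_le_norm (ζ - x)
    rw [Complex.sub_re, hxre] at this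
    linarith
  have hball1 : closedBall x (1 / 20000 * K) ⊆ A (a + (1 + 1 / 80000) * K) := by
    intro ζ hζ
    rw [mem_closedBall, dist_eq_norm] at hζ
    have := hre ζ
    change ζ.re < _
    rw [ht] at this
    linarith
  have hball2 : closedBall x (3 / 8 * K) ⊆ A a := by
    intro ζ hζ
    rw [mem_closedBall, dist_eq_norm] at hζ
    have := hre ζ
    change ζ.re < _
    rw [ht] at this
    linarith
  have hbound : ∀ ζ ∈ closedBall x (3 / 8 * K), ‖F ζ‖ ≤ 4 * K := by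
    intro ζ hζ
    have h3 := h1 ζ (hball2 hζ)
    rw [mem_closedBall, dist_eq_norm] at hζ
    have : ‖ζ‖ ≤ ‖ζ - x‖ + ‖x‖ := by
      calc ‖ζ‖ = ‖(ζ - x) + x‖ := by ring_nf
        _ ≤ _ := norm_add_le _ _
    rw [hxn, ht] at this
    linarith
  have hdiffAt : ∀ ζ ∈ A a, DifferentiableAt ℂ F ζ := fun ζ hζ =>
    (hF ζ hζ).differentiableAt ((isOpen_A a).mem_nhds hζ)
  have hxA : x ∈ A a := hball2 (mem_closedBall_self (by positivity))
  -- derivative at x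
  have hder1 : ‖deriv F x - 1‖ ≤ 1 / 4 := by
    have hd : DiffContOnCl ℂ (fun ζ => F ζ - ζ - K) (ball x (1 / 20000 * K)) := by
      apply DifferentiableOn.diffContOnCl
      rw [closure_ball x (by positivity)]
      intro ζ hζ
      have h3 : ζ ∈ A a := by
        apply hball2
        rw [mem_closedBall] at hζ ⊢
        linarith
      exact (((hdiffAt ζ h3).sub differentiableAt_id).sub_const _).differentiableWithinAt
    have h3 := Complex.norm_deriv_le_of_forall_mem_sphere_norm_le (c := x)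
      (R := 1 / 20000 * K) (C := 1 / 80000 * K) (f := fun ζ => F ζ - ζ - K) (by positivity) hd
      (fun ζ hζ => h2 ζ (hball1 (sphere_subset_closedBall hζ)))
    have h4 : deriv (fun ζ => F ζ - ζ - K) x = deriv F x - 1 := by
      have := (((hdiffAt x hxA).hasDerivAt.sub (hasDerivAt_id x)).sub_const (K:ℂ))
      exact this.deriv
    rw [h4] at h3
    refine le_trans h3 (le_of_eq ?_)
    field_simp
    norm_num
  have hder2 : 3 / 4 ≤ ‖deriv F x‖ := by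
    have : ‖(1:ℂ)‖ ≤ ‖deriv F x‖ + ‖deriv F x - 1‖ := by
      calc ‖(1:ℂ)‖ = ‖deriv F x - (deriv F x - 1)‖ := by ring_nf
        _ ≤ _ := norm_sub_le _ _
    rw [norm_one] at this
    linarith
  have hder32 : ∀ ζ ∈ ball x (K / 4), ‖deriv F ζ‖ ≤ 32 := by
    intro ζ hζ
    rw [mem_ball, dist_eq_norm] at hζ
    have hsub : closedBall ζ (K / 8) ⊆ closedBall x (3 / 8 * K) := by
      intro ξ hξ
      rw [mem_closedBall, dist_eq_norm] at hξ ⊢
      calc ‖ξ - x‖ = ‖(ξ - ζ) + (ζ - x)‖ := by ring_nf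
        _ ≤ ‖ξ - ζ‖ + ‖ζ - x‖ := norm_add_le _ _
        _ ≤ _ := by linarith
    have hd : DiffContOnCl ℂ F (ball ζ (K / 8)) := by
      apply DifferentiableOn.diffContOnCl
      rw [closure_ball ζ (by positivity)]
      exact hF.mono (hsub.trans hball2)
    have h3 := Complex.norm_deriv_le_of_forall_mem_sphere_norm_le (c := ζ)
      (R := K / 8) (C := 4 * K) (f := F) (by positivity) hd
      (fun ξ hξ => hbound ξ (hsub (sphere_subset_closedBall hξ)))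
    refine le_trans h3 (le_of_eq ?_)
    field_simp
    norm_num
  have hderdiff : DifferentiableOn ℂ (deriv F) (ball x (K / 4)) := by
    have h5 : ball x (K / 4) ⊆ A a := by
      intro ζ hζ
      apply hball2
      rw [mem_ball] at hζ
      rw [mem_closedBall]
      linarith
    exact (hF.deriv (isOpen_A a)).mono h5
  have hx32 := hder32 x (mem_ball_self (by positivity))
  have hlip : ∀ ζ ∈ closedBall x (K / 1030), ‖deriv F ζ - deriv F x‖ ≤ 1 / 4 := by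
    intro ζ hζ
    rw [mem_closedBall] at hζ
    have hζ' : ζ ∈ ball x (K / 4) := by
      rw [mem_ball]; linarith
    have h3 := Complex.dist_le_div_mul_dist_of_mapsTo_ball (R₂ := 64) hderdiff (fun ξ hξ => by
      rw [mem_closedBall, dist_eq_norm]
      have := norm_sub_le (deriv F ξ) (deriv F x)
      have := hder32 ξ hξ
      linarith) hζ'
    rw [dist_eq_norm] at h3
    refine le_trans h3 ?_
    have h4 : 64 / (K / 4) * dist ζ x ≤ 64 / (K / 4) * (K / 1030) := by gcongr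
    refine le_trans h4 ?_
    have : 64 / (K / 4) * (K / 1030) = 256 / 1030 := by field_simp; norm_num
    rw [this]; norm_num
  have hsub3 : closedBall x (K / 1030) ⊆ A a := by
    intro ζ hζ
    apply hball2
    rw [mem_closedBall] at hζ ⊢
    linarith
  -- mean value inequality
  have hmv : ∀ ζ ∈ closedBall x (K / 1030), ‖(F ζ - deriv F x * ζ) - (F x - deriv F x * x)‖ ≤
      1 / 4 * ‖ζ - x‖ := by
    intro ζ hζ
    have hc : Convex ℝ (closedBall x (K / 1030)) := convex_closedBall _ _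
    have hxm : x ∈ closedBall x (K / 1030) := mem_closedBall_self (by positivity)
    have := hc.norm_image_sub_le_of_norm_hasDerivWithin_le (f := fun ξ => F ξ - deriv F x * ξ)
      (f' := fun ξ => deriv F ξ - deriv F x * 1) (C := 1 / 4) (fun ξ hξ =>
        (((hdiffAt ξ (hsub3 hξ)).hasDerivAt.sub
          ((hasDerivAt_id ξ).const_mul (deriv F x))).hasDerivWithinAt)) (fun ξ hξ => by
        rw [mul_one]; exact hlip ξ hξ) hxm hζ
    exact this
  have hlow : ∀ ζ ∈ sphere x (K / 1030), K / 2060 ≤ ‖F ζ - F x‖ := by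
    intro ζ hζ
    have h3 := hmv ζ (sphere_subset_closedBall hζ)
    rw [mem_sphere, dist_eq_norm] at hζ
    have h4 : ‖deriv F x * (ζ - x)‖ ≤ ‖F ζ - F x‖ +
        ‖(F ζ - deriv F x * ζ) - (F x - deriv F x * x)‖ := by
      have e : deriv F x * (ζ - x) = (F ζ - F x) -
          ((F ζ - deriv F x * ζ) - (F x - deriv F x * x)) := by ring
      rw [e]; exact norm_sub_le _ _
    rw [norm_mul, hζ] at h4
    rw [hζ] at h3
    have h5 : 3 / 4 * (K / 1030) ≤ ‖deriv F x‖ * (K / 1030) := by gcongr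
    linarith
  have hdC : DiffContOnCl ℂ F (ball x (K / 1030)) := by
    apply DifferentiableOn.diffContOnCl
    rw [closure_ball x (by positivity)]
    exact hF.mono hsub3
  have hfreq : ∃ᶠ z in 𝓝 x, F z ≠ F x := by
    have hne : deriv F x ≠ 0 := by
      intro h0
      rw [h0, norm_zero] at hder2
      linarith
    have hev := (hdiffAt x hxA).hasDerivAt.eventually_ne (c := F x) hne
    exact (hev.frequently).filter_mono nhdsWithin_le_nhds
  have hcov := hdC.ball_subset_image_closedBall (by positivity) hlow hfreq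
  have hmem : (0:ℂ) ∈ ball (F x) (K / 2060 / 2) := by
    rw [mem_ball, dist_eq_norm, zero_sub, norm_neg]
    have h3 := h2 x (hball1 (mem_closedBall_self (by positivity)))
    have h4 : ‖F x‖ ≤ ‖F x - x - K‖ + ‖x + K‖ := by
      calc ‖F x‖ = ‖(F x - x - K) + (x + K)‖ := by ring_nf
        _ ≤ _ := norm_add_le _ _
    have h5 : ‖x + K‖ = t - K := by
      have : x + K = ((-(t - K) : ℝ) : ℂ) := by
        rw [hx]; push_cast; ring
      rw [this, Complex.norm_real, norm_neg, Real.norm_of_nonneg]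
      rw [ht]
      linarith
    rw [h5, ht] at h4
    linarith
  obtain ⟨ζ, hζ, hζ0⟩ := hcov hmem
  exact ⟨ζ, hsub3 hζ, hζ0⟩

/-- **Main theorem**: the hypotheses are contradictory. -/
theorem Hyp.false (h : Hyp P Q) : False := by
  obtain ⟨M, C, hM, hC, hgood⟩ := h.exists_good (1 / 80000) (by norm_num)
  have g : Good P Q (1 / 80000) M C := ⟨hM, hC, hgood⟩
  have key : ∀ k : ℕ, ∃ G : ℂ → ℂ, DifferentiableOn ℂ G (A (M + 3)) ∧
      (∀ ζ ∈ A (M + 3), P.eval (G ζ) ≠ 0) ∧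
      (∀ ζ ∈ A (M + 3), ‖S Q (G ζ)‖ ≤ ‖ζ‖ + 2 * (k : ℕ)) ∧
      (∀ ζ ∈ A (M + 3 + (1 + 1 / 80000) * (k : ℕ)), ‖S Q (G ζ) - ζ - (k : ℕ)‖ ≤
        1 / 80000 * (k : ℕ)) := by
    intro k
    induction k with
    | zero => exact h.base g
    | succ k ih => exact h.step g (by norm_num) (by norm_num) k ih
  obtain ⟨k, hk⟩ := exists_nat_ge (10000 * (M + 3))
  obtain ⟨G, hGd, hGP, hGb, hGA⟩ := key k
  obtain ⟨ζ, hζ, hζ0⟩ := covering (fun ζ => S Q (G ζ)) (M + 3) k (by linarith) hk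
    (differentiable_S.comp_differentiableOn hGd) hGb (by
      intro ζ hζ
      have := hGA ζ hζ
      simpa using this)
  have hS0 : S Q (G ζ) = 0 := hζ0
  have hq : Q.leadingCoeff ≠ 0 := leadingCoeff_ne_zero.mpr h.qne
  have hd : ((Q.natDegree : ℂ) + 1) ≠ 0 := Nat.cast_add_one_ne_zero _
  have hG0 : G ζ = 0 := by
    unfold S at hS0
    rw [div_eq_zero_iff] at hS0
    rcases hS0 with h1 | h1
    · rcases mul_eq_zero.mp h1 with h2 | h2
      · exact pow_eq_zero_iff (by omega) |>.mp h2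
      · exact absurd h2 hq
    · exact absurd h1 hd
  apply hGP ζ hζ
  rw [hG0]
  exact h.zero

end

end Pool.Agent.V11287.NP
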