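import Pool.Agent.V11287.NP3

open Polynomial

namespace Pool.Agent.V11287.NP

/-- **Main theorem.**  If `P` is a nonconstant polynomial with simple zeros and `Q ≠ 0`, then with
`D = QP + P'` some zero of `QD + D'` is neither a zero of `P` nor a zero of `D`. -/
theorem main {P Q : ℂ[X]} (hdeg : 0 < P.natDegree)
    (simple : ∀ z, P.eval z = 0 → (derivative P).eval z ≠ 0) (hQ : Q ≠ 0)
    (crit : ∀ z, (Q * (Q * P + derivative P) + derivative (Q * P + derivative P)).eval z = 0 →
      P.eval z = 0 ∨ (Q * P + derivative P).eval z = 0) : False := by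
  obtain ⟨z₁, hz₁⟩ := IsAlgClosed.exists_root P (by
    intro h
    have := natDegree_eq_of_degree_eq_some (n := 0) (by simpa using h)
    omega)
  set τ : ℂ[X] := X + C z₁ with hτ
  have hcomp : ∀ p : ℂ[X], derivative (p.comp τ) = (derivative p).comp τ := by
    intro p
    rw [derivative_comp, hτ]
    simp
  have hev : ∀ (p : ℂ[X]) (z : ℂ), (p.comp τ).eval z = p.eval (z + z₁) := by
    intro p z
    rw [eval_comp, hτ]
    simp
  have hD : D (P.comp τ) (Q.comp τ) = (Q * P + derivative P).comp τ := by
    unfold D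
    rw [hcomp, add_comp, mul_comp]
  apply Hyp.false (P := P.comp τ) (Q := Q.comp τ)
  refine ⟨?_, ?_, ?_, ?_⟩
  · intro z hz
    rw [hev] at hz
    rw [hcomp, hev]
    exact simple _ hz
  · rw [hev, zero_add]
    exact hz₁
  · intro h0
    apply hQ
    have : (Q.comp τ).comp (X - C z₁) = Q := by
      rw [comp_assoc, hτ]
      simp
    rw [← this, h0]
    simp
  · intro z hz
    rw [hD, hcomp, ← mul_comp, ← add_comp, hev] at hz
    rw [hD, hev, hev]
    exact crit _ hz

end Pool.Agent.V11287.NP
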