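import Mathlib

set_option autoImplicit false

namespace Pool.Agent.V11287.PT

/-- Peltesohn difference triples `(x, y x, x + y x)`, `1 ≤ x ≤ k`. -/
def Good (n k : ℕ) (y : ℕ → ℕ) : Prop :=
  (∀ x, 1 ≤ x → x ≤ k → 1 ≤ y x ∧ x + y x < n ∧
      (n = 6 * k + 3 → x ≠ 2 * k + 1 ∧ y x ≠ 2 * k + 1 ∧ x + y x ≠ 2 * k + 1 ∧
        x ≠ 4 * k + 2 ∧ y x ≠ 4 * k + 2 ∧ x + y x ≠ 4 * k + 2)) ∧
  ∀ x x', 1 ≤ x → x ≤ k → 1 ≤ x' → x' ≤ k →
    x ≠ y x' ∧ x ≠ x' + y x' ∧ (y x = y x' → x = x') ∧ y x ≠ x' + y x' ∧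
    (x + y x = x' + y x' → x = x') ∧ x + x' ≠ n ∧ x + y x' ≠ n ∧ x + (x' + y x') ≠ n ∧
    y x + y x' ≠ n ∧ y x + (x' + y x') ≠ n ∧ (x + y x) + (x' + y x') ≠ n

theorem good1 (s : ℕ) (hs : 1 ≤ s) : Good (18 * s + 1) (3 * s)
    (fun x => if x = 3 * s then 3 * s + 1 else
      if x % 3 = 1 then 4 * s + 1 - x / 3 else
      if x % 3 = 2 then 8 * s - x / 3 else 6 * s + 1 - 2 * (x / 3)) := by
  constructor
  · intro x h1 h2
    dsimp only
    split_ifs <;> omega
  · intro x x' h1 h2 h3 h4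
    dsimp only
    split_ifs <;> omega

theorem good7 (s : ℕ) (hs : 1 ≤ s) : Good (18 * s + 7) (3 * s + 1)
    (fun x => if x = 3 * s + 1 then 4 * s + 2 else
      if x % 3 = 1 then 8 * s + 3 - x / 3 else
      if x % 3 = 2 then 6 * s + 1 - 2 * (x / 3) else 4 * s + 2 - x / 3) := by
  constructor
  · intro x h1 h2
    dsimp only
    split_ifs <;> omega
  · intro x x' h1 h2 h3 h4
    dsimp only
    split_ifs <;> omega

theorem good13 (s : ℕ) (hs : 1 ≤ s) : Good (18 * s + 13) (3 * s + 2)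
    (fun x => if x = 3 * s + 2 then 7 * s + 5 else
      if x % 3 = 1 then 4 * s + 3 - x / 3 else
      if x % 3 = 2 then 6 * s + 3 - 2 * (x / 3) else 8 * s + 6 - x / 3) := by
  constructor
  · intro x h1 h2
    dsimp only
    split_ifs <;> omega
  · intro x x' h1 h2 h3 h4
    dsimp only
    split_ifs <;> omega

theorem good3 (s : ℕ) (hs : 1 ≤ s) : Good (18 * s + 3) (3 * s)
    (fun x =>
      if x % 3 = 1 then 8 * s + 1 - x / 3 else
      if x % 3 = 2 then 4 * s - x / 3 else 6 * s + 1 - 2 * (x / 3)) := by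
  constructor
  · intro x h1 h2
    dsimp only
    split_ifs <;> omega
  · intro x x' h1 h2 h3 h4
    dsimp only
    split_ifs <;> omega

theorem good15 (s : ℕ) (hs : 1 ≤ s) : Good (18 * s + 15) (3 * s + 2)
    (fun x =>
      if x % 3 = 1 then 4 * s + 3 - x / 3 else
      if x % 3 = 2 then 8 * s + 6 - x / 3 else 6 * s + 5 - 2 * (x / 3)) := by
  constructor
  · intro x h1 h2
    dsimp only
    split_ifs <;> omega
  · intro x x' h1 h2 h3 h4
    dsimp only
    split_ifs <;> omega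

theorem good9 (s : ℕ) (hs : 3 ≤ s) : Good (18 * s + 9) (3 * s + 1)
    (fun x => if x = 2 then 8 * s + 3 else if x = 3 then 8 * s + 1 else
      if x = 5 then 8 * s + 2 else if x = 3 * s - 1 then 3 * s + 2 else
      if x = 3 * s then 7 * s + 3 else
      if x % 3 = 1 then 4 * s + 3 - x / 3 else
      if x % 3 = 2 then 8 * s + 2 - x / 3 else 6 * s + 3 - 2 * (x / 3)) := by
  constructor
  · intro x h1 h2
    dsimp only
    split_ifs <;> omega
  · intro x x' h1 h2 h3 h4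
    dsimp only
    split_ifs <;> omega

theorem exists_good (n : ℕ) (hn : 63 ≤ n) (h : n % 6 = 1 ∨ n % 6 = 3) :
    ∃ k y, Good n k y ∧ (n = 6 * k + 1 ∨ n = 6 * k + 3) := by
  have h18 : n = 18 * (n / 18) + n % 18 := by omega
  have : n % 18 = 1 ∨ n % 18 = 3 ∨ n % 18 = 7 ∨ n % 18 = 9 ∨ n % 18 = 13 ∨ n % 18 = 15 := by
    omega
  obtain h | h | h | h | h | h := this <;> rw [h] at h18
  · exact ⟨_, _, by rw [h18]; exact good1 (n / 18) (by omega), by omega⟩
  · exact ⟨_, _, by rw [h18]; exact good3 (n / 18) (by omega), by omega⟩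
  · exact ⟨_, _, by rw [h18]; exact good7 (n / 18) (by omega), by omega⟩
  · exact ⟨_, _, by rw [h18]; exact good9 (n / 18) (by omega), by omega⟩
  · exact ⟨_, _, by rw [h18]; exact good13 (n / 18) (by omega), by omega⟩
  · exact ⟨_, _, by rw [h18]; exact good15 (n / 18) (by omega), by omega⟩

end Pool.Agent.V11287.PT
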