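import Mathlib

set_option autoImplicit false

namespace Pool.Agent.V11287.PT

variable {V : Type*} [Fintype V] [DecidableEq V]

def IsSTS (B : Finset (Finset V)) : Prop :=
  (∀ b ∈ B, b.card = 3) ∧ ∀ x y : V, x ≠ y → ∃! b : Finset V, b ∈ B ∧ x ∈ b ∧ y ∈ b

def Clo (B : Finset (Finset V)) (W : Set V) : Prop :=
  ∀ b ∈ B, ∀ x ∈ b, ∀ y ∈ b, x ≠ y → x ∈ W → y ∈ W → ∀ z ∈ b, z ∈ W

theorem exists_third {B : Finset (Finset V)} (hB : IsSTS B) {x y : V} (h : x ≠ y) :
    ∃ z, z ≠ x ∧ z ≠ y ∧ ({x, y, z} : Finset V) ∈ B := by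
  obtain ⟨b, ⟨hb, hx, hy⟩, -⟩ := hB.2 x y h
  have h3 := hB.1 b hb
  have hsub : ({x, y} : Finset V) ⊆ b := by
    intro a ha
    simp only [Finset.mem_insert, Finset.mem_singleton] at ha
    rcases ha with rfl | rfl <;> assumption
  have hc : ({x, y} : Finset V).card = 2 := Finset.card_pair h
  have hcd : (b \ {x, y}).card = 1 := by
    rw [Finset.card_sdiff_of_subset hsub, h3, hc]
  obtain ⟨z, hz⟩ := Finset.card_eq_one.1 hcd
  have hzb : z ∈ b \ {x, y} := by rw [hz]; simp
  simp only [Finset.mem_sdiff, Finset.mem_insert, Finset.mem_singleton, not_or] at hzb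
  refine ⟨z, hzb.2.1, hzb.2.2, ?_⟩
  have : ({x, y, z} : Finset V) = b := by
    apply Finset.eq_of_subset_of_card_le
    · intro a ha
      simp only [Finset.mem_insert, Finset.mem_singleton] at ha
      rcases ha with rfl | rfl | rfl
      · exact hx
      · exact hy
      · exact hzb.1
    · rw [h3, Finset.card_eq_three.2 ⟨x, y, z, h, Ne.symm hzb.2.1, Ne.symm hzb.2.2, rfl⟩]
  rw [this]; exact hb

theorem uniq {B : Finset (Finset V)} (hB : IsSTS B) {x y : V} (h : x ≠ y) {b c : Finset V}
    (hb : b ∈ B) (hc : c ∈ B) (h1 : x ∈ b) (h2 : y ∈ b) (h3 : x ∈ c) (h4 : y ∈ c) : b = c := by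
  obtain ⟨d, -, hd⟩ := hB.2 x y h
  rw [hd b ⟨hb, h1, h2⟩, hd c ⟨hc, h3, h4⟩]

theorem gen_step {B : Finset (Finset V)} (hB : IsSTS B) (j : ℕ) :
    ∃ S : Finset V, S.card ≤ j ∧ ((∀ W, Clo B W → (S : Set V) ⊆ W → W = Set.univ) ∨
      (∀ W, Clo B W → (S : Set V) ⊆ W → 2 ^ j ≤ W.ncard + 1)) := by
  induction j with
  | zero => exact ⟨∅, by simp, Or.inr (fun W _ _ => by simp)⟩
  | succ j ih =>
    obtain ⟨S, hS, h | h⟩ := ih
    · exact ⟨S, by omega, Or.inl h⟩
    · set W0 : Set V := {v | ∀ W, Clo B W → (S : Set V) ⊆ W → v ∈ W} with hW0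
      have hclo : Clo B W0 := by
        intro b hb x hx y hy hxy h1 h2 z hz W hW hSW
        exact hW b hb x hx y hy hxy (h1 W hW hSW) (h2 W hW hSW) z hz
      have hS0 : (S : Set V) ⊆ W0 := fun v hv W _ hSW => hSW hv
      by_cases huniv : W0 = Set.univ
      · refine ⟨S, by omega, Or.inl ?_⟩
        intro W hW hSW
        rw [Set.eq_univ_iff_forall]
        intro v
        have : v ∈ W0 := by rw [huniv]; trivial
        exact this W hW hSW
      · obtain ⟨x, hx⟩ := (Set.ne_univ_iff_exists_notMem W0).1 huniv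
        refine ⟨insert x S, (Finset.card_insert_le _ _).trans (by omega), Or.inr ?_⟩
        intro W hW hSW
        have hxW : x ∈ W := hSW (by simp)
        have hSW' : (S : Set V) ⊆ W := fun v hv => hSW (by simp [Finset.mem_coe.1 hv])
        have h0W : W0 ⊆ W := fun v hv => hv W hW hSW'
        have hth : ∀ w ∈ W0, ∃ z, z ≠ x ∧ z ≠ w ∧ ({x, w, z} : Finset V) ∈ B := by
          intro w hw
          exact exists_third hB (fun hh => hx (hh ▸ hw))
        choose! th hth1 hth2 hth3 using hth
        have hnot : ∀ w ∈ W0, th w ∉ W0 := by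
          intro w hw hz
          apply hx
          exact hclo _ (hth3 w hw) w (by simp) (th w) (by simp) (hth2 w hw).symm hw hz x (by simp)
        have hin : ∀ w ∈ W0, th w ∈ W := by
          intro w hw
          exact hW _ (hth3 w hw) x (by simp) w (by simp) (fun hh => hx (hh ▸ hw)) hxW (h0W hw)
            (th w) (by simp)
        have hinj : Set.InjOn th W0 := by
          intro w hw w' hw' he
          have hbb := uniq hB (hth1 w hw).symm (hth3 w hw) (hth3 w' hw') (by simp) (by simp)
            (by simp) (by rw [he]; simp)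
          have : w' ∈ ({x, w, th w} : Finset V) := by rw [hbb]; simp
          simp only [Finset.mem_insert, Finset.mem_singleton] at this
          rcases this with h' | h' | h'
          · exact absurd (h' ▸ hw') hx
          · exact h'.symm
          · exact absurd (h' ▸ hw') (hnot w hw)
        have hU : insert x (W0 ∪ th '' W0) ⊆ W := by
          intro v hv
          rcases hv with rfl | hv | ⟨w, hw, rfl⟩
          · exact hxW
          · exact h0W hv
          · exact hin w hw
        have hdisj : Disjoint W0 (th '' W0) := by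
          rw [Set.disjoint_left]
          rintro v hv ⟨w, hw, rfl⟩
          exact hnot w hw hv
        have hxn : x ∉ W0 ∪ th '' W0 := by
          rintro (h' | ⟨w, hw, h'⟩)
          · exact hx h'
          · exact hth1 w hw h'
        have hcard : (insert x (W0 ∪ th '' W0)).ncard = W0.ncard + W0.ncard + 1 := by
          rw [Set.ncard_insert_of_notMem hxn (Set.toFinite _),
            Set.ncard_union_eq hdisj (Set.toFinite _) (Set.toFinite _),
            Set.ncard_image_of_injOn hinj]
        have hle := Set.ncard_le_ncard hU (Set.toFinite _)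
        have := h W0 hclo hS0
        rw [hcard] at hle
        rw [pow_succ]
        omega

theorem gen {B : Finset (Finset V)} (hB : IsSTS B) (L : ℕ) (hL : Fintype.card V + 1 < 2 ^ L) :
    ∃ S : Finset V, S.card ≤ L ∧ (∀ W, Clo B W → (S : Set V) ⊆ W → W = Set.univ) := by
  obtain ⟨S, hS, h | h⟩ := gen_step hB L
  · exact ⟨S, hS, h⟩
  · exfalso
    have := h Set.univ (fun b _ x _ y _ _ _ _ z _ => trivial) (Set.subset_univ _)
    rw [Set.ncard_univ, Nat.card_eq_fintype_card] at this
    omega

/-- isomorphism -/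
def Iso (B B' : Finset (Finset V)) : Prop :=
  ∃ σ : Equiv.Perm V, ∀ b : Finset V, b ∈ B ↔ b.map σ.toEmbedding ∈ B'

theorem map_map_symm (σ : Equiv.Perm V) (b : Finset V) :
    (b.map σ.toEmbedding).map σ.symm.toEmbedding = b := by
  ext z; simp

theorem map_symm_map (σ : Equiv.Perm V) (b : Finset V) :
    (b.map σ.symm.toEmbedding).map σ.toEmbedding = b := by
  ext z; simp

theorem Iso.refl (B : Finset (Finset V)) : Iso B B :=
  ⟨Equiv.refl V, fun b => by
    have : b.map (Equiv.refl V).toEmbedding = b := by ext z; simp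
    rw [this]⟩

theorem Iso.symm {B B' : Finset (Finset V)} (h : Iso B B') : Iso B' B := by
  obtain ⟨σ, hσ⟩ := h
  exact ⟨σ.symm, fun b => by rw [hσ, map_symm_map]⟩

theorem Iso.trans {B B' B'' : Finset (Finset V)} (h : Iso B B') (h' : Iso B' B'') : Iso B B'' := by
  obtain ⟨σ, hσ⟩ := h
  obtain ⟨τ, hτ⟩ := h'
  refine ⟨σ.trans τ, fun b => ?_⟩
  rw [hσ, hτ]
  rw [Finset.map_map]
  rfl

/-- two automorphisms agreeing on a generating set agree. -/
theorem aut_eq {B : Finset (Finset V)} (hB : IsSTS B) (S : Finset V)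
    (hS : ∀ W, Clo B W → (S : Set V) ⊆ W → W = Set.univ)
    (f g : Equiv.Perm V) (hf : ∀ b ∈ B, b.map f.toEmbedding ∈ B)
    (hg : ∀ b ∈ B, b.map g.toEmbedding ∈ B) (hfg : ∀ s ∈ S, f s = g s) : f = g := by
  have hclo : Clo B {v | f v = g v} := by
    intro b hb x hx y hy hxy h1 h2 z hz
    simp only [Set.mem_setOf_eq] at h1 h2 ⊢
    have he : b.map f.toEmbedding = b.map g.toEmbedding := by
      apply uniq hB (x := f x) (y := f y) (fun h => hxy (f.injective h)) (hf b hb) (hg b hb)
      · simpa using hx
      · simpa using hy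
      · rw [h1]; simpa using hx
      · rw [h2]; simpa using hy
    by_cases hzx : z = x
    · rw [hzx]; exact h1
    by_cases hzy : z = y
    · rw [hzy]; exact h2
    have hfz : f z ∈ b.map g.toEmbedding := by rw [← he]; simpa using hz
    rw [Finset.mem_map] at hfz
    obtain ⟨w, hw, hwz⟩ := hfz
    have hwz : g w = f z := hwz
    have hwx : w ≠ x := by
      rintro rfl
      exact hzx (f.injective (by rw [← hwz, h1]))
    have hwy : w ≠ y := by
      rintro rfl
      exact hzy (f.injective (by rw [← hwz, h2]))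
    -- w and z both in b \ {x,y}
    have h3 := hB.1 b hb
    have : w = z := by
      by_contra hne
      have hsub : ({x, y, z, w} : Finset V) ⊆ b := by
        intro a ha
        simp only [Finset.mem_insert, Finset.mem_singleton] at ha
        rcases ha with rfl | rfl | rfl | rfl <;> assumption
      have hc := Finset.card_le_card hsub
      have h4 : ({x, y, z, w} : Finset V).card = 4 := by
        rw [Finset.card_insert_of_notMem, Finset.card_insert_of_notMem,
          Finset.card_insert_of_notMem, Finset.card_singleton]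
        · simp only [Finset.mem_singleton]; exact fun h => hne h.symm
        · simp only [Finset.mem_insert, Finset.mem_singleton, not_or]
          exact ⟨fun h => hzy h.symm, fun h => hwy h.symm⟩
        · simp only [Finset.mem_insert, Finset.mem_singleton, not_or]
          exact ⟨hxy, fun h => hzx h.symm, fun h => hwx h.symm⟩
      omega
    rw [← hwz, this]
  have := hS _ hclo (fun s hs => hfg s hs)
  ext v
  have hv : v ∈ {v | f v = g v} := by rw [this]; trivial
  exact hv

end Pool.Agent.V11287.PT
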